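import Pool.Agent.Helper45M.AV.Stm
set_option autoImplicit false

/-!
# The Nullstellensatz on the special fibre, residual exactness
-/

open MvPolynomial

namespace Pool.Agent.Helper45M.AV

/-- A polynomial which vanishes on the zeros of a prime ideal is in the ideal. -/
theorem null_mem {κ : Type} [Field κ] [IsAlgClosed κ] {m : ℕ}
    {I : Ideal (MvPolynomial (Fin m) κ)} (hI : I.IsPrime) {f : MvPolynomial (Fin m) κ}
    (h : ∀ x : Fin m → κ, (∀ g ∈ I, eval x g = 0) → eval x f = 0) : f ∈ I := by
  have h1 : f ∈ vanishingIdeal κ (zeroLocus κ I) := by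
    rw [mem_vanishingIdeal_iff]
    intro x hx
    exact h x fun g hg => (mem_zeroLocus_iff.1 hx) g hg
  rw [vanishingIdeal_zeroLocus_eq_radical, hI.radical] at h1
  exact h1

/-- If there is no zero other than `0` then the ideal contains powers of the variables. -/
theorem null_pow {κ : Type} [Field κ] [IsAlgClosed κ] {m : ℕ}
    {I : Ideal (MvPolynomial (Fin m) κ)}
    (h : ∀ x : Fin m → κ, (∀ g ∈ I, eval x g = 0) → x = 0) (i : Fin m) : ∃ N, X i ^ N ∈ I := by
  have h1 : (X i : MvPolynomial (Fin m) κ) ∈ vanishingIdeal κ (zeroLocus κ I) := by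
    rw [mem_vanishingIdeal_iff]
    intro x hx
    have h2 : x = 0 := h x fun g hg => (mem_zeroLocus_iff.1 hx) g hg
    rw [aeval_X, h2]
    rfl
  rw [vanishingIdeal_zeroLocus_eq_radical] at h1
  exact h1

end Pool.Agent.Helper45M.AV
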