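import Pool.Agent.Helper45M.AV.Model
import Pool.Agent.Helper45M.AV.Null
set_option autoImplicit false
set_option linter.unusedSectionVars false

/-!
# Abelian schemes have inseparable self-maps: assembly of the pieces
-/

open MvPolynomial

namespace Pool.Agent.Helper45M.AV

variable {O L κ : Type} [CommRing O] [Field L] [Field κ] {n r : ℕ}

theorem range_map (ρ : O →+* κ) (P : Fin r → MvPolynomial (Fin (n + 1)) O) :
    map ρ '' Set.range P = Set.range fun l => map ρ (P l) := by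
  rw [← Set.range_comp]
  rfl

theorem map_mem_span (ρ : O →+* κ) {S : Set (MvPolynomial (Fin (n + 1)) O)}
    {q : MvPolynomial (Fin (n + 1)) O} (hq : q ∈ Ideal.span S) :
    map ρ q ∈ Ideal.span (map ρ '' S) := by
  have h := Ideal.mem_map_of_mem (map ρ : MvPolynomial (Fin (n + 1)) O →+* _) hq
  rwa [Ideal.map_span] at h

theorem map_eq_of_coeff (ρ : O →+* κ) {f q : MvPolynomial (Fin (n + 1)) O}
    (h : ∀ α, ρ (coeff α (f - q)) = 0) : map ρ f = map ρ q := by
  ext α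
  have h1 := h α
  rw [coeff_sub, map_sub, sub_eq_zero] at h1
  rw [coeff_map, coeff_map, h1]

theorem eval_map' (ρ : O →+* κ) (x : Fin (n + 1) → κ) (f : MvPolynomial (Fin (n + 1)) O) :
    eval x (map ρ f) = eval₂ ρ x f := by
  rw [eval_map]

theorem eval_eq_zero_of_mem (ρ : O →+* κ) {P : Fin r → MvPolynomial (Fin (n + 1)) O}
    {x : Fin (n + 1) → κ} (hx : x ∈ pts ρ P) {f : MvPolynomial (Fin (n + 1)) κ}
    (hf : f ∈ Ideal.span (Set.range fun l => map ρ (P l))) : eval x f = 0 := by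
  have h1 : Ideal.span (Set.range fun l => map ρ (P l)) ≤ RingHom.ker (eval x) := by
    rw [Ideal.span_le]
    rintro _ ⟨l, rfl⟩
    rw [SetLike.mem_coe, RingHom.mem_ker, eval_map']
    exact hx l
  exact h1 hf

theorem pts_id (ρ : O →+* κ) (P : Fin r → MvPolynomial (Fin (n + 1)) O) :
    pts (RingHom.id κ) (fun l => map ρ (P l)) = pts ρ P := by
  ext x
  unfold pts
  simp only [Set.mem_ofPred_eq, eval₂_map, RingHom.id_comp]

theorem groupLaw_id {ρ : O →+* κ} {P : Fin r → MvPolynomial (Fin (n + 1)) O}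
    {A : Fin (n + 1) → Fin (n + 1) → MvPolynomial (Fin (n + 1) ⊕ Fin (n + 1)) O}
    {o : Fin (n + 1) → O} (h : IsGroupLaw ρ P A o) :
    IsGroupLaw (RingHom.id κ) (fun l => map ρ (P l)) (fun i j => map ρ (A i j))
      (fun i => ρ (o i)) := by
  unfold IsGroupLaw at h ⊢
  rw [pts_id]
  simp only [eval₂_map, RingHom.id_comp, RingHom.id_apply]
  exact h

theorem bihom_map (ρ : O →+* κ)
    {A : Fin (n + 1) → Fin (n + 1) → MvPolynomial (Fin (n + 1) ⊕ Fin (n + 1)) O}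
    (h : IsBihom A) : IsBihom (fun i j => map ρ (A i j)) := by
  intro i j
  refine ⟨fun {d} hd => (h i j).1 fun h0 => hd ?_, fun {d} hd => (h i j).2 fun h0 => hd ?_⟩ <;>
    rw [coeff_map, h0, map_zero]

theorem map_aeval_sum (ρ : O →+* κ) (g : Fin (n + 1) → MvPolynomial (Fin (n + 1)) O)
    (F : MvPolynomial (Fin (n + 1) ⊕ Fin (n + 1)) O) :
    map ρ (aeval (Sum.elim g X) F) = aeval (Sum.elim (fun i => map ρ (g i)) X) (map ρ F) := by
  rw [aeval_def, aeval_def, eval₂_map, eval₂_comp_left]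
  congr 1
  · ext a
    simp [algebraMap_eq]
  · funext i
    rcases i with i | i
    · rfl
    · simp

theorem map_aeval_fin (ρ : O →+* κ) {m : ℕ} (g : Fin m → MvPolynomial (Fin (n + 1)) O)
    (F : MvPolynomial (Fin m) O) :
    map ρ (aeval g F) = aeval (fun i => map ρ (g i)) (map ρ F) := by
  rw [aeval_def, aeval_def, eval₂_map, eval₂_comp_left]
  congr 1
  ext a
  simp [algebraMap_eq]

/-- Values of compositions. -/
theorem eval₂_aeval {k : Type} [Field k] (φ : O →+* k) {m : ℕ}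
    (g : Fin m → MvPolynomial (Fin (n + 1)) O) (F : MvPolynomial (Fin m) O)
    (x : Fin (n + 1) → k) :
    eval₂ φ x (aeval g F) = eval₂ φ (fun i => eval₂ φ x (g i)) F := by
  have h := eval₂_comp_left (eval₂Hom φ x) (algebraMap O (MvPolynomial (Fin (n + 1)) O)) g F
  rw [aeval_def]
  change eval₂Hom φ x _ = _
  rw [h]
  congr 1
  ext a
  simp [algebraMap_eq]

theorem eval₂_zero_of_form {k : Type} [Field k] (φ : O →+* k) {D : ℕ}
    {f : MvPolynomial (Fin (n + 1)) O} (hf : f.IsHomogeneous D) (hD : 0 < D) :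
    eval₂ φ (0 : Fin (n + 1) → k) f = 0 := by
  have h2 : eval (0 : Fin (n + 1) → k) (map φ f) = 0 := by
    have h3 := (hf.map φ)
    rw [eval_eq]
    refine Finset.sum_eq_zero fun d hd => ?_
    have h4 : d ≠ 0 := by
      rintro rfl
      have h5 := h3 (mem_support_iff.1 hd)
      simp at h5
      omega
    obtain ⟨i, hi⟩ := Finsupp.ne_iff.1 h4
    rw [Finset.prod_eq_zero (i := i) (Finsupp.mem_support_iff.2 hi), mul_zero]
    exact zero_pow hi
  rwa [eval_map] at h2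

section

variable [IsDomain O] [ValuationRing O]

/-- The pieces which are used. -/
structure Pieces : Prop where
  ebar : S_EBAR
  exact' : S_EXACT
  nullc : S_NULLC
  mult : S_MULT
  sym : S_SYM
  der1 : S_DER1
  der2 : S_DER2
  ppow : S_PPOW
  lift : S_LIFT

variable {p : ℕ} [hp : Fact p.Prime] [IsAlgClosed κ] [CharP κ p] [IsAlgClosed L] {ι : O →+* L}
  {ρ : O →+* κ} {P : Fin r → MvPolynomial (Fin (n + 1)) O}
  {A : Fin (n + 1) → Fin (n + 1) → MvPolynomial (Fin (n + 1) ⊕ Fin (n + 1)) O}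
  {o : Fin (n + 1) → O}

/-- Membership in the ideal of the special fibre. -/
theorem mem_bar_iff (H : Pieces) (p : ℕ) [Fact p.Prime] [CharP κ p]
    (hρ : ∀ a, ρ a = 0 ↔ a ∈ IsLocalRing.maximalIdeal O)
    {f : MvPolynomial (Fin (n + 1)) O} :
    (∃ q ∈ Ideal.span (Set.range P), ∀ α, ρ (coeff α (f - q)) = 0) ↔
      map ρ f ∈ Ideal.span (Set.range fun l => map ρ (P l)) := by
  have hu : ∀ a, ρ a ≠ 0 → IsUnit a := fun a ha => by
    by_contra h
    exact ha ((hρ a).2 ((IsLocalRing.mem_maximalIdeal a).2 h))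
  constructor
  · rintro ⟨q, hq, h⟩
    rw [map_eq_of_coeff ρ h, ← range_map]
    exact map_mem_span ρ hq
  · intro h
    rw [← range_map] at h
    exact (H.lift p O κ ρ hu n).1 _ f h

theorem exact_of_pieces (H : Pieces) (p : ℕ) [Fact p.Prime] [CharP κ p]
    (hρ : ∀ a, ρ a = 0 ↔ a ∈ IsLocalRing.maximalIdeal O)
    (hP : IsAbelianModel ι ρ P A o) (e f : ℕ) (Ψ U : Fin (n + 1) → MvPolynomial (Fin (n + 1)) O)
    (hΨ : ∀ j, (Ψ j).IsHomogeneous f) (hU : ∀ j, (U j).IsHomogeneous (e + f))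
    (h0 : ∀ x ∈ pts ρ P, (∀ j, eval₂ ρ x (Ψ j) = 0) → x = 0)
    (h1 : ∀ j k, U j * Ψ k - U k * Ψ j ∈ Ideal.span (Set.range P)) :
    ∃ φ : MvPolynomial (Fin (n + 1)) O, φ.IsHomogeneous e ∧
      ∀ j, U j - φ * Ψ j ∈ Ideal.span (Set.range P) := by
  have hu : ∀ a, ρ a ≠ 0 → IsUnit a := fun a ha => by
    by_contra h
    exact ha ((hρ a).2 ((IsLocalRing.mem_maximalIdeal a).2 h))
  choose D hD0 hD using hP.form
  refine H.exact' O n r e f P Ψ U (fun l => ⟨D l, hD l⟩) hP.flat hΨ ?_ hU h1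
  intro V hV hVΨ
  have hX : ∃ i, (X i : MvPolynomial (Fin (n + 1)) κ) ∉
      Ideal.span (Set.range fun l => map ρ (P l)) := by
    by_contra hcon
    push Not at hcon
    apply hP.special.2.1
    funext i
    have h2 := eval_eq_zero_of_mem ρ hP.special.1 (hcon i)
    rwa [eval_X] at h2
  have hpow : ∀ i, ∃ N, (X i : MvPolynomial (Fin (n + 1)) κ) ^ N ∈
      Ideal.span (Set.range fun l => map ρ (P l)) ⊔
        Ideal.span (Set.range fun j => map ρ (Ψ j)) := by
    intro i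
    refine null_pow (fun x hx => h0 x (fun l => ?_) fun j => ?_) i
    · rw [← eval_map']
      exact hx _ (Ideal.mem_sup_left (Ideal.subset_span ⟨l, rfl⟩))
    · rw [← eval_map']
      exact hx _ (Ideal.mem_sup_right (Ideal.subset_span ⟨j, rfl⟩))
  obtain ⟨φ, hφ, hφ1⟩ := H.ebar κ n r e f (fun l => map ρ (P l)) (fun j => map ρ (Ψ j))
    (fun j => map ρ (V j)) (fun l => ⟨D l, (hD l).map ρ⟩) hP.prime hP.normal hX hpow
    (fun j => (hΨ j).map ρ) (fun j => (hV j).map ρ) (fun j k => by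
      have h2 := map_mem_span ρ (hVΨ j k)
      rw [range_map, map_sub, map_mul, map_mul] at h2
      exact h2)
  rw [← range_map] at hφ1
  obtain ⟨φ', hφ', hφ1'⟩ := (H.lift p O κ ρ hu n).2.1 _ e V Ψ φ hφ hφ1
  refine ⟨φ', hφ', fun j => ?_⟩
  obtain ⟨q, hq, h3⟩ := hφ1' j
  exact ⟨q, hq, fun α => (hρ _).1 (h3 α)⟩

theorem null_of_pieces (H : Pieces) (p : ℕ) [Fact p.Prime] [CharP κ p]
    (hρ : ∀ a, ρ a = 0 ↔ a ∈ IsLocalRing.maximalIdeal O) (hι : Function.Injective ι)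
    (hP : IsAbelianModel ι ρ P A o) (a : ℕ) (f : MvPolynomial (Fin (n + 1)) O)
    (hf : f.IsHomogeneous a) (h0 : ∀ x ∈ pts ι P, eval₂ ι x f = 0) :
    f ∈ Ideal.span (Set.range P) := by
  choose D hD0 hD using hP.form
  refine H.nullc O L ι n r a P f hι (fun l => ⟨D l, hD l⟩) hP.flat (fun g k hg => ?_) hf h0
  simp only [← hρ] at hg ⊢
  rw [mem_bar_iff H p hρ] at hg ⊢
  rw [map_pow] at hg
  exact hP.prime.mem_of_pow_mem _ hg

/-- The multiplication by `p ^ 2` is given by forms of degree `p ^ 4` which are `p`-th powers in the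
homogeneous coordinate ring of the special fibre. -/
theorem alg_main (H : Pieces) (hρ : ∀ a, ρ a = 0 ↔ a ∈ IsLocalRing.maximalIdeal O)
    (hι : Function.Injective ι) (hpow : ∀ a, ∃ b, ρ (b ^ p) = ρ a)
    (hP : IsAbelianModel ι ρ P A o) :
    ∃ Ψ : Fin (n + 1) → MvPolynomial (Fin (n + 1)) O,
      (∀ i, (Ψ i).IsHomogeneous (p ^ 2 * p ^ 2)) ∧
      (∀ l, aeval Ψ (P l) ∈ Ideal.span (Set.range P)) ∧
      (∀ i, ∃ N, ∃ q ∈ Ideal.span (Set.range P ∪ Set.range Ψ),
        ∀ α, ρ (coeff α (X i ^ N - q)) = 0) ∧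
      ∀ i, ∃ g, ∃ q ∈ Ideal.span (Set.range P), ∀ α, ρ (coeff α (Ψ i - g ^ p - q)) = 0 := by
  classical
  have hu : ∀ a, ρ a ≠ 0 → IsUnit a := fun a ha => by
    by_contra h
    exact ha ((hρ a).2 ((IsLocalRing.mem_maximalIdeal a).2 h))
  have hp0 : 0 < p := hp.out.pos
  obtain ⟨Φ, hΦ⟩ := H.mult O L κ ι ρ n r P A o hP.form hP.bihom hP.generic hP.special
    (null_of_pieces H p hρ hι hP) (exact_of_pieces H p hρ hP)
  -- the special fibre
  set I : Ideal (MvPolynomial (Fin (n + 1)) κ) := Ideal.span (Set.range fun l => map ρ (P l)) with hI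
  have hne : ∀ m, ∃ j, map ρ (Φ m j) ∉ I := by
    intro m
    have h1 := (hΦ.ptκ m _ hP.special.1 hP.special.2.1).2
    obtain ⟨j, hj⟩ := Function.ne_iff.1 h1
    refine ⟨j, fun h2 => hj ?_⟩
    have h3 := eval_eq_zero_of_mem ρ hP.special.1 h2
    rw [eval_map'] at h3
    exact h3
  have hsym := H.sym p κ n r (fun l => map ρ (P l)) (fun i j => map ρ (A i j)) (fun i => ρ (o i))
    (fun m i => map ρ (Φ m i)) (fun l => by
      obtain ⟨D, hD, h⟩ := hP.form l
      exact ⟨D, hD, h.map ρ⟩) hP.prime (bihom_map ρ hP.bihom) (groupLaw_id hP.special)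
    (fun m i => (hΦ.hom m i).map ρ) (fun i => by rw [hΦ.zero, map_C])
    (fun i => by rw [hΦ.one, map_X]) (fun m i j => by
      have h1 := map_mem_span ρ (hΦ.rel m i j)
      rw [range_map, map_sub, map_mul, map_aeval_sum] at h1
      exact h1) hne
  obtain ⟨j₀, hj₀⟩ := hne p
  have hquot : ∀ i, ∃ a b, b ∉ I ∧ map ρ (Φ p i) * b ^ p - map ρ (Φ p j₀) * a ^ p ∈ I := by
    intro i
    exact H.der2 H.der1 p κ n I hP.prime (map ρ (Φ p i)) (map ρ (Φ p j₀)) hj₀
      (fun D hD => hsym D hD j₀ i)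
  have hpp := H.ppow p κ n p I hP.prime hP.normal (fun i => map ρ (Φ p i)) j₀
    (fun i => by
      have h1 := (hΦ.hom p i).map ρ
      rwa [pow_two] at h1) hj₀ hquot
  -- the self-map
  let Ψ : Fin (n + 1) → MvPolynomial (Fin (n + 1)) O := fun i => aeval (Φ p) (Φ p i)
  have hΨ : ∀ i, (Ψ i).IsHomogeneous (p ^ 2 * p ^ 2) := fun i =>
    (hΦ.hom p i).aeval (Φ p) (hΦ.hom p)
  have hΨv : ∀ {k : Type} [Field k] (φ : O →+* k) (x : Fin (n + 1) → k) (i : Fin (n + 1)),
      eval₂ φ x (Ψ i) = eval₂ φ (fun j => eval₂ φ x (Φ p j)) (Φ p i) := fun φ x i =>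
    eval₂_aeval φ (Φ p) (Φ p i) x
  have hpos : 0 < p ^ 2 * p ^ 2 := by positivity
  refine ⟨Ψ, hΨ, fun l => ?_, fun i => ?_, fun i => ?_⟩
  · obtain ⟨D, hD, h⟩ := hP.form l
    refine null_of_pieces H p hρ hι hP (p ^ 2 * p ^ 2 * D) _ (h.aeval Ψ hΨ) fun x hx => ?_
    rw [eval₂_aeval]
    by_cases hx0 : x = 0
    · have h1 : (fun i => eval₂ ι x (Ψ i)) = 0 := by
        funext i
        rw [hx0]
        exact eval₂_zero_of_form ι (hΨ i) hpos
      rw [h1]
      exact eval₂_zero_of_form ι h hD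
    · obtain ⟨h1, h2⟩ := hΦ.ptC p x hx hx0
      obtain ⟨h3, h4⟩ := hΦ.ptC p _ h1 h2
      have h5 := h3 l
      simp only [← hΨv] at h5
      exact h5
  · suffices h : ∃ N, (X i : MvPolynomial (Fin (n + 1)) κ) ^ N ∈
        Ideal.span (map ρ '' (Set.range P ∪ Set.range Ψ)) by
      obtain ⟨N, hN⟩ := h
      refine ⟨N, (H.lift p O κ ρ hu n).1 _ _ ?_⟩
      rwa [map_pow, map_X]
    rw [Set.image_union, Ideal.span_union, range_map, range_map]
    refine null_pow (fun x hx => ?_) i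
    by_contra hx0
    have hxP : x ∈ pts ρ P := fun l => by
      rw [← eval_map']
      exact hx _ (Ideal.mem_sup_left (Ideal.subset_span ⟨l, rfl⟩))
    obtain ⟨h1, h2⟩ := hΦ.ptκ p x hxP hx0
    obtain ⟨h3, h4⟩ := hΦ.ptκ p _ h1 h2
    apply h4
    funext j
    rw [← hΨv, ← eval_map']
    exact hx _ (Ideal.mem_sup_right (Ideal.subset_span ⟨j, rfl⟩))
  · obtain ⟨g, hg⟩ := hpp i
    refine (H.lift p O κ ρ hu n).2.2 hpow (Set.range P) (Ψ i) g ?_
    rw [range_map, map_aeval_fin]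
    exact hg

end

end Pool.Agent.Helper45M.AV
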