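import Pool.Agent.Helper45M.AV.Stm

/-!
# DER1: in characteristic `p` an element which is not a `p`-th power is not killed by some derivation
-/

set_option autoImplicit false

open Polynomial IntermediateField

namespace Pool.Agent.Helper45M.AV.DER1P

/-- a maximal subfield which contains the `p`-th powers and does not contain `h` -/
lemma max_sub (p : ℕ) [Fact p.Prime] (K : Type) [Field K] [CharP K p] (h : K) (hh : ∀ a : K, a ^ p ≠ h) :
    ∃ M : Subfield K, (∀ a : K, a ^ p ∈ M) ∧ h ∉ M ∧ ∀ M' : Subfield K, M ≤ M' → h ∉ M' → M' ≤ M := by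
  have h0 : (frobenius K p).fieldRange ∈ {M : Subfield K | h ∉ M} := by
    rintro ⟨a, ha⟩
    exact hh a ha
  obtain ⟨M, h1, h2⟩ := zorn_le_nonempty₀ {M : Subfield K | h ∉ M} (by
    intro c hc hchain y hy
    refine ⟨sSup c, ?_, fun z hz => le_sSup hz⟩
    intro hmem
    rw [Subfield.mem_sSup_of_directedOn ⟨y, hy⟩ hchain.directedOn] at hmem
    obtain ⟨s, hs, hhs⟩ := hmem
    exact hc hs hhs) _ h0
  exact ⟨M, fun a => h1 ⟨a, rfl⟩, h2.prop, fun M' h3 h4 => h2.le_of_ge h4 h3⟩

variable {p : ℕ} [Fact p.Prime] {K : Type} [Field K] [CharP K p] {M : Subfield K}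

lemma root (hM : ∀ a : K, a ^ p ∈ M) (y : K) :
    Polynomial.aeval y (X ^ p - C (⟨y ^ p, hM y⟩ : M) : M[X]) = 0 := by
  rw [map_sub, map_pow, aeval_X, aeval_C]
  exact sub_self _

lemma minpoly_eq (hM : ∀ a : K, a ^ p ∈ M) {y : K} (hy : y ∉ M) :
    minpoly M y = X ^ p - C (⟨y ^ p, hM y⟩ : M) := by
  have hp : p.Prime := Fact.out
  symm
  refine minpoly.eq_of_irreducible_of_monic ?_ (root hM y) (monic_X_pow_sub_C _ hp.ne_zero)
  apply X_pow_sub_C_irreducible_of_prime hp
  intro b hb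
  have h1 : ((b : K)) ^ p = y ^ p := congrArg Subtype.val hb
  have h2 : (b : K) = y := frobenius_inj K p h1
  exact hy (h2 ▸ b.2)

lemma isInt (hM : ∀ a : K, a ^ p ∈ M) (y : K) : IsIntegral M y := by
  have hp : p.Prime := Fact.out
  refine ⟨X ^ p - C (⟨y ^ p, hM y⟩ : M), monic_X_pow_sub_C _ hp.ne_zero, ?_⟩
  exact root hM y

lemma finrank_eq (hM : ∀ a : K, a ^ p ∈ M) {y : K} (hy : y ∉ M) : Module.finrank M M⟮y⟯ = p := by
  rw [IntermediateField.adjoin.finrank (isInt hM y), minpoly_eq hM hy, natDegree_X_pow_sub_C]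

lemma adjoin_top (hM : ∀ a : K, a ^ p ∈ M) {h : K} (hh : h ∉ M)
    (hmax : ∀ M' : Subfield K, M ≤ M' → h ∉ M' → M' ≤ M) : M⟮h⟯ = ⊤ := by
  rw [eq_top_iff]
  intro y _
  by_cases hy : y ∈ M
  · exact (M⟮h⟯).algebraMap_mem ⟨y, hy⟩
  have h1 : h ∈ M⟮y⟯ := by
    by_contra hcon
    have h2 := hmax (M⟮y⟯).toSubfield (fun x hx => (M⟮y⟯).algebraMap_mem ⟨x, hx⟩) hcon
    exact hy (h2 (mem_adjoin_simple_self M y))
  have h3 : M⟮h⟯ ≤ M⟮y⟯ := adjoin_simple_le_iff.2 h1
  haveI : FiniteDimensional M M⟮y⟯ := adjoin.finiteDimensional (isInt hM y)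
  have h4 : M⟮h⟯ = M⟮y⟯ :=
    IntermediateField.eq_of_le_of_finrank_eq h3 (by rw [finrank_eq hM hh, finrank_eq hM hy])
  rw [h4]
  exact mem_adjoin_simple_self M y

lemma surj (hM : ∀ a : K, a ^ p ∈ M) {h : K} (hh : h ∉ M)
    (hmax : ∀ M' : Subfield K, M ≤ M' → h ∉ M' → M' ≤ M) :
    Function.Surjective (Polynomial.aeval h : M[X] →ₐ[M] K) := by
  intro y
  have h1 := adjoin_top hM hh hmax
  have h2 : Algebra.adjoin M {h} = ⊤ := by
    rw [← adjoin_simple_toSubalgebra_of_isAlgebraic (isInt hM h).isAlgebraic, h1]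
    rfl
  have h3 : y ∈ Algebra.adjoin M {h} := by
    rw [h2]
    trivial
  rw [Algebra.adjoin_singleton_eq_range_aeval] at h3
  exact h3

end Pool.Agent.Helper45M.AV.DER1P

namespace Pool.Agent.Helper45M.AV

open DER1P in
theorem t_DER1 : S_DER1 := by
  intro p _ K _ _ h hh
  have hp : p.Prime := Fact.out
  obtain ⟨M, hM, hhM, hmax⟩ := max_sub p K h hh
  have hchar : ((p : ℕ) : K) = 0 := CharP.cast_eq_zero K p
  have hker : ∀ f : M[X], Polynomial.aeval h f = 0 → Polynomial.aeval h (Polynomial.derivative' f) = 0 := by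
    intro f hf
    obtain ⟨g, rfl⟩ := minpoly.dvd M h hf
    have h1 : Polynomial.aeval h (Polynomial.derivative (minpoly M h)) = 0 := by
      rw [minpoly_eq hM hhM, Polynomial.derivative_sub, Polynomial.derivative_C, Polynomial.derivative_X_pow, sub_zero,
        map_mul, map_pow, aeval_X, map_natCast, map_natCast, hchar, zero_mul]
    change Polynomial.aeval h (Polynomial.derivative (minpoly M h * g)) = 0
    rw [Polynomial.derivative_mul, map_add, map_mul, map_mul, h1, minpoly.aeval, zero_mul, zero_mul, add_zero]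
  let δ : Derivation M K K := Derivation.liftOfSurjective (surj hM hhM hmax) (d := Polynomial.derivative') hker
  refine ⟨δ.restrictScalars ℤ, ?_⟩
  have h1 : δ h = 1 := by
    have h2 : δ (Polynomial.aeval h (X : M[X])) = Polynomial.aeval h (Polynomial.derivative' (X : M[X])) :=
      Derivation.liftOfSurjective_apply (surj hM hhM hmax) hker X
    rw [aeval_X] at h2
    rw [h2]
    change Polynomial.aeval h (Polynomial.derivative (X : M[X])) = 1
    rw [Polynomial.derivative_X, map_one]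
  rw [Derivation.restrictScalars_apply, h1]
  exact one_ne_zero

end Pool.Agent.Helper45M.AV
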