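import Pool.Agent.Helper45M.AV.Stm

/-!
# Piece DER2 of project AV (helper45)
-/

set_option autoImplicit false

open MvPolynomial

namespace Pool.Agent.Helper45M.AV

namespace DER2P

theorem pow_zero_der {p : ℕ} {K : Type} [Field K] [CharP K p] (δ : Derivation ℤ K K) (x : K) :
    δ (x ^ p) = 0 := by
  rw [Derivation.leibniz_pow, ← Nat.cast_smul_eq_nsmul K, CharP.cast_eq_zero, zero_smul]

theorem leib {K : Type} [Field K] (δ : Derivation ℤ K K) (x y : K) :
    δ (x * y) = x * δ y + y * δ x := by
  rw [Derivation.leibniz, smul_eq_mul, smul_eq_mul]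

theorem aux {p : ℕ} (hp : p.Prime) {κ : Type} [Field κ] [IsAlgClosed κ] {n : ℕ}
    {I : Ideal (MvPolynomial (Fin (n + 1)) κ)} {f g : MvPolynomial (Fin (n + 1)) κ}
    (hD : ∀ D : Derivation κ (MvPolynomial (Fin (n + 1)) κ) (MvPolynomial (Fin (n + 1)) κ),
      (∀ h ∈ I, D h ∈ I) → g * D f - f * D g ∈ I)
    {S K : Type} [CommRing S] [IsDomain S] [Field K] [Algebra S K] [IsFractionRing S K] [CharP K p]
    (m : MvPolynomial (Fin (n + 1)) κ →+* S) (hm : Function.Surjective m)
    (q : MvPolynomial (Fin (n + 1)) κ →+* K) (hq : ∀ x, q x = algebraMap S K (m x))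
    (hq0 : ∀ x, q x = 0 ↔ x ∈ I) (hqg : q g ≠ 0) (δ : Derivation ℤ K K) : δ (q f / q g) = 0 := by
  have hinj : Function.Injective (algebraMap S K) := IsFractionRing.injective S K
  obtain ⟨b, hb⟩ := IsLocalization.exist_integer_multiples (nonZeroDivisors S)
    (Finset.univ : Finset (Fin (n + 1))) (fun i => δ (q (X i)))
  obtain ⟨s, hs⟩ := hm (b : S)
  have hc : ∀ i : Fin (n + 1), ∃ c, q c = q s * δ (q (X i)) := by
    intro i
    obtain ⟨c, hc⟩ := hb i (Finset.mem_univ i)
    obtain ⟨c', rfl⟩ := hm c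
    refine ⟨c', ?_⟩
    rw [hq, hq, hs, hc, Algebra.smul_def]
  choose c hc using hc
  have hqs : q s ≠ 0 := by
    intro h
    rw [hq, hs, map_eq_zero_iff _ hinj] at h
    exact nonZeroDivisors.ne_zero b.2 h
  let D : Derivation κ (MvPolynomial (Fin (n + 1)) κ) (MvPolynomial (Fin (n + 1)) κ) :=
    mkDerivation κ c
  have hDX : ∀ i, D (X i) = c i := fun i => mkDerivation_X κ c i
  have hDC : ∀ a, D (C a) = 0 := fun a => D.map_algebraMap a
  have key : ∀ F, q (D F) = q s * δ (q F) := by
    intro F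
    induction F using MvPolynomial.induction_on with
    | C a =>
      obtain ⟨a', ha'⟩ := IsAlgClosed.exists_pow_nat_eq a hp.pos
      have e2 : q (C a) = q (C a') ^ p := by
        rw [← map_pow, ← C_pow, ha']
      rw [hDC, map_zero, e2, pow_zero_der, mul_zero]
    | add F G hF hG => rw [map_add, map_add, map_add, map_add, hF, hG, mul_add]
    | mul_X F i hF =>
      rw [Derivation.leibniz, hDX, smul_eq_mul, smul_eq_mul, map_add, map_mul, map_mul, hc, hF,
        map_mul, leib]
      ring
  have h2 := hD D (fun h hh => by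
    rw [← hq0, key, (hq0 h).2 hh, map_zero, mul_zero])
  rw [← hq0, map_sub, map_mul, map_mul, key, key] at h2
  have h3 : q g * δ (q f) = q f * δ (q g) := by
    apply mul_left_cancel₀ hqs
    linear_combination h2
  generalize q f = u at *
  generalize q g = v at *
  have h4 : u = (u / v) * v := by field_simp
  have h5 : δ u = (u / v) * δ v + v * δ (u / v) := by
    conv_lhs => rw [h4]
    rw [leib]
  have h7 : v * ((u / v) * δ v) = u * δ v := by
    field_simp
  have h6 : v * v * δ (u / v) = 0 := by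
    rw [h5, mul_add, h7] at h3
    linear_combination h3
  rcases mul_eq_zero.1 h6 with h7 | h7
  · exact absurd (mul_self_eq_zero.1 h7) hqg
  · exact h7

end DER2P

open DER2P in
theorem t_DER2 : S_DER2 := by
  intro h1 p _ κ _ _ _ n I hI f g hg hD
  have hp : p.Prime := Fact.out
  let S := MvPolynomial (Fin (n + 1)) κ ⧸ I
  have : IsDomain S := Ideal.Quotient.isDomain I
  let K := FractionRing S
  let q : MvPolynomial (Fin (n + 1)) κ →+* K := (algebraMap S K).comp (Ideal.Quotient.mk I)
  have hinj : Function.Injective (algebraMap S K) := IsFractionRing.injective S K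
  have hq0 : ∀ x, q x = 0 ↔ x ∈ I := by
    intro x
    rw [← Ideal.Quotient.eq_zero_iff_mem]
    show algebraMap S K (Ideal.Quotient.mk I x) = 0 ↔ _
    rw [map_eq_zero_iff _ hinj]
  have : CharP K p := charP_of_injective_ringHom (q.comp (C : κ →+* _)).injective p
  have hqg : q g ≠ 0 := fun h => hg ((hq0 g).1 h)
  by_cases hpow : ∃ a : K, a ^ p = q f / q g
  · obtain ⟨a, ha⟩ := hpow
    obtain ⟨s, t, ht, rfl⟩ := IsFractionRing.div_surjective (A := S) a
    obtain ⟨a', rfl⟩ := Ideal.Quotient.mk_surjective s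
    obtain ⟨b', rfl⟩ := Ideal.Quotient.mk_surjective t
    have hb : b' ∉ I := by
      intro h
      have h2 := nonZeroDivisors.ne_zero ht
      exact h2 (Ideal.Quotient.eq_zero_iff_mem.2 h)
    have hqb : q b' ≠ 0 := fun h => hb ((hq0 _).1 h)
    refine ⟨a', b', hb, (hq0 _).1 ?_⟩
    have h2 : (q a' / q b') ^ p = q f / q g := ha
    rw [div_pow, div_eq_div_iff (pow_ne_zero _ hqb) hqg] at h2
    rw [map_sub, map_mul, map_mul, map_pow, map_pow]
    linear_combination -h2
  · exfalso
    push Not at hpow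
    obtain ⟨δ, hδ⟩ := h1 p K (q f / q g) hpow
    exact hδ (aux hp hD (Ideal.Quotient.mk I) Ideal.Quotient.mk_surjective q (fun x => rfl) hq0 hqg δ)

end Pool.Agent.Helper45M.AV

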