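import Pool.Agent.Helper45M.AV.Stm

/-!
# Piece EBAR of project AV (helper45)
-/

set_option autoImplicit false

open MvPolynomial

namespace Pool.Agent.Helper45M.AV

namespace EBARP

variable {κ : Type} [Field κ] {n : ℕ}

theorem comp_mul {φ : MvPolynomial (Fin (n + 1)) κ} {m : ℕ} (hφ : φ.IsHomogeneous m)
    (g : MvPolynomial (Fin (n + 1)) κ) (d : ℕ) :
    homogeneousComponent d (g * φ) = if m ≤ d then homogeneousComponent (d - m) g * φ else 0 := by
  have h : ∀ i, homogeneousComponent d (homogeneousComponent i g * φ) =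
      if d = i + m then homogeneousComponent i g * φ else 0 := fun i =>
    homogeneousComponent_of_mem ((homogeneousComponent_isHomogeneous i g).mul hφ)
  conv_lhs => rw [← sum_homogeneousComponent g, Finset.sum_mul, map_sum]
  rw [Finset.sum_congr rfl fun i _ => h i]
  split_ifs with hm
  · rw [Finset.sum_eq_single (d - m)]
    · rw [if_pos (by omega)]
    · intro i _ hi
      rw [if_neg (by omega)]
    · intro hi
      rw [Finset.mem_range, not_lt] at hi
      rw [homogeneousComponent_eq_zero _ _ (by omega), zero_mul, ite_self]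
  · exact Finset.sum_eq_zero fun i _ => by rw [if_neg (by omega)]

theorem comp_mem {r : ℕ} {P : Fin r → MvPolynomial (Fin (n + 1)) κ}
    (hP : ∀ l, ∃ D, (P l).IsHomogeneous D) (x : MvPolynomial (Fin (n + 1)) κ)
    (hx : x ∈ Ideal.span (Set.range P)) :
    ∀ (g : MvPolynomial (Fin (n + 1)) κ) (d : ℕ),
      homogeneousComponent d (g * x) ∈ Ideal.span (Set.range P) := by
  induction hx using Submodule.span_induction with
  | mem x hx =>
    obtain ⟨l, rfl⟩ := hx
    obtain ⟨D, hD⟩ := hP l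
    intro g d
    rw [comp_mul hD]
    split_ifs
    · exact Ideal.mul_mem_left _ _ (Ideal.subset_span ⟨l, rfl⟩)
    · exact zero_mem _
  | zero =>
    intro g d
    rw [mul_zero, map_zero]
    exact zero_mem _
  | add x y _ _ hx hy =>
    intro g d
    rw [mul_add, map_add]
    exact add_mem (hx g d) (hy g d)
  | smul a x _ hx =>
    intro g d
    rw [smul_eq_mul, ← mul_assoc]
    exact hx (g * a) d

theorem deg_sum {s : MvPolynomial (Fin (n + 1)) κ} {b : ℕ} (hs : s.IsHomogeneous b)
    {α : Fin (n + 1) →₀ ℕ} (hα : α ∈ s.support) : ∑ i, α i = b := by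
  have h2 := hs (mem_support_iff.1 hα)
  rw [← h2, Finsupp.weight_apply, Finsupp.sum_fintype _ _ (fun i => by simp)]
  exact Finset.sum_congr rfl fun i _ => by simp

theorem aux {S K : Type} [CommRing S] [IsDomain S] [Field K] [Algebra S K] [IsFractionRing S K]
    {I : Ideal (MvPolynomial (Fin (n + 1)) κ)} (hN : IsNormalIdeal I)
    (m : MvPolynomial (Fin (n + 1)) κ →+* S) (hm : Function.Surjective m)
    (hm0 : ∀ x, m x = 0 ↔ x ∈ I) {U Ψ s : MvPolynomial (Fin (n + 1)) κ}
    {v : Fin (n + 1) → MvPolynomial (Fin (n + 1)) κ} (hX : ∃ i, X i ∉ I) (hΨ : Ψ ∉ I)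
    (hv : ∀ i, X i * s * U - v i * Ψ ∈ I) (hv' : ∀ i, v i ∈ Ideal.span (Set.range X)) :
    ∃ h, s * U - h * Ψ ∈ I := by
  have hinj : Function.Injective (algebraMap S K) := IsFractionRing.injective S K
  let q : MvPolynomial (Fin (n + 1)) κ →+* K := (algebraMap S K).comp m
  have hq : ∀ x, q x = algebraMap S K (m x) := fun x => rfl
  have hq0 : ∀ x, q x = 0 ↔ x ∈ I := by
    intro x
    rw [hq, map_eq_zero_iff _ hinj, hm0]
  have hqΨ : q Ψ ≠ 0 := fun h => hΨ ((hq0 _).1 h)
  let N : Submodule S K := Submodule.span S (Set.range fun i => q (X i))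
  have hNb : N ≠ ⊥ := by
    obtain ⟨i, hi⟩ := hX
    intro h
    have h1 : q (X i) ∈ N := Submodule.subset_span ⟨i, rfl⟩
    rw [h, Submodule.mem_bot, hq0] at h1
    exact hi h1
  have hNf : N.FG := Submodule.fg_span (Set.finite_range _)
  have hqN : ∀ x ∈ Ideal.span (Set.range (X : Fin (n + 1) → MvPolynomial (Fin (n + 1)) κ)),
      q x ∈ N := by
    intro x hx
    induction hx using Submodule.span_induction with
    | mem x hx =>
      obtain ⟨i, rfl⟩ := hx
      exact Submodule.subset_span ⟨i, rfl⟩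
    | zero => rw [map_zero]; exact zero_mem _
    | add x y _ _ hx hy => rw [map_add]; exact add_mem hx hy
    | smul a x _ hx =>
      have h1 : q (a • x) = m a • q x := by
        rw [smul_eq_mul, map_mul, Algebra.smul_def]
        rfl
      rw [h1]
      exact Submodule.smul_mem _ _ hx
  set w : K := q (s * U) / q Ψ with hw
  have hwN : ∀ y ∈ N, w • y ∈ N := by
    intro y hy
    induction hy using Submodule.span_induction with
    | mem y hy =>
      obtain ⟨i, rfl⟩ := hy
      have h1 : w • q (X i) = q (v i) := by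
        rw [smul_eq_mul, hw, div_mul_eq_mul_div, div_eq_iff hqΨ, ← map_mul, ← map_mul,
          ← sub_eq_zero, ← map_sub, hq0]
        have h2 : s * U * X i - v i * Ψ = X i * s * U - v i * Ψ := by ring
        rw [h2]
        exact hv i
      show w • q (X i) ∈ N
      rw [h1]
      exact hqN _ (hv' i)
    | zero => rw [smul_zero]; exact zero_mem _
    | add x y _ _ hx hy => rw [smul_add]; exact add_mem hx hy
    | smul a x _ hx =>
      rw [smul_comm]
      exact Submodule.smul_mem _ _ hx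
  obtain ⟨p, hp, hpw⟩ := isIntegral_of_smul_mem_submodule N hNb hNf w hwN
  choose c hc using fun i : ℕ => hm (p.coeff i)
  obtain ⟨h, hh⟩ := hN (s * U) Ψ p.natDegree (fun i => c i) hΨ (by
    rw [← hq0, map_add, map_sum]
    have h1 : q (s * U) = w * q Ψ := by rw [hw, div_mul_cancel₀ _ hqΨ]
    have h2 : ∀ i : Fin p.natDegree, q (c i * Ψ ^ (p.natDegree - (i : ℕ)) * (s * U) ^ (i : ℕ)) =
        q Ψ ^ p.natDegree * (algebraMap S K (p.coeff i) * w ^ (i : ℕ)) := by
      intro i
      have h3 : q Ψ ^ p.natDegree = q Ψ ^ (p.natDegree - (i : ℕ)) * q Ψ ^ (i : ℕ) := by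
        rw [← pow_add, Nat.sub_add_cancel i.2.le]
      rw [map_mul, map_mul, map_pow, map_pow, h1, hq, hc, h3]
      ring
    rw [Finset.sum_congr rfl fun i _ => h2 i, ← Finset.mul_sum, map_pow, h1, mul_pow,
      mul_comm (w ^ _), ← mul_add]
    rw [Polynomial.eval₂_eq_sum_range, Finset.sum_range_succ, hp.coeff_natDegree, map_one, one_mul,
      Finset.sum_range, add_comm] at hpw
    rw [hpw, mul_zero])
  exact ⟨h, by rwa [mul_comm h]⟩

end EBARP

open EBARP in
theorem t_EBAR : S_EBAR := by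
  intro κ _ n r e f P Ψ U hP hI hN hX hNN hΨ hU hUΨ
  set I := Ideal.span (Set.range P) with hIdef
  -- some `Ψ k₀` is not in `I`
  obtain ⟨k₀, hk₀⟩ : ∃ k, Ψ k ∉ I := by
    by_contra hcon
    push Not at hcon
    obtain ⟨i, hi⟩ := hX
    obtain ⟨N, hN'⟩ := hNN i
    have h1 : I ⊔ Ideal.span (Set.range Ψ) ≤ I := by
      refine sup_le le_rfl (Ideal.span_le.2 ?_)
      rintro _ ⟨k, rfl⟩
      exact hcon k
    exact hi (hI.mem_of_pow_mem N (h1 hN'))
  -- it suffices
  suffices h : ∃ φ : MvPolynomial (Fin (n + 1)) κ, φ.IsHomogeneous e ∧ U k₀ - φ * Ψ k₀ ∈ I by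
    obtain ⟨φ, hφ, hφ'⟩ := h
    refine ⟨φ, hφ, fun j => ?_⟩
    have h1 : Ψ k₀ * (U j - φ * Ψ j) ∈ I := by
      have h2 : Ψ k₀ * (U j - φ * Ψ j) = (U j * Ψ k₀ - U k₀ * Ψ j) + Ψ j * (U k₀ - φ * Ψ k₀) := by
        ring
      rw [h2]
      exact add_mem (hUΨ j k₀) (Ideal.mul_mem_left _ _ hφ')
    exact (hI.mem_or_mem h1).resolve_left hk₀
  have hcomp : ∀ x ∈ I, ∀ d, homogeneousComponent d x ∈ I := by
    intro x hx d
    have := comp_mem hP x hx 1 d
    rwa [one_mul] at this
  -- homogeneous multipliers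
  have hL1 : ∀ (s h : MvPolynomial (Fin (n + 1)) κ) (b : ℕ), s.IsHomogeneous b →
      s * U k₀ - h * Ψ k₀ ∈ I → ∃ v : MvPolynomial (Fin (n + 1)) κ, v.IsHomogeneous (b + e) ∧
        s * U k₀ - v * Ψ k₀ ∈ I := by
    intro s h b hs hh
    refine ⟨homogeneousComponent (b + e) h, homogeneousComponent_isHomogeneous _ _, ?_⟩
    have h1 := hcomp _ hh (b + (e + f))
    rw [map_sub, homogeneousComponent_eq_self (hs.mul (hU k₀)), comp_mul (hΨ k₀),
      if_pos (by omega)] at h1
    have h2 : b + (e + f) - f = b + e := by omega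
    rwa [h2] at h1
  let 𝔞 : Ideal (MvPolynomial (Fin (n + 1)) κ) :=
    { carrier := {s | ∃ h, s * U k₀ - h * Ψ k₀ ∈ I}
      zero_mem' := ⟨0, by rw [zero_mul, zero_mul, sub_zero]; exact zero_mem _⟩
      add_mem' := by
        rintro s t ⟨h, hh⟩ ⟨h', hh'⟩
        refine ⟨h + h', ?_⟩
        have h1 : (s + t) * U k₀ - (h + h') * Ψ k₀ =
          (s * U k₀ - h * Ψ k₀) + (t * U k₀ - h' * Ψ k₀) := by ring
        rw [h1]
        exact add_mem hh hh'
      smul_mem' := by
        rintro c s ⟨h, hh⟩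
        refine ⟨c * h, ?_⟩
        have h1 : c • s * U k₀ - c * h * Ψ k₀ = c * (s * U k₀ - h * Ψ k₀) := by
          rw [smul_eq_mul]; ring
        rw [h1]
        exact Ideal.mul_mem_left _ _ hh }
  have hle : I ⊔ Ideal.span (Set.range Ψ) ≤ 𝔞 := by
    refine sup_le ?_ (Ideal.span_le.2 ?_)
    · intro s hs
      exact ⟨0, by rw [zero_mul, sub_zero]; exact Ideal.mul_mem_right _ _ hs⟩
    · rintro _ ⟨j, rfl⟩
      refine ⟨U j, ?_⟩
      have h1 : Ψ j * U k₀ - U j * Ψ k₀ = -(U j * Ψ k₀ - U k₀ * Ψ j) := by ring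
      rw [h1]
      exact neg_mem (hUΨ j k₀)
  choose N hNX using hNN
  have hbase : ∀ b, ∑ i, N i ≤ b → ∀ s : MvPolynomial (Fin (n + 1)) κ, s.IsHomogeneous b →
      s ∈ 𝔞 := by
    intro b hb s hs
    rw [← support_sum_monomial_coeff s]
    refine sum_mem fun α hα => ?_
    have h1 := deg_sum hs hα
    have h2 : ∃ i, N i ≤ α i := by
      by_contra hcon
      push Not at hcon
      have h3 : ∑ i, α i < ∑ i, N i :=
        Finset.sum_lt_sum_of_nonempty Finset.univ_nonempty fun i _ => hcon i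
      omega
    obtain ⟨i, hi⟩ := h2
    have h3 : monomial α (coeff α s) = monomial (α - Finsupp.single i (N i)) (coeff α s) *
        X i ^ N i := by
      rw [X_pow_eq_monomial, monomial_mul, mul_one,
        tsub_add_cancel_of_le (Finsupp.single_le_iff.2 hi)]
    rw [h3]
    exact Ideal.mul_mem_left _ _ (hle (hNX i))
  have hQ : ∀ t b, ∑ i, N i ≤ b + t → ∀ s : MvPolynomial (Fin (n + 1)) κ, s.IsHomogeneous b →
      s ∈ 𝔞 := by
    intro t
    induction t with
    | zero =>
      intro b hb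
      exact hbase b hb
    | succ t ih =>
      intro b hb s hs
      have h1 : ∀ i, ∃ v : MvPolynomial (Fin (n + 1)) κ, v.IsHomogeneous (1 + b + e) ∧
          X i * s * U k₀ - v * Ψ k₀ ∈ I := by
        intro i
        have h2 : (X i * s).IsHomogeneous (1 + b) := (isHomogeneous_X κ i).mul hs
        obtain ⟨h, hh⟩ := ih (1 + b) (by omega) (X i * s) h2
        exact hL1 _ h _ h2 hh
      choose v hv hv' using h1
      have : IsDomain (MvPolynomial (Fin (n + 1)) κ ⧸ I) := Ideal.Quotient.isDomain I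
      refine aux (S := MvPolynomial (Fin (n + 1)) κ ⧸ I)
        (K := FractionRing (MvPolynomial (Fin (n + 1)) κ ⧸ I)) hN (Ideal.Quotient.mk I)
        Ideal.Quotient.mk_surjective (fun x => Ideal.Quotient.eq_zero_iff_mem) hX hk₀ hv' ?_
      intro i
      rw [← Set.image_univ, mem_ideal_span_X_image]
      intro α hα
      by_contra hcon
      push Not at hcon
      have h3 := deg_sum (hv i) hα
      rw [Finset.sum_eq_zero fun j _ => hcon j (Set.mem_univ _)] at h3
      omega
  obtain ⟨h, hh⟩ := hQ (∑ i, N i) 0 (by omega) 1 (isHomogeneous_one _ _)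
  obtain ⟨v, hv, hv'⟩ := hL1 1 h 0 (isHomogeneous_one _ _) hh
  rw [zero_add] at hv
  rw [one_mul] at hv'
  exact ⟨v, hv, hv'⟩

end Pool.Agent.Helper45M.AV

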