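import Pool.Agent.Helper45M.AV.NEAux
set_option autoImplicit false

/-!
EXACT (helper23): lifting of exactness from the residue field to the valuation ring.
-/

open MvPolynomial

namespace Pool.Agent.Helper45M.AV.EX

variable {O : Type} [CommRing O] {n : ℕ}

/-- The submodule of the `v` with `v_j Ψ_k - v_k Ψ_j` in `J`. -/
def Z (J : Ideal (MvPolynomial (Fin (n + 1)) O)) (Ψ : Fin (n + 1) → MvPolynomial (Fin (n + 1)) O)
    (d : ℕ) : Submodule O (Fin (n + 1) → MvPolynomial (Fin (n + 1)) O) where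
  carrier := {v | (∀ j, (v j).IsHomogeneous d) ∧ ∀ j k, v j * Ψ k - v k * Ψ j ∈ J}
  add_mem' := by
    rintro a b ⟨ha, ha'⟩ ⟨hb, hb'⟩
    refine ⟨fun j => (ha j).add (hb j), fun j k => ?_⟩
    have : (a + b) j * Ψ k - (a + b) k * Ψ j =
        (a j * Ψ k - a k * Ψ j) + (b j * Ψ k - b k * Ψ j) := by
      simp only [Pi.add_apply]; ring
    rw [this]
    exact J.add_mem (ha' j k) (hb' j k)
  zero_mem' := by
    refine ⟨fun j => isHomogeneous_zero _ _ _, fun j k => ?_⟩
    simp
  smul_mem' := by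
    rintro c v ⟨hv, hv'⟩
    refine ⟨fun j => ?_, fun j k => ?_⟩
    · rw [Pi.smul_apply, smul_eq_C_mul]
      have := (isHomogeneous_C (Fin (n + 1)) c).mul (hv j)
      rwa [zero_add] at this
    · have : (c • v) j * Ψ k - (c • v) k * Ψ j = C c * (v j * Ψ k - v k * Ψ j) := by
        simp only [Pi.smul_apply, smul_eq_C_mul]; ring
      rw [this]
      exact J.mul_mem_left _ (hv' j k)

/-- The submodule of the `v` of the form `φ Ψ` modulo `J`. -/
def N (J : Ideal (MvPolynomial (Fin (n + 1)) O)) (Ψ : Fin (n + 1) → MvPolynomial (Fin (n + 1)) O)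
    (d e : ℕ) : Submodule O (Fin (n + 1) → MvPolynomial (Fin (n + 1)) O) where
  carrier := {v | (∀ j, (v j).IsHomogeneous d) ∧ ∃ φ : MvPolynomial (Fin (n + 1)) O,
    φ.IsHomogeneous e ∧ ∀ j, v j - φ * Ψ j ∈ J}
  add_mem' := by
    rintro a b ⟨ha, φ, hφ, ha'⟩ ⟨hb, ψ, hψ, hb'⟩
    refine ⟨fun j => (ha j).add (hb j), φ + ψ, hφ.add hψ, fun j => ?_⟩
    have : (a + b) j - (φ + ψ) * Ψ j = (a j - φ * Ψ j) + (b j - ψ * Ψ j) := by
      simp only [Pi.add_apply]; ring
    rw [this]
    exact J.add_mem (ha' j) (hb' j)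
  zero_mem' := by
    refine ⟨fun j => isHomogeneous_zero _ _ _, 0, isHomogeneous_zero _ _ _, fun j => ?_⟩
    simp
  smul_mem' := by
    rintro c v ⟨hv, φ, hφ, hv'⟩
    refine ⟨fun j => ?_, C c * φ, ?_, fun j => ?_⟩
    · rw [Pi.smul_apply, smul_eq_C_mul]
      have := (isHomogeneous_C (Fin (n + 1)) c).mul (hv j)
      rwa [zero_add] at this
    · have := (isHomogeneous_C (Fin (n + 1)) c).mul hφ
      rwa [zero_add] at this
    · have : (c • v) j - C c * φ * Ψ j = C c * (v j - φ * Ψ j) := by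
        simp only [Pi.smul_apply, smul_eq_C_mul]; ring
      rw [this]
      exact J.mul_mem_left _ (hv' j)

end Pool.Agent.Helper45M.AV.EX

namespace Pool.Agent.Helper45M.AV

theorem t_EXACT : S_EXACT := by
  intro O _ _ _ n r e f P Ψ U hP hflat hΨ hres hU hUU
  set J := Ideal.span (Set.range P) with hJ
  let V : Submodule O (Fin (n + 1) → MvPolynomial (Fin (n + 1)) O) :=
    Submodule.pi Set.univ (fun _ => homogeneousSubmodule (Fin (n + 1)) O (e + f))
  have hVFG : V.FG := Submodule.fg_pi (fun _ => homogeneousSubmodule_fg _ _ _)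
  have hV : ∀ v, v ∈ V ↔ ∀ j, (v j).IsHomogeneous (e + f) := by
    intro v
    simp only [V, Submodule.mem_pi, Set.mem_univ, true_imp_iff, mem_homogeneousSubmodule]
  have hZV : EX.Z J Ψ (e + f) ≤ V := fun v hv => (hV v).2 hv.1
  obtain ⟨hfg, hsat⟩ := NE.sat V (EX.Z J Ψ (e + f)) hVFG hZV (by
    rintro b x hb hx ⟨-, hbx⟩
    refine ⟨(hV x).1 hx, fun j k => ?_⟩
    apply hflat b _ hb
    have : (b • x) j * Ψ k - (b • x) k * Ψ j = C b * (x j * Ψ k - x k * Ψ j) := by
      simp only [Pi.smul_apply, smul_eq_C_mul]; ring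
    rw [← this]
    exact hbx j k)
  have hNZ : EX.N J Ψ (e + f) e ≤ EX.Z J Ψ (e + f) := by
    rintro v ⟨hv, φ, hφ, hv'⟩
    refine ⟨hv, fun j k => ?_⟩
    have : v j * Ψ k - v k * Ψ j = Ψ k * (v j - φ * Ψ j) - Ψ j * (v k - φ * Ψ k) := by ring
    rw [this]
    exact J.sub_mem (J.mul_mem_left _ (hv' j)) (J.mul_mem_left _ (hv' k))
  have key : EX.Z J Ψ (e + f) ≤ EX.N J Ψ (e + f) e ⊔
      IsLocalRing.maximalIdeal O • EX.Z J Ψ (e + f) := by
    intro v hv
    obtain ⟨φ, hφ, hq⟩ := hres v hv.1 hv.2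
    choose q hqJ hqm using hq
    let m : Fin (n + 1) → MvPolynomial (Fin (n + 1)) O :=
      fun j => homogeneousComponent (e + f) (v j - φ * Ψ j - q j)
    have hm : ∀ j, m j = v j - φ * Ψ j - homogeneousComponent (e + f) (q j) := by
      intro j
      simp only [m, map_sub]
      rw [homogeneousComponent_of_mem (hv.1 j), homogeneousComponent_of_mem (hφ.mul (hΨ j))]
      simp
    have hmh : ∀ j, (m j).IsHomogeneous (e + f) := fun j => homogeneousComponent_isHomogeneous _ _
    have h1 : v - m ∈ EX.N J Ψ (e + f) e := by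
      refine ⟨fun j => (hv.1 j).sub (hmh j), φ, hφ, fun j => ?_⟩
      have : (v - m) j - φ * Ψ j = homogeneousComponent (e + f) (q j) := by
        rw [Pi.sub_apply, hm j]; ring
      rw [this]
      exact NE.comp_mem P hP (hqJ j) _
    have h2 : m ∈ EX.Z J Ψ (e + f) := by
      have : m = v - (v - m) := by simp
      rw [this]
      exact Submodule.sub_mem _ hv (hNZ h1)
    have h3 : m ∈ IsLocalRing.maximalIdeal O • V := by
      have : m = ∑ j, (LinearMap.single O (fun _ => MvPolynomial (Fin (n + 1)) O) j) (m j) := by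
        simp only [LinearMap.coe_single]
        exact (Finset.univ_sum_single m).symm
      rw [this]
      apply Submodule.sum_mem
      intro j _
      apply NE.mem_smul (IsLocalRing.maximalIdeal O) V _ (e + f) _ _ (hmh j)
      · intro α
        simp only [m]
        rw [coeff_homogeneousComponent]
        split_ifs
        · exact hqm j α
        · exact Submodule.zero_mem _
      · intro g hg
        rw [hV]
        intro i
        rw [LinearMap.single_apply]
        by_cases hij : i = j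
        · subst hij
          rw [Pi.single_eq_same]; exact hg
        · rw [Pi.single_eq_of_ne hij]; exact isHomogeneous_zero _ _ _
    have h4 := hsat _ m h2 h3
    rw [← sub_add_cancel v m]
    exact Submodule.add_mem_sup h1 h4
  have hle : EX.Z J Ψ (e + f) ≤ EX.N J Ψ (e + f) e :=
    Submodule.le_of_le_smul_of_le_jacobson_bot hfg
      (IsLocalRing.maximalIdeal_le_jacobson _) key
  obtain ⟨-, φ, hφ, h⟩ := hle (show U ∈ EX.Z J Ψ (e + f) from ⟨hU, hUU⟩)
  exact ⟨φ, hφ, h⟩

end Pool.Agent.Helper45M.AV
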