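import Pool.Agent.Helper45M.AV.Stm

/-!
# Piece LIFT of project AV (helper45)
-/

set_option autoImplicit false

open MvPolynomial

namespace Pool.Agent.Helper45M.AV

namespace LIFTP

theorem exists_mu {O κ : Type} [CommRing O] [Field κ] (ρ : O →+* κ)
    (hρ : ∀ a, ρ a ≠ 0 → IsUnit a) : ∃ μ : κ →+ κ, (∀ a x, μ (ρ a * x) = ρ a * μ x) ∧
      (∀ a, μ (ρ a) = ρ a) ∧ ∀ x, ∃ c, ρ c = μ x := by
  let k : Subfield κ :=
    { ρ.range with
      inv_mem' := by
        rintro x ⟨a, rfl⟩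
        by_cases h : ρ a = 0
        · exact ⟨0, by rw [h, inv_zero, map_zero]⟩
        · obtain ⟨u, rfl⟩ := hρ a h
          refine ⟨(u⁻¹ : Oˣ), ?_⟩
          rw [eq_comm, inv_eq_iff_eq_inv]
          apply eq_inv_of_mul_eq_one_left
          rw [← map_mul, Units.mul_inv, map_one] }
  obtain ⟨g, hg⟩ := LinearMap.exists_leftInverse_of_injective (Algebra.linearMap k κ) (by
    rw [LinearMap.ker_eq_bot]
    exact (algebraMap k κ).injective)
  have hg' : ∀ y : k, g (y : κ) = y := fun y => LinearMap.congr_fun hg y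
  refine ⟨⟨⟨fun x => (g x : κ), ?_⟩, ?_⟩, ?_, ?_, ?_⟩
  · rw [map_zero]; rfl
  · intro x y
    show ((g (x + y) : k) : κ) = (g x : κ) + (g y : κ)
    rw [map_add]; rfl
  · intro a x
    show ((g (ρ a * x) : k) : κ) = ρ a * (g x : κ)
    have h1 : ρ a * x = (⟨ρ a, ⟨a, rfl⟩⟩ : k) • x := rfl
    rw [h1, map_smul]
    rfl
  · intro a
    exact congrArg Subtype.val (hg' ⟨ρ a, ⟨a, rfl⟩⟩)
  · intro x
    exact (g x).2

section

variable {O κ : Type} [CommRing O] [Field κ] {ρ : O →+* κ} {μ : κ →+ κ} {σ : Type}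

/-- lifting the coefficients -/
theorem exists_lift (φ : (σ →₀ ℕ) → κ → κ) (hφ : ∀ α, φ α 0 = 0) (h : ∀ α x, ∃ c, ρ c = φ α x)
    (g : MvPolynomial σ κ) : ∃ g' : MvPolynomial σ O, (∀ α, ρ (coeff α g') = φ α (coeff α g)) ∧
      ∀ α, coeff α g = 0 → coeff α g' = 0 := by
  classical
  choose c hc using h
  refine ⟨∑ α ∈ g.support, monomial α (c α (coeff α g)), ?_, ?_⟩
  · intro α
    rw [coeff_sum]
    by_cases hα : α ∈ g.support
    · rw [Finset.sum_eq_single α]
      · rw [coeff_monomial, if_pos rfl, hc]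
      · intro β _ hβ
        rw [coeff_monomial, if_neg hβ]
      · intro h
        exact absurd hα h
    · rw [Finset.sum_eq_zero, map_zero, notMem_support_iff.1 hα, hφ]
      intro β hβ
      rw [coeff_monomial, if_neg]
      rintro rfl
      exact hα hβ
  · intro α hα
    rw [coeff_sum, Finset.sum_eq_zero]
    intro β hβ
    rw [coeff_monomial, if_neg]
    rintro rfl
    exact (mem_support_iff.1 hβ) hα

theorem mu_mul (h1 : ∀ a x, μ (ρ a * x) = ρ a * μ x) (s : MvPolynomial σ O) (g : MvPolynomial σ κ)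
    (g' : MvPolynomial σ O) (hg : ∀ α, ρ (coeff α g') = μ (coeff α g)) (α : σ →₀ ℕ) :
    ρ (coeff α (g' * s)) = μ (coeff α (g * map ρ s)) := by
  classical
  rw [coeff_mul, coeff_mul, map_sum, map_sum]
  refine Finset.sum_congr rfl fun x _ => ?_
  rw [map_mul, coeff_map, mul_comm (coeff x.1 g), h1, hg, mul_comm]

theorem key (h1 : ∀ a x, μ (ρ a * x) = ρ a * μ x) (h3 : ∀ x, ∃ c, ρ c = μ x)
    (S : Set (MvPolynomial σ O)) (g : MvPolynomial σ κ) (hg : g ∈ Ideal.span (map ρ '' S)) :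
    ∀ r : MvPolynomial σ κ, ∃ q ∈ Ideal.span S, ∀ α, ρ (coeff α q) = μ (coeff α (r * g)) := by
  induction hg using Submodule.span_induction with
  | mem x hx =>
    obtain ⟨s, hs, rfl⟩ := hx
    intro r
    obtain ⟨r', hr', -⟩ := exists_lift (ρ := ρ) (fun _ x => μ x) (fun _ => map_zero μ)
      (fun _ x => h3 x) r
    exact ⟨r' * s, Ideal.mul_mem_left _ _ (Ideal.subset_span hs), mu_mul h1 s r r' hr'⟩
  | zero =>
    intro r
    exact ⟨0, zero_mem _, fun α => by rw [mul_zero, coeff_zero, coeff_zero, map_zero, map_zero]⟩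
  | add x y _ _ hx hy =>
    intro r
    obtain ⟨q₁, a1, a2⟩ := hx r
    obtain ⟨q₂, b1, b2⟩ := hy r
    exact ⟨q₁ + q₂, add_mem a1 b1, fun α => by
      rw [mul_add, coeff_add, coeff_add, map_add, map_add, a2, b2]⟩
  | smul a x _ hx =>
    intro r
    obtain ⟨q, a1, a2⟩ := hx (r * a)
    exact ⟨q, a1, fun α => by rw [a2, smul_eq_mul, mul_assoc]⟩

theorem key1 (h1 : ∀ a x, μ (ρ a * x) = ρ a * μ x) (h3 : ∀ x, ∃ c, ρ c = μ x)
    (S : Set (MvPolynomial σ O)) (g : MvPolynomial σ κ) (hg : g ∈ Ideal.span (map ρ '' S)) :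
    ∃ q ∈ Ideal.span S, ∀ α, ρ (coeff α q) = μ (coeff α g) := by
  obtain ⟨q, a1, a2⟩ := key h1 h3 S g hg 1
  exact ⟨q, a1, fun α => by rw [a2, one_mul]⟩

theorem coeff_pow_p {p : ℕ} [Fact p.Prime] [CharP κ p] (g : MvPolynomial σ κ) (α : σ →₀ ℕ) :
    (∀ β, α = p • β → coeff α (g ^ p) = coeff β g ^ p) ∧
      ((¬ ∃ β, α = p • β) → coeff α (g ^ p) = 0) := by
  have hp : p.Prime := Fact.out
  rw [← map_frobenius_expand, coeff_map]
  constructor
  · rintro β rfl
    rw [coeff_expand_smul p hp.ne_zero]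
    rfl
  · intro h
    have h2 : ∃ i, ¬ p ∣ α i := by
      by_contra hcon
      push Not at hcon
      apply h
      refine ⟨α.mapRange (fun x => x / p) (by simp), ?_⟩
      ext i
      rw [Finsupp.smul_apply, Finsupp.mapRange_apply, smul_eq_mul, Nat.mul_div_cancel' (hcon i)]
    obtain ⟨i, hi⟩ := h2
    rw [coeff_expand_of_not_dvd _ hi, map_zero]

end

end LIFTP

open LIFTP in
theorem t_LIFT : S_LIFT := by
  classical
  intro p _ O κ _ _ _ ρ hρ n
  have hp : p.Prime := Fact.out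
  obtain ⟨μ, h1, h2, h3⟩ := exists_mu ρ hρ
  refine ⟨?_, ?_, ?_⟩
  · intro S f hf
    obtain ⟨q, hq, hq'⟩ := key1 h1 h3 S _ hf
    refine ⟨q, hq, fun α => ?_⟩
    rw [coeff_sub, map_sub, hq', coeff_map, h2, sub_self]
  · intro S e V Ψ φ hφ hV
    obtain ⟨φ', hφ', hφ0⟩ := exists_lift (ρ := ρ) (fun _ x => μ x) (fun _ => map_zero μ)
      (fun _ x => h3 x) φ
    refine ⟨φ', ?_, fun j => ?_⟩
    · intro α hα
      exact hφ fun h => hα (hφ0 α h)
    · obtain ⟨q, hq, hq'⟩ := key1 h1 h3 S _ (hV j)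
      refine ⟨q, hq, fun α => ?_⟩
      rw [coeff_sub, coeff_sub, map_sub, map_sub, hq', coeff_sub, map_sub, coeff_map, h2,
        mu_mul h1 (Ψ j) φ φ' hφ', sub_self]
  · intro hroot S f g hg
    obtain ⟨g', hg', -⟩ := exists_lift (ρ := ρ)
      (fun _ x => if x = 0 then 0 else if h : ∃ b, ρ (b ^ p) = μ (x ^ p) then ρ h.choose else 0)
      (fun _ => if_pos rfl) (fun _ x => by
        by_cases hx : x = 0
        · exact ⟨0, by rw [if_pos hx, map_zero]⟩
        · rw [if_neg hx]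
          by_cases h : ∃ b, ρ (b ^ p) = μ (x ^ p)
          · exact ⟨h.choose, by rw [dif_pos h]⟩
          · exact ⟨0, by rw [dif_neg h, map_zero]⟩) g
    have hg'' : ∀ α, ρ (coeff α g') ^ p = μ (coeff α g ^ p) := by
      intro α
      rw [hg']
      by_cases hx : coeff α g = 0
      · rw [if_pos hx, hx, zero_pow hp.ne_zero, map_zero]
      · rw [if_neg hx]
        have h : ∃ b, ρ (b ^ p) = μ (coeff α g ^ p) := by
          obtain ⟨c, hc⟩ := h3 (coeff α g ^ p)
          obtain ⟨b, hb⟩ := hroot c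
          exact ⟨b, hb.trans hc⟩
        rw [dif_pos h, ← map_pow]
        exact h.choose_spec
    have hpow : ∀ α, ρ (coeff α (g' ^ p)) = μ (coeff α (g ^ p)) := by
      intro α
      rw [← coeff_map, map_pow]
      by_cases h : ∃ β, α = p • β
      · obtain ⟨β, hβ⟩ := h
        rw [(coeff_pow_p _ α).1 β hβ, (coeff_pow_p _ α).1 β hβ, coeff_map, hg'']
      · rw [(coeff_pow_p _ α).2 h, (coeff_pow_p _ α).2 h, map_zero]
    obtain ⟨q, hq, hq'⟩ := key1 h1 h3 S _ hg
    refine ⟨g', q, hq, fun α => ?_⟩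
    rw [coeff_sub, coeff_sub, map_sub, map_sub, hq', coeff_sub, map_sub, coeff_map, h2, hpow,
      sub_self]

end Pool.Agent.Helper45M.AV

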