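import Pool.Agent.Helper45M.AV.Stm

/-!
# Piece MULT (helper70)
-/

set_option autoImplicit false

open MvPolynomial

namespace Pool.Agent.Helper45M.AV

namespace MULT

variable {O : Type} [CommRing O] {n r : ℕ}

lemma eval_aeval {k : Type} [Field k] (φ : O →+* k) (x : Fin (n + 1) → k)
    (Φ : Fin (n + 1) → MvPolynomial (Fin (n + 1)) O)
    (q : MvPolynomial (Fin (n + 1) ⊕ Fin (n + 1)) O) :
    eval₂ φ x (aeval (Sum.elim Φ X) q) = eval₂ φ (Sum.elim (fun i => eval₂ φ x (Φ i)) x) q := by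
  have h1 : eval₂ φ x (aeval (Sum.elim Φ X) q) = (eval₂Hom φ x) (aeval (Sum.elim Φ X) q) := rfl
  rw [h1, aeval_def, eval₂_comp_left]
  have h2 : (eval₂Hom φ x).comp (algebraMap O (MvPolynomial (Fin (n + 1)) O)) = φ := by
    ext a
    rw [RingHom.comp_apply, algebraMap_eq, coe_eval₂Hom, eval₂_C]
  have h3 : (eval₂Hom φ x : MvPolynomial (Fin (n + 1)) O → k) ∘ Sum.elim Φ X =
      Sum.elim (fun i => eval₂ φ x (Φ i)) x := by
    funext i
    rcases i with i | i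
    · rfl
    · change eval₂ φ x (X i) = x i
      rw [eval₂_X]
  rw [h2, h3]

/-- elements of the ideal vanish at the points -/
lemma eval_ideal {k : Type} [Field k] (φ : O →+* k) {P : Fin r → MvPolynomial (Fin (n + 1)) O}
    {x : Fin (n + 1) → k} (hx : x ∈ pts φ P) {f : MvPolynomial (Fin (n + 1)) O}
    (hf : f ∈ Ideal.span (Set.range P)) : eval₂ φ x f = 0 := by
  have h : Ideal.span (Set.range P) ≤ RingHom.ker (eval₂Hom φ x) := by
    rw [Ideal.span_le]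
    rintro _ ⟨l, rfl⟩
    exact hx l
  exact h hf

lemma eval_smul {k : Type} [Field k] (φ : O →+* k) {f : MvPolynomial (Fin (n + 1)) O} {D : ℕ}
    (hf : f.IsHomogeneous D) (c : k) (x : Fin (n + 1) → k) :
    eval₂ φ (c • x) f = c ^ D * eval₂ φ x f := by
  rw [eval₂_eq', eval₂_eq', Finset.mul_sum]
  refine Finset.sum_congr rfl fun u hu => ?_
  have h1 : u.degree = D := by
    have := hf (mem_support_iff.1 hu)
    rwa [Finsupp.degree_eq_weight_one]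
  have h2 : ∏ i, (c • x) i ^ u i = c ^ D * ∏ i, x i ^ u i := by
    rw [← h1, Finsupp.degree_eq_sum, ← Finset.prod_pow_eq_pow_sum, ← Finset.prod_mul_distrib]
    refine Finset.prod_congr rfl fun i _ => ?_
    rw [Pi.smul_apply, smul_eq_mul, mul_pow]
  rw [h2]
  ring

lemma eval_zero {k : Type} [Field k] (φ : O →+* k) {f : MvPolynomial (Fin (n + 1)) O} {D : ℕ}
    (hf : f.IsHomogeneous D) (hD : 0 < D) : eval₂ φ (0 : Fin (n + 1) → k) f = 0 := by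
  have h := eval_smul φ hf 0 0
  rwa [smul_zero, zero_pow hD.ne', zero_mul] at h

lemma pts_smul {k : Type} [Field k] (φ : O →+* k) {P : Fin r → MvPolynomial (Fin (n + 1)) O}
    (hP : ∀ l, ∃ D, 0 < D ∧ (P l).IsHomogeneous D) {x : Fin (n + 1) → k} (hx : x ∈ pts φ P)
    (c : k) : c • x ∈ pts φ P := by
  intro l
  obtain ⟨D, -, hD⟩ := hP l
  rw [eval_smul φ hD, hx l, mul_zero]

/-- homogeneity of the substituted polynomials -/
lemma hom_U {A : Fin (n + 1) → Fin (n + 1) → MvPolynomial (Fin (n + 1) ⊕ Fin (n + 1)) O}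
    (hA : IsBihom A) {Φ : Fin (n + 1) → MvPolynomial (Fin (n + 1)) O} {d : ℕ}
    (hΦ : ∀ i, (Φ i).IsHomogeneous d) (i j : Fin (n + 1)) :
    (aeval (Sum.elim Φ X) (A i j)).IsHomogeneous (d * 2 + 2) := by
  rw [aeval_def, eval₂_eq']
  refine IsHomogeneous.sum _ _ _ fun u hu => ?_
  have h1 := (hA i j).1 (mem_support_iff.1 hu)
  have h2 := (hA i j).2 (mem_support_iff.1 hu)
  rw [Finsupp.weight_apply, Finsupp.sum_fintype _ _ (by intro i; exact zero_smul _ _),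
    Fintype.sum_sum_type] at h1
  rw [Finsupp.weight_apply, Finsupp.sum_fintype _ _ (by intro i; exact zero_smul _ _),
    Fintype.sum_sum_type] at h2
  simp only [Sum.elim_inl, Sum.elim_inr, smul_eq_mul, mul_one, mul_zero, Finset.sum_const_zero,
    add_zero, zero_add] at h1 h2
  rw [Fintype.prod_sum_type, algebraMap_eq]
  simp only [Sum.elim_inl, Sum.elim_inr]
  have h3 : (∏ x, Φ x ^ u (Sum.inl x)).IsHomogeneous (∑ x, d * u (Sum.inl x)) :=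
    IsHomogeneous.prod _ _ _ fun x _ => (hΦ x).pow _
  have h4 : (∏ x, X x ^ u (Sum.inr x) : MvPolynomial (Fin (n + 1)) O).IsHomogeneous
      (∑ x, 1 * u (Sum.inr x)) := IsHomogeneous.prod _ _ _ fun x _ => (isHomogeneous_X _ x).pow _
  rw [← Finset.mul_sum, h1] at h3
  simp only [one_mul] at h4
  rw [h2] at h4
  have h5 := (isHomogeneous_C (Fin (n + 1)) (coeff u (A i j))).mul (h3.mul h4)
  rwa [zero_add] at h5

/-- the invariant over a field -/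
def Good {k Γ : Type} [Field k] [AddCommGroup Γ] (φ : O →+* k)
    (P : Fin r → MvPolynomial (Fin (n + 1)) O) (π : (Fin (n + 1) → k) → Γ) (m : ℕ)
    (Φ : Fin (n + 1) → MvPolynomial (Fin (n + 1)) O) : Prop :=
  ∀ x ∈ pts φ P, x ≠ 0 → (fun i => eval₂ φ x (Φ i)) ∈ pts φ P ∧ (fun i => eval₂ φ x (Φ i)) ≠ 0 ∧
    π (fun i => eval₂ φ x (Φ i)) = m • π x

section

variable {k Γ : Type} [Field k] [AddCommGroup Γ] {φ : O →+* k}
  {P : Fin r → MvPolynomial (Fin (n + 1)) O}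
  {A : Fin (n + 1) → Fin (n + 1) → MvPolynomial (Fin (n + 1) ⊕ Fin (n + 1)) O}
  {π : (Fin (n + 1) → k) → Γ}

/-- the values at a point -/
lemma vals (hπ : ∀ x ∈ pts φ P, ∀ y ∈ pts φ P, x ≠ 0 → y ≠ 0 → (π x = π y ↔ ∃ c : k, y = c • x))
    (hs : ∀ x ∈ pts φ P, ∀ y ∈ pts φ P, x ≠ 0 → y ≠ 0 → ∃ s ∈ pts φ P, ∃ d ∈ pts φ P,
      s ≠ 0 ∧ d ≠ 0 ∧ π s = π x + π y ∧ π d = π x - π y ∧
        ∀ i j, eval₂ φ (Sum.elim x y) (A i j) = s i * d j) {m : ℕ}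
    {Φ₀ Φ₁ : Fin (n + 1) → MvPolynomial (Fin (n + 1)) O} (h0 : Good φ P π m Φ₀)
    (h1 : Good φ P π (m + 1) Φ₁) {x : Fin (n + 1) → k} (hx : x ∈ pts φ P) (hx0 : x ≠ 0) :
    ∃ s ∈ pts φ P, s ≠ 0 ∧ π s = (m + 2) • π x ∧ ∃ c : k, c ≠ 0 ∧
      ∀ i j, eval₂ φ x (aeval (Sum.elim Φ₁ X) (A i j)) = c * s i * eval₂ φ x (Φ₀ j) := by
  obtain ⟨a1, a2, a3⟩ := h0 x hx hx0
  obtain ⟨b1, b2, b3⟩ := h1 x hx hx0
  obtain ⟨s, s1, d, d1, s2, d2, s3, d3, e⟩ := hs _ b1 x hx b2 hx0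
  have h2 : π (fun i => eval₂ φ x (Φ₀ i)) = π d := by
    rw [a3, d3, b3, add_smul, one_smul, add_sub_cancel_right]
  obtain ⟨c, hc⟩ := (hπ _ a1 d d1 a2 d2).1 h2
  have hc0 : c ≠ 0 := by
    rintro rfl
    rw [zero_smul] at hc
    exact d2 hc
  refine ⟨s, s1, s2, ?_, c, hc0, fun i j => ?_⟩
  · rw [s3, b3, add_smul, add_smul, one_smul, two_smul]
    abel
  · rw [eval_aeval, e, hc, Pi.smul_apply, smul_eq_mul]
    ring

lemma step (hP : ∀ l, ∃ D, 0 < D ∧ (P l).IsHomogeneous D)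
    (hπ : ∀ x ∈ pts φ P, ∀ y ∈ pts φ P, x ≠ 0 → y ≠ 0 → (π x = π y ↔ ∃ c : k, y = c • x))
    (hs : ∀ x ∈ pts φ P, ∀ y ∈ pts φ P, x ≠ 0 → y ≠ 0 → ∃ s ∈ pts φ P, ∃ d ∈ pts φ P,
      s ≠ 0 ∧ d ≠ 0 ∧ π s = π x + π y ∧ π d = π x - π y ∧
        ∀ i j, eval₂ φ (Sum.elim x y) (A i j) = s i * d j) {m : ℕ}
    {Φ₀ Φ₁ Φ₂ : Fin (n + 1) → MvPolynomial (Fin (n + 1)) O} (h0 : Good φ P π m Φ₀)
    (h1 : Good φ P π (m + 1) Φ₁)
    (h2 : ∀ i j, aeval (Sum.elim Φ₁ X) (A i j) - Φ₂ i * Φ₀ j ∈ Ideal.span (Set.range P)) :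
    Good φ P π (m + 2) Φ₂ := by
  intro x hx hx0
  obtain ⟨s, s1, s2, s3, c, hc, e⟩ := vals hπ hs h0 h1 hx hx0
  obtain ⟨a1, a2, a3⟩ := h0 x hx hx0
  have h3 : (fun i => eval₂ φ x (Φ₂ i)) = c • s := by
    funext i
    obtain ⟨j, hj⟩ : ∃ j, eval₂ φ x (Φ₀ j) ≠ 0 := by
      by_contra hcon
      push Not at hcon
      exact a2 (funext hcon)
    have h4 := eval_ideal φ hx (h2 i j)
    rw [eval₂_sub, eval₂_mul, e] at h4
    have h5 : eval₂ φ x (Φ₀ j) * (eval₂ φ x (Φ₂ i) - c * s i) = 0 := by linear_combination -h4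
    rcases mul_eq_zero.1 h5 with h6 | h6
    · exact absurd h6 hj
    · rw [Pi.smul_apply, smul_eq_mul]
      linear_combination h6
  rw [h3]
  have h4 : c • s ∈ pts φ P := pts_smul φ hP s1 c
  have h5 : c • s ≠ 0 := smul_ne_zero hc s2
  exact ⟨h4, h5, ((hπ s s1 _ h4 s2 h5).2 ⟨c, rfl⟩).symm.trans s3⟩

end

end MULT

open MULT in
theorem t_MULT : S_MULT := by
  classical
  intro O L κ _ _ _ ι ρ n r P A o hP hA hL hκ hN hE
  obtain ⟨o1, o2, Γ, _, π, π0, hπ, hs⟩ := hL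
  obtain ⟨o1', o2', Γ', _, π', π0', hπ', hs'⟩ := hκ
  let Inv : ℕ → (Fin (n + 1) → MvPolynomial (Fin (n + 1)) O) → Prop := fun m Φ =>
    (∀ i, (Φ i).IsHomogeneous (m ^ 2)) ∧ Good ι P π m Φ ∧ Good ρ P π' m Φ
  have hstep : ∀ (m : ℕ) (Φ₀ Φ₁ : Fin (n + 1) → MvPolynomial (Fin (n + 1)) O), Inv m Φ₀ →
      Inv (m + 1) Φ₁ → ∃ Φ₂, Inv (m + 2) Φ₂ ∧
        ∀ i j, aeval (Sum.elim Φ₁ X) (A i j) - Φ₂ i * Φ₀ j ∈ Ideal.span (Set.range P) := by
    rintro m Φ₀ Φ₁ ⟨a1, a2, a3⟩ ⟨b1, b2, b3⟩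
    have hU : ∀ i j, (aeval (Sum.elim Φ₁ X) (A i j)).IsHomogeneous ((m + 2) ^ 2 + m ^ 2) := by
      intro i j
      have := hom_U hA b1 i j
      have e : (m + 1) ^ 2 * 2 + 2 = (m + 2) ^ 2 + m ^ 2 := by ring
      rwa [e] at this
    have h1 : ∀ i, ∃ φ : MvPolynomial (Fin (n + 1)) O, φ.IsHomogeneous ((m + 2) ^ 2) ∧
        ∀ j, aeval (Sum.elim Φ₁ X) (A i j) - φ * Φ₀ j ∈ Ideal.span (Set.range P) := by
      intro i
      refine hE ((m + 2) ^ 2) (m ^ 2) Φ₀ (fun j => aeval (Sum.elim Φ₁ X) (A i j)) a1 (hU i) ?_ ?_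
      · intro x hx h
        by_contra hx0
        exact (a3 x hx hx0).2.1 (funext h)
      · intro j j'
        have hh : (aeval (Sum.elim Φ₁ X) (A i j) * Φ₀ j' -
            aeval (Sum.elim Φ₁ X) (A i j') * Φ₀ j).IsHomogeneous ((m + 2) ^ 2 + m ^ 2 + m ^ 2) :=
          ((hU i j).mul (a1 j')).sub ((hU i j').mul (a1 j))
        refine hN _ _ hh fun x hx => ?_
        by_cases hx0 : x = 0
        · rw [hx0]
          exact eval_zero ι hh (by positivity)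
        · obtain ⟨s, -, -, -, c, -, e⟩ := vals hπ hs a2 b2 hx hx0
          rw [eval₂_sub, eval₂_mul, eval₂_mul, e, e]
          ring
    choose Φ₂ c1 c2 using h1
    exact ⟨Φ₂, ⟨c1, step hP hπ hs a2 b2 c2, step hP hπ' hs' a3 b3 c2⟩, c2⟩
  let nx : ℕ → (Fin (n + 1) → MvPolynomial (Fin (n + 1)) O) →
      (Fin (n + 1) → MvPolynomial (Fin (n + 1)) O) → (Fin (n + 1) → MvPolynomial (Fin (n + 1)) O) :=
    fun m Φ₀ Φ₁ => if h : ∃ Φ₂, Inv (m + 2) Φ₂ ∧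
        ∀ i j, aeval (Sum.elim Φ₁ X) (A i j) - Φ₂ i * Φ₀ j ∈ Ideal.span (Set.range P)
      then h.choose else Φ₀
  have hnx : ∀ m Φ₀ Φ₁, Inv m Φ₀ → Inv (m + 1) Φ₁ → Inv (m + 2) (nx m Φ₀ Φ₁) ∧
      ∀ i j, aeval (Sum.elim Φ₁ X) (A i j) - nx m Φ₀ Φ₁ i * Φ₀ j ∈ Ideal.span (Set.range P) := by
    intro m Φ₀ Φ₁ h0 h1
    have h := hstep m Φ₀ Φ₁ h0 h1
    simp only [nx]
    rw [dif_pos h]
    exact h.choose_spec
  let sq : ℕ → (Fin (n + 1) → MvPolynomial (Fin (n + 1)) O) ×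
      (Fin (n + 1) → MvPolynomial (Fin (n + 1)) O) := fun m =>
    Nat.rec ((fun i => C (o i)), X) (fun m p => (p.2, nx m p.1 p.2)) m
  have hsq : ∀ m, Inv m (sq m).1 ∧ Inv (m + 1) (sq m).2 := by
    intro m
    induction m with
    | zero =>
      refine ⟨⟨fun i => ?_, fun x hx hx0 => ?_, fun x hx hx0 => ?_⟩,
        ⟨fun i => ?_, fun x hx hx0 => ?_, fun x hx hx0 => ?_⟩⟩
      · exact isHomogeneous_C _ _
      · have e : (fun i => eval₂ ι x ((sq 0).1 i)) = fun i => ι (o i) := by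
          funext i
          exact eval₂_C _ _ _
        rw [e, zero_smul]
        exact ⟨o1, o2, π0⟩
      · have e : (fun i => eval₂ ρ x ((sq 0).1 i)) = fun i => ρ (o i) := by
          funext i
          exact eval₂_C _ _ _
        rw [e, zero_smul]
        exact ⟨o1', o2', π0'⟩
      · exact isHomogeneous_X _ _
      · have e : (fun i => eval₂ ι x ((sq 0).2 i)) = x := by
          funext i
          exact eval₂_X _ _ _
        rw [e, zero_add, one_smul]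
        exact ⟨hx, hx0, rfl⟩
      · have e : (fun i => eval₂ ρ x ((sq 0).2 i)) = x := by
          funext i
          exact eval₂_X _ _ _
        rw [e, zero_add, one_smul]
        exact ⟨hx, hx0, rfl⟩
    | succ m ih => exact ⟨ih.2, (hnx m _ _ ih.1 ih.2).1⟩
  refine ⟨fun m => (sq m).1, ⟨fun m i => (hsq m).1.1 i, fun _ => rfl, fun _ => rfl,
    fun m i j => (hnx m _ _ (hsq m).1 (hsq m).2).2 i j, fun m x hx hx0 => ?_, fun m x hx hx0 => ?_⟩⟩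
  · obtain ⟨h1, h2, -⟩ := (hsq m).1.2.1 x hx hx0
    exact ⟨h1, h2⟩
  · obtain ⟨h1, h2, -⟩ := (hsq m).1.2.2 x hx hx0
    exact ⟨h1, h2⟩

end Pool.Agent.Helper45M.AV
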