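import Pool.Agent.Helper45M.AV.NEAux
set_option autoImplicit false

/-!
NULLC (helper23): forms over `O` which vanish at the points over `L` are in `(P)`.
-/

open MvPolynomial

namespace Pool.Agent.Helper45M.AV.NC

/-- Nullstellensatz over the fraction field, denominators cleared. -/
theorem pow_mem {O L : Type} [CommRing O] [IsDomain O] [Field L]
    [IsAlgClosed L] (ι : O →+* L) (n r : ℕ) (P : Fin r → MvPolynomial (Fin (n + 1)) O)
    (f : MvPolynomial (Fin (n + 1)) O) (hι : Function.Injective ι)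
    (hf : ∀ x ∈ pts ι P, eval₂ ι x f = 0) :
    ∃ (b : O) (N : ℕ), b ≠ 0 ∧ C b * f ^ N ∈ Ideal.span (Set.range P) := by
  let F := FractionRing O
  let j : F →+* L := IsFractionRing.lift hι
  letI : Algebra F L := j.toAlgebra
  have hj : ∀ p : MvPolynomial (Fin (n + 1)) O, ∀ x : Fin (n + 1) → L,
      aeval x (MvPolynomial.map (algebraMap O F) p) = eval₂ ι x p := by
    intro p x
    rw [aeval_def, eval₂_map]
    congr 1
    ext y
    exact IsFractionRing.lift_algebraMap hι y
  let JF : Ideal (MvPolynomial (Fin (n + 1)) F) :=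
    (Ideal.span (Set.range P)).map (MvPolynomial.map (algebraMap O F))
  have h1 : MvPolynomial.map (algebraMap O F) f ∈ JF.radical := by
    rw [← vanishingIdeal_zeroLocus_eq_radical (K := L)]
    intro x hx
    rw [hj]
    apply hf
    intro l
    rw [← hj]
    apply hx
    exact Ideal.mem_map_of_mem _ (Ideal.subset_span ⟨l, rfl⟩)
  obtain ⟨N, hN⟩ := h1
  letI := algebraMvPolynomial (σ := Fin (n + 1)) (R := O) (S := F)
  have h2 := (IsLocalization.mem_map_algebraMap_iff
    ((nonZeroDivisors O).map (C (σ := Fin (n + 1)))) (MvPolynomial (Fin (n + 1)) F)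
    (I := Ideal.span (Set.range P)) (z := MvPolynomial.map (algebraMap O F) f ^ N)).1 hN
  obtain ⟨⟨⟨g, hg⟩, ⟨_, ⟨b, hb, rfl⟩⟩⟩, h3⟩ := h2
  refine ⟨b, N, nonZeroDivisors.ne_zero hb, ?_⟩
  have h4 : MvPolynomial.map (algebraMap O F) (C b * f ^ N) = MvPolynomial.map (algebraMap O F) g := by
    rw [map_mul, map_pow, mul_comm]
    exact h3
  rw [MvPolynomial.map_injective _ (IsFractionRing.injective O F) h4]
  exact hg

/-- In a valuation ring one of finitely many elements divides the other ones. -/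
theorem exists_dvd {O ι : Type} [CommRing O] [IsDomain O] [ValuationRing O] (c : ι → O)
    (s : Finset ι) : (∃ i ∈ s, c i ≠ 0) → ∃ i ∈ s, c i ≠ 0 ∧ ∀ k ∈ s, c i ∣ c k := by
  classical
  induction s using Finset.induction_on with
  | empty => rintro ⟨i, hi, -⟩; simp at hi
  | insert a s ha ih =>
    intro h
    by_cases h1 : ∃ i ∈ s, c i ≠ 0
    · obtain ⟨i, hi, hi0, hi2⟩ := ih h1
      rcases ValuationRing.dvd_total (c i) (c a) with h2 | h2
      · refine ⟨i, Finset.mem_insert_of_mem hi, hi0, fun k hk => ?_⟩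
        rcases Finset.mem_insert.1 hk with rfl | hk
        · exact h2
        · exact hi2 k hk
      · refine ⟨a, Finset.mem_insert_self _ _, ?_, fun k hk => ?_⟩
        · intro h3
          rw [h3, zero_dvd_iff] at h2
          exact hi0 h2
        · rcases Finset.mem_insert.1 hk with rfl | hk
          · exact dvd_rfl
          · exact h2.trans (hi2 k hk)
    · have h4 : ∀ i ∈ s, c i = 0 := by
        intro i hi
        by_contra h5
        exact h1 ⟨i, hi, h5⟩
      obtain ⟨i, hi, hi0⟩ := h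
      rcases Finset.mem_insert.1 hi with rfl | hi
      · refine ⟨i, Finset.mem_insert_self _ _, hi0, fun k hk => ?_⟩
        rcases Finset.mem_insert.1 hk with rfl | hk
        · exact dvd_rfl
        · rw [h4 k hk]; exact dvd_zero _
      · exact absurd (h4 i hi) hi0

end Pool.Agent.Helper45M.AV.NC

namespace Pool.Agent.Helper45M.AV

theorem t_NULLC : S_NULLC := by
  intro O L _ _ _ _ _ ι n r a P f hι hP hflat hred hf hfx
  obtain ⟨b, N, hb, hbN⟩ := NC.pow_mem ι n r P f hι hfx
  have hfN : f ^ N ∈ Ideal.span (Set.range P) := hflat b _ hb hbN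
  set J := Ideal.span (Set.range P) with hJ
  let V : Submodule O (MvPolynomial (Fin (n + 1)) O) := homogeneousSubmodule (Fin (n + 1)) O a
  have hVFG : V.FG := homogeneousSubmodule_fg _ _ _
  haveI : Module.Finite O V := Module.Finite.iff_fg.2 hVFG
  let Z' : Submodule O V := (J.restrictScalars O).comap V.subtype
  have hZ' : ∀ v : V, v ∈ Z' ↔ (v : MvPolynomial (Fin (n + 1)) O) ∈ J := fun v => Iff.rfl
  haveI : Module.Free O (V ⧸ Z') := by
    apply NE.free_of_tf
    intro b x hb hx
    obtain ⟨y, rfl⟩ := Z'.mkQ_surjective x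
    rw [← map_smul, Submodule.mkQ_apply, Submodule.Quotient.mk_eq_zero] at hx
    rw [Submodule.mkQ_apply, Submodule.Quotient.mk_eq_zero]
    apply hflat b y hb
    rw [← smul_eq_C_mul]
    exact hx
  let B := Module.Free.chooseBasis O (V ⧸ Z')
  by_contra hcon
  have hf0 : Z'.mkQ ⟨f, hf⟩ ≠ 0 := by
    rw [Submodule.mkQ_apply, ne_eq, Submodule.Quotient.mk_eq_zero, hZ']
    exact hcon
  -- a coordinate which divides the other ones
  have hne : ∃ i, B.repr (Z'.mkQ ⟨f, hf⟩) i ≠ 0 := by
    by_contra h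
    apply hf0
    apply B.repr.injective
    ext i
    rw [map_zero, Finsupp.zero_apply]
    by_contra h2
    exact h ⟨i, h2⟩
  obtain ⟨i₀, -, hi₀, hdiv⟩ := NC.exists_dvd (fun i => B.repr (Z'.mkQ ⟨f, hf⟩) i) Finset.univ
    (by obtain ⟨i, hi⟩ := hne; exact ⟨i, Finset.mem_univ _, hi⟩)
  set c := B.repr (Z'.mkQ ⟨f, hf⟩) i₀ with hc
  have hdiv' : ∀ i, ∃ d, B.repr (Z'.mkQ ⟨f, hf⟩) i = c * d := fun i => hdiv i (Finset.mem_univ _)
  choose d hd using hdiv'
  have hdi₀ : d i₀ = 1 := by
    have h1 := hd i₀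
    rw [← hc] at h1
    have h2 : c * (d i₀ - 1) = 0 := by rw [mul_sub, ← h1]; ring
    rcases mul_eq_zero.1 h2 with h3 | h3
    · exact absurd h3 hi₀
    · exact sub_eq_zero.1 h3
  obtain ⟨w, hw⟩ := Z'.mkQ_surjective (∑ i, d i • B i)
  have hwr : ∀ i, B.repr (Z'.mkQ w) i = d i := by
    intro i
    rw [hw, Module.Basis.repr_sum_self]
  have hfw : Z'.mkQ ⟨f, hf⟩ = c • Z'.mkQ w := by
    apply B.repr.injective
    ext i
    rw [hd i, map_smul, Finsupp.smul_apply, hwr, smul_eq_mul]
  have hfw2 : f - C c * (w : MvPolynomial (Fin (n + 1)) O) ∈ J := by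
    have h1 : Z'.mkQ (⟨f, hf⟩ - c • w) = 0 := by
      rw [map_sub, map_smul, hfw, sub_self]
    rw [Submodule.mkQ_apply, Submodule.Quotient.mk_eq_zero, hZ'] at h1
    rw [← smul_eq_C_mul]
    exact h1
  have hwN : (w : MvPolynomial (Fin (n + 1)) O) ^ N ∈ J := by
    apply hflat (c ^ N) _ (pow_ne_zero _ hi₀)
    have h1 : f ^ N - (C c * (w : MvPolynomial (Fin (n + 1)) O)) ^ N ∈ J :=
      J.mem_of_dvd (sub_dvd_pow_sub_pow _ _ _) hfw2
    have h2 := J.sub_mem hfN h1
    rw [sub_sub_cancel, mul_pow, ← map_pow] at h2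
    exact h2
  obtain ⟨q, hq, hqm⟩ := hred w N ⟨_, hwN, fun α => by
    rw [sub_self, coeff_zero]; exact Submodule.zero_mem _⟩
  have hwh : (w : MvPolynomial (Fin (n + 1)) O).IsHomogeneous a := w.2
  have hqh : (homogeneousComponent a q).IsHomogeneous a := homogeneousComponent_isHomogeneous _ _
  let φ : MvPolynomial (Fin (n + 1)) O →ₗ[O] O :=
    (B.coord i₀ ∘ₗ Z'.mkQ) ∘ₗ
      (LinearMap.codRestrict V (homogeneousComponent a) (fun g => homogeneousComponent_mem _ _))
  have hφ : ∀ v : V, φ v = B.repr (Z'.mkQ v) i₀ := by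
    intro v
    have h1 : (LinearMap.codRestrict V (homogeneousComponent a)
        (fun g => homogeneousComponent_mem _ _)) (v : MvPolynomial (Fin (n + 1)) O) = v := by
      apply Subtype.ext
      rw [LinearMap.codRestrict_apply]
      rw [homogeneousComponent_of_mem (show (v : MvPolynomial (Fin (n + 1)) O) ∈
        homogeneousSubmodule (Fin (n + 1)) O a from v.2)]
      simp
    change (B.coord i₀) (Z'.mkQ ((LinearMap.codRestrict V (homogeneousComponent a)
        (fun g => homogeneousComponent_mem _ _)) (v : MvPolynomial (Fin (n + 1)) O))) = _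
    rw [h1, Module.Basis.coord_apply]
  have h5 : φ ((w : MvPolynomial (Fin (n + 1)) O) - homogeneousComponent a q) ∈
      IsLocalRing.maximalIdeal O • (⊤ : Submodule O O) := by
    apply NE.mem_smul (IsLocalRing.maximalIdeal O) ⊤ φ a (fun _ _ => Submodule.mem_top) _ (hwh.sub hqh)
    intro α
    have h6 : (w : MvPolynomial (Fin (n + 1)) O) - homogeneousComponent a q =
        homogeneousComponent a ((w : MvPolynomial (Fin (n + 1)) O) - q) := by
      rw [map_sub, homogeneousComponent_of_mem (show (w : MvPolynomial (Fin (n + 1)) O) ∈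
        homogeneousSubmodule (Fin (n + 1)) O a from w.2)]
      simp
    rw [h6, coeff_homogeneousComponent]
    split_ifs
    · exact hqm α
    · exact Submodule.zero_mem _
  have h7 : φ ((w : MvPolynomial (Fin (n + 1)) O) - homogeneousComponent a q) = 1 := by
    have h8 := hφ (w - ⟨homogeneousComponent a q, homogeneousComponent_mem _ _⟩)
    have h9 : Z'.mkQ ⟨homogeneousComponent a q, homogeneousComponent_mem _ _⟩ = 0 := by
      rw [Submodule.mkQ_apply, Submodule.Quotient.mk_eq_zero, hZ']
      exact NE.comp_mem P hP hq a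
    rw [map_sub, h9, sub_zero, hwr, hdi₀] at h8
    exact h8
  rw [h7, smul_eq_mul, Ideal.mul_top] at h5
  exact (Ideal.ne_top_iff_one _).1 (IsLocalRing.maximalIdeal.isMaximal O).ne_top h5

end Pool.Agent.Helper45M.AV
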