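import Pool.Agent.Helper45M.AV.Stm

/-!
# Piece PPOW of project AV (helper45)
-/

set_option autoImplicit false

open MvPolynomial

namespace Pool.Agent.Helper45M.AV

namespace PPOWP

theorem hom_smul {σ κ A : Type} [CommRing κ] [CommRing A] [Algebra κ A] {F : MvPolynomial σ κ}
    {d : ℕ} (hF : F.IsHomogeneous d) (c : A) (z : σ → A) :
    aeval (fun i => c * z i) F = c ^ d * aeval z F := by
  rw [aeval_def, aeval_def, eval₂_eq, eval₂_eq, Finset.mul_sum]
  refine Finset.sum_congr rfl fun m hm => ?_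
  have h1 : ∑ i ∈ m.support, m i = d := by
    have h2 := hF (mem_support_iff.1 hm)
    rw [← h2, Finsupp.weight_apply, Finsupp.sum]
    exact Finset.sum_congr rfl fun i _ => by simp
  have h2 : ∏ i ∈ m.support, (c * z i) ^ m i = c ^ d * ∏ i ∈ m.support, z i ^ m i := by
    rw [Finset.prod_congr rfl fun i _ => mul_pow c (z i) (m i), Finset.prod_mul_distrib,
      Finset.prod_pow_eq_pow_sum, h1]
  rw [h2]
  ring

end PPOWP

open PPOWP in
theorem t_PPOW : S_PPOW := by
  intro p _ κ _ _ _ n e I hI hN Φ j₀ hΦ hj₀ hab i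
  have hp : p.Prime := Fact.out
  have hS : IsDomain (MvPolynomial (Fin (n + 1)) κ ⧸ I) := Ideal.Quotient.isDomain I
  set m := Ideal.Quotient.mk I with hm
  have hm0 : ∀ x, m x = 0 ↔ x ∈ I := fun x => Ideal.Quotient.eq_zero_iff_mem
  choose a b hb hab using hab
  have hbm : ∀ l, m (b l) ≠ 0 := fun l h => hb l ((hm0 _).1 h)
  let B := ∏ l, b l
  let a' : Fin (n + 1) → MvPolynomial (Fin (n + 1)) κ := fun l =>
    a l * ∏ j ∈ Finset.univ.erase l, b j
  have hB : m B ≠ 0 := by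
    show m (∏ l, b l) ≠ 0
    rw [map_prod]
    exact Finset.prod_ne_zero_iff.2 fun l _ => hbm l
  have h1 : ∀ l, m (B ^ p * Φ l) = m (Φ j₀ * a' l ^ p) := by
    intro l
    have h2 : m (Φ l * b l ^ p) = m (Φ j₀ * a l ^ p) := by
      rw [← sub_eq_zero, ← map_sub, hm0]
      exact hab l
    have h3 : B = b l * ∏ j ∈ Finset.univ.erase l, b j :=
      (Finset.mul_prod_erase Finset.univ b (Finset.mem_univ l)).symm
    have h4 : B ^ p * Φ l = (Φ l * b l ^ p) * (∏ j ∈ Finset.univ.erase l, b j) ^ p := by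
      rw [h3]; ring
    have h5 : Φ j₀ * a' l ^ p = (Φ j₀ * a l ^ p) * (∏ j ∈ Finset.univ.erase l, b j) ^ p := by
      show Φ j₀ * (a l * ∏ j ∈ Finset.univ.erase l, b j) ^ p = _
      ring
    rw [h4, h5, map_mul, h2, ← map_mul]
  have h2 : ∀ x : Fin (n + 1) → MvPolynomial (Fin (n + 1)) κ,
      m (aeval x (Φ i)) = aeval (fun l => m (x l)) (Φ i) := by
    intro x
    rw [← Ideal.Quotient.mkₐ_eq_mk κ, ← AlgHom.comp_apply, comp_aeval]
  have h3 : m (aeval (fun l => B ^ p * Φ l) (Φ i)) = m (aeval (fun l => Φ j₀ * a' l ^ p) (Φ i)) := by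
    rw [h2, h2]
    congr 2
    funext l
    exact h1 l
  rw [hom_smul (hΦ i), hom_smul (hΦ i)] at h3
  let F : MvPolynomial (Fin (n + 1)) κ := map ((frobeniusEquiv κ p).symm : κ →+* κ) (Φ i)
  have hF : F ^ p = expand p (Φ i) := by
    rw [← map_frobenius_expand, map_expand]
    congr 1
    show map (frobenius κ p) (map _ (Φ i)) = Φ i
    rw [map_map]
    have h4 : (frobenius κ p).comp ((frobeniusEquiv κ p).symm : κ →+* κ) = RingHom.id κ := by
      ext x
      exact frobenius_apply_frobeniusEquiv_symm κ p x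
    rw [h4, map_id]
  have h4 : aeval (fun l => a' l ^ p) (Φ i) = (aeval a' F) ^ p := by
    rw [← map_pow, hF, aeval_expand]
    rfl
  rw [h4] at h3
  let f := Φ j₀ ^ e * aeval a' F
  let g := B ^ (p * e)
  have hf : f ^ p = Φ j₀ ^ (p * e) * (aeval a' F) ^ p := by
    show (Φ j₀ ^ e * aeval a' F) ^ p = _
    rw [mul_pow, ← pow_mul, mul_comm e p]
  have hg : g ^ p = (B ^ p) ^ (p * e) := by
    show (B ^ (p * e)) ^ p = _
    rw [← pow_mul, ← pow_mul, mul_comm]
  rw [← hf, ← hg] at h3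
  have hgI : g ∉ I := by
    intro h
    have h5 : m g = 0 := (hm0 g).2 h
    have h6 : m g = m B ^ (p * e) := map_pow m B (p * e)
    rw [h6] at h5
    exact pow_ne_zero _ hB h5
  obtain ⟨h, hh⟩ := hN f g p (fun j => if (j : ℕ) = 0 then - aeval Φ (Φ i) else 0) hgI (by
    have h5 : ∑ j : Fin p, (if (j : ℕ) = 0 then - aeval Φ (Φ i) else 0) * g ^ (p - (j : ℕ)) *
        f ^ (j : ℕ) = - aeval Φ (Φ i) * g ^ p := by
      rw [Finset.sum_eq_single (⟨0, hp.pos⟩ : Fin p)]
      · simp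
      · intro j _ hj
        have : (j : ℕ) ≠ 0 := fun h => hj (Fin.ext h)
        rw [if_neg this, zero_mul, zero_mul]
      · intro h
        exact absurd (Finset.mem_univ _) h
    rw [h5, ← hm0, map_add, ← h3, ← map_add]
    have h6 : g ^ p * aeval Φ (Φ i) + -aeval Φ (Φ i) * g ^ p = 0 := by ring
    rw [h6, map_zero])
  refine ⟨h, ?_⟩
  have h5 : m f = m (g * h) := by
    rw [← sub_eq_zero, ← map_sub, hm0]
    exact hh
  rw [← hm0]
  have h6 : m g ^ p * m (aeval Φ (Φ i) - h ^ p) = 0 := by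
    rw [← map_pow, ← map_mul, mul_sub, map_sub, h3, map_pow, h5, ← map_pow, mul_pow, sub_self]
  rcases mul_eq_zero.1 h6 with h7 | h7
  · exact absurd (pow_eq_zero_iff hp.ne_zero |>.1 h7) fun h8 => hgI ((hm0 g).1 h8)
  · exact h7

end Pool.Agent.Helper45M.AV

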