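import Pool.Agent.Helper45M.AV.Stm

/-! # Project AV, piece SYM (helper85) -/

set_option autoImplicit false
set_option linter.all false

open MvPolynomial

namespace Pool.Agent.Helper45M.AV.SYMP

variable {κ : Type} [Field κ] {n : ℕ}

theorem comp_aeval' {R R' : Type} [CommRing R] [Algebra κ R] [CommRing R'] [Algebra κ R']
    {σ : Type} (θ : R →ₐ[κ] R') (g : σ → R) (Q : MvPolynomial σ κ) :
    θ (aeval g Q) = aeval (fun s => θ (g s)) Q := by
  have h := DFunLike.congr_fun (comp_aeval g θ) Q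
  exact h

theorem elim_comp {R R' : Type} (θ : R → R') (u v : Fin (n + 1) → R) :
    (fun s => θ (Sum.elim u v s)) = Sum.elim (fun i => θ (u i)) (fun i => θ (v i)) := by
  funext s
  rcases s with s | s <;> rfl

theorem bihom_left {S : Type} [CommRing S] [Algebra κ S] (d : ℕ)
    (Q : MvPolynomial (Fin (n + 1) ⊕ Fin (n + 1)) κ)
    (hQ : Q.IsWeightedHomogeneous (Sum.elim (fun _ => 1) (fun _ => 0) : _ → ℕ) d) (c : S)
    (u v : Fin (n + 1) → S) :
    aeval (Sum.elim (fun i => c * u i) v) Q = c ^ d * aeval (Sum.elim u v) Q := by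
  rw [aeval_def, aeval_def, eval₂_eq', eval₂_eq', Finset.mul_sum]
  refine Finset.sum_congr rfl fun m hm => ?_
  have h1 := hQ (mem_support_iff.1 hm)
  rw [Finsupp.weight_apply, Finsupp.sum_fintype _ _ (by simp), Fintype.sum_sum_type] at h1
  simp only [Sum.elim_inl, Sum.elim_inr, smul_eq_mul, mul_one, mul_zero, Finset.sum_const_zero,
    add_zero] at h1
  rw [Fintype.prod_sum_type, Fintype.prod_sum_type]
  simp only [Sum.elim_inl, Sum.elim_inr, mul_pow, Finset.prod_mul_distrib]
  rw [Finset.prod_pow_eq_pow_sum, h1]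
  ring

theorem bihom_right {S : Type} [CommRing S] [Algebra κ S] (d : ℕ)
    (Q : MvPolynomial (Fin (n + 1) ⊕ Fin (n + 1)) κ)
    (hQ : Q.IsWeightedHomogeneous (Sum.elim (fun _ => 0) (fun _ => 1) : _ → ℕ) d) (c : S)
    (u v : Fin (n + 1) → S) :
    aeval (Sum.elim u (fun i => c * v i)) Q = c ^ d * aeval (Sum.elim u v) Q := by
  rw [aeval_def, aeval_def, eval₂_eq', eval₂_eq', Finset.mul_sum]
  refine Finset.sum_congr rfl fun m hm => ?_
  have h1 := hQ (mem_support_iff.1 hm)
  rw [Finsupp.weight_apply, Finsupp.sum_fintype _ _ (by simp), Fintype.sum_sum_type] at h1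
  simp only [Sum.elim_inl, Sum.elim_inr, smul_eq_mul, mul_one, mul_zero, Finset.sum_const_zero,
    zero_add] at h1
  rw [Fintype.prod_sum_type, Fintype.prod_sum_type]
  simp only [Sum.elim_inl, Sum.elim_inr, mul_pow, Finset.prod_mul_distrib]
  rw [Finset.prod_pow_eq_pow_sum, h1]
  ring

/-- (a) -/
noncomputable def cc (Φ : ℕ → Fin (n + 1) → MvPolynomial (Fin (n + 1)) κ) (jj : ℕ → Fin (n + 1)) :
    ℕ → MvPolynomial (Fin (n + 1)) κ
  | 0 => 1
  | m + 1 => cc Φ jj m ^ 2 * Φ m (jj (m + 1))

theorem cc_notMem (I : Ideal (MvPolynomial (Fin (n + 1)) κ)) (hI : I.IsPrime)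
    (Φ : ℕ → Fin (n + 1) → MvPolynomial (Fin (n + 1)) κ) (jj : ℕ → Fin (n + 1))
    (hjj : ∀ m, Φ m (jj (m + 1)) ∉ I) (m : ℕ) : cc Φ jj m ∉ I := by
  induction m with
  | zero => exact fun h => hI.ne_top ((Ideal.eq_top_iff_one I).2 h)
  | succ m ih =>
    intro h
    rcases hI.mem_or_mem h with h | h
    · exact ih (hI.mem_of_pow_mem 2 h)
    · exact hjj m h

theorem part_a (I : Ideal (MvPolynomial (Fin (n + 1)) κ))
    (A : Fin (n + 1) → Fin (n + 1) → MvPolynomial (Fin (n + 1) ⊕ Fin (n + 1)) κ) (hA : IsBihom A)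
    (Φ : ℕ → Fin (n + 1) → MvPolynomial (Fin (n + 1)) κ) (h1 : ∀ i, Φ 1 i = X i)
    (hrel : ∀ m i j, aeval (Sum.elim (Φ (m + 1)) X) (A i j) - Φ (m + 2) i * Φ m j ∈ I)
    (jj : ℕ → Fin (n + 1)) (m : ℕ) : ∀ i,
      B A jj (fun _ => (X : Fin (n + 1) → MvPolynomial (Fin (n + 1)) κ)) m i -
        cc Φ jj m * Φ (m + 1) i ∈ I := by
  have key : ∀ (m : ℕ) (i : Fin (n + 1)), Ideal.Quotient.mkₐ κ I
      (B A jj (fun _ => (X : Fin (n + 1) → MvPolynomial (Fin (n + 1)) κ)) m i) =
      Ideal.Quotient.mkₐ κ I (cc Φ jj m) * Ideal.Quotient.mkₐ κ I (Φ (m + 1) i) := by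
    intro m
    induction m with
    | zero =>
      intro i
      rw [zero_add, h1]
      show Ideal.Quotient.mkₐ κ I (X i) = Ideal.Quotient.mkₐ κ I 1 * _
      rw [map_one, one_mul]
    | succ m ih =>
      intro i
      have h2 : Ideal.Quotient.mkₐ κ I (aeval (Sum.elim (Φ (m + 1)) X) (A i (jj (m + 1)))) =
          Ideal.Quotient.mkₐ κ I (Φ (m + 2) i * Φ m (jj (m + 1))) :=
        Ideal.Quotient.eq.2 (hrel m i _)
      rw [comp_aeval', elim_comp] at h2
      show Ideal.Quotient.mkₐ κ I (aeval (Sum.elim (B A jj (fun _ => X) m) X) (A i (jj (m + 1)))) =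
        Ideal.Quotient.mkₐ κ I (cc Φ jj m ^ 2 * Φ m (jj (m + 1))) * _
      rw [comp_aeval', elim_comp]
      simp only [ih]
      rw [bihom_left 2 _ (hA i _).1, h2, map_mul, map_mul, map_pow]
      ring
  intro i
  apply Ideal.Quotient.eq.1
  have h := key m i
  rw [← map_mul] at h
  exact h

/-- (b) -/
theorem part_b {r : ℕ} (P : Fin r → MvPolynomial (Fin (n + 1)) κ)
    (A : Fin (n + 1) → Fin (n + 1) → MvPolynomial (Fin (n + 1) ⊕ Fin (n + 1)) κ) (hA : IsBihom A)
    {Γ : Type} [AddCommGroup Γ] (π : (Fin (n + 1) → κ) → Γ)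
    (hG : ∀ x ∈ pts (RingHom.id κ) P, ∀ y ∈ pts (RingHom.id κ) P, x ≠ 0 → y ≠ 0 →
      ∃ s ∈ pts (RingHom.id κ) P, ∃ d ∈ pts (RingHom.id κ) P,
      s ≠ 0 ∧ d ≠ 0 ∧ π s = π x + π y ∧ π d = π x - π y ∧
        ∀ i j, eval₂ (RingHom.id κ) (Sum.elim x y) (A i j) = s i * d j)
    (jj : ℕ → Fin (n + 1)) (z : ℕ → Fin (n + 1) → κ) (m : ℕ) :
    (∀ l ∈ Finset.range (m + 1), z l ∈ pts (RingHom.id κ) P ∧ z l ≠ 0) →
    ∃ (c : κ) (s : Fin (n + 1) → κ), s ∈ pts (RingHom.id κ) P ∧ s ≠ 0 ∧
      π s = ∑ l ∈ Finset.range (m + 1), π (z l) ∧ ∀ i, B A jj z m i = c * s i := by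
  induction m with
  | zero =>
    intro hz
    have h := hz 0 (by simp)
    refine ⟨1, z 0, h.1, h.2, by simp, fun i => ?_⟩
    rw [one_mul]
    rfl
  | succ m ih =>
    intro hz
    obtain ⟨c, s, hs, hs0, hπ, hB⟩ := ih fun l hl => hz l (by
      rw [Finset.mem_range] at hl ⊢
      omega)
    have h := hz (m + 1) (by simp)
    obtain ⟨s', hs', d', hd', hs0', hd0', hπ', -, hA'⟩ := hG s hs (z (m + 1)) h.1 hs0 h.2
    refine ⟨c ^ 2 * d' (jj (m + 1)), s', hs', hs0', ?_, fun i => ?_⟩
    · rw [hπ', hπ, Finset.sum_range_succ _ (m + 1)]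
    · show aeval (Sum.elim (B A jj z m) (z (m + 1))) (A i (jj (m + 1))) = _
      have h2 : B A jj z m = fun i => c * s i := funext hB
      rw [h2, bihom_left 2 _ (hA i _).1]
      have h3 := hA' i (jj (m + 1))
      have h4 : aeval (Sum.elim s (z (m + 1))) (A i (jj (m + 1))) =
          eval₂ (RingHom.id κ) (Sum.elim s (z (m + 1))) (A i (jj (m + 1))) := rfl
      rw [h4, h3]
      ring

theorem part_b0 (A : Fin (n + 1) → Fin (n + 1) → MvPolynomial (Fin (n + 1) ⊕ Fin (n + 1)) κ)
    (hA : IsBihom A) (jj : ℕ → Fin (n + 1)) (z : ℕ → Fin (n + 1) → κ) (k : ℕ) (hk : z k = 0)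
    (m : ℕ) (hm : k ≤ m) : B A jj z m = 0 := by
  induction m with
  | zero =>
    have : k = 0 := by omega
    subst this
    exact hk
  | succ m ih =>
    funext i
    show aeval (Sum.elim (B A jj z m) (z (m + 1))) (A i (jj (m + 1))) = 0
    rcases Nat.lt_or_ge m k with h | h
    · have : k = m + 1 := by omega
      subst this
      have h2 := bihom_right 2 (A i (jj (m + 1))) (hA i _).2 (0 : κ) (B A jj z m) (z (m + 1))
      rw [hk] at h2 ⊢
      have h3 : (fun i : Fin (n + 1) => (0 : κ) * (0 : Fin (n + 1) → κ) i) = 0 := by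
        funext i
        simp
      rw [h3] at h2
      rw [h2]
      simp
    · have h2 := bihom_left 2 (A i (jj (m + 1))) (hA i _).1 (0 : κ) (B A jj z m) (z (m + 1))
      rw [ih h] at h2 ⊢
      have h3 : (fun i : Fin (n + 1) => (0 : κ) * (0 : Fin (n + 1) → κ) i) = 0 := by
        funext i
        simp
      rw [h3] at h2
      rw [h2]
      simp

theorem nulls [IsAlgClosed κ] {r : ℕ} (P : Fin r → MvPolynomial (Fin (n + 1)) κ)
    (hI : (Ideal.span (Set.range P)).IsPrime) (f : MvPolynomial (Fin (n + 1)) κ)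
    (hf : ∀ x ∈ pts (RingHom.id κ) P, aeval x f = 0) : f ∈ Ideal.span (Set.range P) := by
  haveI := hI
  rw [← IsPrime.vanishingIdeal_zeroLocus (K := κ) (Ideal.span (Set.range P)),
    mem_vanishingIdeal_iff]
  intro x hx
  apply hf x
  intro l
  exact hx _ (Ideal.subset_span ⟨l, rfl⟩)

theorem van {r : ℕ} (P : Fin r → MvPolynomial (Fin (n + 1)) κ)
    (f : MvPolynomial (Fin (n + 1)) κ) (hf : f ∈ Ideal.span (Set.range P)) 
    (x : Fin (n + 1) → κ) (hx : x ∈ pts (RingHom.id κ) P) : aeval x f = 0 := by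
  have h : Ideal.span (Set.range P) ≤ RingHom.ker (aeval x : MvPolynomial (Fin (n + 1)) κ →ₐ[κ] κ) := by
    rw [Ideal.span_le]
    rintro _ ⟨l, rfl⟩
    exact hx l
  exact h hf

/-- (d) the homomorphism `f ↦ f(x) + ε (D f)(x)`. -/
theorem theta (D : Derivation κ (MvPolynomial (Fin (n + 1)) κ) (MvPolynomial (Fin (n + 1)) κ))
    (x : Fin (n + 1) → κ) : ∃ θ : MvPolynomial (Fin (n + 1)) κ →ₐ[κ] DualNumber κ,
      ∀ f, θ f = TrivSqZeroExt.inl (aeval x f) + TrivSqZeroExt.inr (aeval x (D f)) := by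
  refine ⟨aeval fun i => TrivSqZeroExt.inl (x i) + TrivSqZeroExt.inr (aeval x (D (X i))),
    fun f => ?_⟩
  induction f using MvPolynomial.induction_on with
  | C a =>
    rw [← algebraMap_eq, D.map_algebraMap, map_zero, AlgHom.commutes, AlgHom.commutes]
    rw [TrivSqZeroExt.inr_zero, add_zero]
    rfl
  | add f g hf hg =>
    rw [map_add, hf, hg, map_add, map_add, map_add, TrivSqZeroExt.inl_add, TrivSqZeroExt.inr_add]
    abel
  | mul_X f i hf =>
    rw [map_mul, hf, D.leibniz, aeval_X, map_mul, map_add, aeval_X, smul_eq_mul, smul_eq_mul,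
      map_mul, map_mul, aeval_X]
    ext
    · simp
    · simp
      ring

end Pool.Agent.Helper45M.AV.SYMP

namespace Pool.Agent.Helper45M.AV

open SYMP in
/-- Piece SYM, given SYM1. -/
theorem t_SYM (hS : S_SYM1) : S_SYM := by
  intro p _ κ _ _ _ n r P A o Φ hP hI hA hG hhom h0 h1 hrel hne D hD i j
  obtain ⟨m, hm⟩ : ∃ m, p = m + 1 := ⟨p - 1, by
    have := (Fact.out : p.Prime).pos
    omega⟩
  obtain ⟨-, -, Γ, _, π, -, hprop, hgrp⟩ := hG
  choose js hjs using hne
  set jj : ℕ → Fin (n + 1) := fun l => js (l - 1) with hjj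
  obtain ⟨hfun, hder⟩ := hS κ n A jj
  have hc := cc_notMem _ hI Φ jj (fun l => hjs l) m
  have ha := part_a _ A hA Φ h1 hrel jj m
  -- (c)
  have hC : ∀ x ∈ pts (RingHom.id κ) P, x ≠ 0 → ∀ k ∈ Finset.range (m + 1),
      ∀ k' ∈ Finset.range (m + 1), ∀ i j : Fin (n + 1),
      B A jj (fun l i => if l = k then (X i : MvPolynomial (Fin (n + 1)) κ) else C (x i)) m i *
        B A jj (fun l i => if l = k' then (X i : MvPolynomial (Fin (n + 1)) κ) else C (x i)) m j -
      B A jj (fun l i => if l = k then (X i : MvPolynomial (Fin (n + 1)) κ) else C (x i)) m j *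
        B A jj (fun l i => if l = k' then (X i : MvPolynomial (Fin (n + 1)) κ) else C (x i)) m i ∈
        Ideal.span (Set.range P) := by
    intro x hx hx0 k hk k' hk' i j
    apply nulls P hI
    intro z hz
    have hev : ∀ (k : ℕ) (i : Fin (n + 1)), aeval z (B A jj (fun l i => if l = k then
        (X i : MvPolynomial (Fin (n + 1)) κ) else C (x i)) m i) =
        B A jj (fun l => if l = k then z else x) m i := by
      intro k i
      rw [hfun _ _ (aeval z)]
      congr 1
      funext l i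
      by_cases h : l = k
      · simp [h]
      · simp [h]
    rw [map_sub, map_mul, map_mul, hev, hev, hev, hev]
    by_cases hz0 : z = 0
    · have hb : ∀ k ∈ Finset.range (m + 1), B A jj (fun l => if l = k then z else x) m = 0 := by
        intro k hk
        apply part_b0 A hA jj _ k (by simp [hz0])
        rw [Finset.mem_range] at hk
        omega
      rw [hb k hk, hb k' hk']
      simp
    · have hb : ∀ k ∈ Finset.range (m + 1), ∃ (c : κ) (s : Fin (n + 1) → κ),
          s ∈ pts (RingHom.id κ) P ∧ s ≠ 0 ∧ π s = m • π x + π z ∧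
          ∀ i, B A jj (fun l => if l = k then z else x) m i = c * s i := by
        intro k hk
        obtain ⟨c, s, hs, hs0, hπ, hB⟩ := part_b P A hA π (fun x hx y hy hx0 hy0 => by
          obtain ⟨s, hs, d, hd, h⟩ := hgrp x hx y hy hx0 hy0
          exact ⟨s, hs, d, hd, h⟩) jj (fun l => if l = k then z else x) m (fun l _ => by
            by_cases h : l = k
            · simp only [h, if_true]
              exact ⟨hz, hz0⟩
            · simp only [h, if_false]
              exact ⟨hx, hx0⟩)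
        refine ⟨c, s, hs, hs0, ?_, hB⟩
        rw [hπ, ← Finset.sum_erase_add _ _ hk, if_pos rfl]
        congr 1
        rw [Finset.sum_congr rfl (g := fun _ => π x), Finset.sum_const, Finset.card_erase_of_mem hk,
          Finset.card_range]
        · rfl
        · intro l hl
          rw [if_neg (Finset.ne_of_mem_erase hl)]
      obtain ⟨c, s, hs, hs0, hπ, hB⟩ := hb k hk
      obtain ⟨c', s', hs', hs0', hπ', hB'⟩ := hb k' hk'
      obtain ⟨t, ht⟩ := (hprop s hs s' hs' hs0 hs0').1 (hπ.trans hπ'.symm)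
      rw [hB, hB, hB', hB', ht]
      simp only [Pi.smul_apply, smul_eq_mul]
      ring
  -- (d), (e)
  set Φi := Φ p i with hΦi
  set Φj := Φ p j with hΦj
  have hfin : cc Φ jj m ^ 2 * (Φ p i * D (Φ p j) - Φ p j * D (Φ p i)) ∈
      Ideal.span (Set.range P) := by
    apply nulls P hI
    intro x hx
    by_cases hx0 : x = 0
    · have hz : ∀ i, aeval x (Φ p i) = 0 := by
        intro i
        rw [hx0, aeval_def, eval₂_eq']
        refine Finset.sum_eq_zero fun d hd => ?_
        have h2 := hhom p i (mem_support_iff.1 hd)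
        obtain ⟨l, hl⟩ : ∃ l, d l ≠ 0 := by
          by_contra hcon
          push Not at hcon
          have hd0 : d = 0 := Finsupp.ext hcon
          rw [hd0, map_zero] at h2
          have := pow_pos (Fact.out : p.Prime).pos 2
          omega
        rw [Finset.prod_eq_zero (Finset.mem_univ l), mul_zero]
        exact zero_pow hl
      rw [map_mul, map_sub, map_mul, map_mul, hz, hz]
      ring
    · obtain ⟨θ, hθ⟩ := theta D x
      have hθI : ∀ f ∈ Ideal.span (Set.range P), θ f = 0 := by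
        intro f hf
        rw [hθ, van P f hf x hx, van P _ (hD f hf) x hx]
        simp
      have hθX : ∀ i, θ (X i) = TrivSqZeroExt.inl (x i) + TrivSqZeroExt.inr (aeval x (D (X i))) := by
        intro i
        rw [hθ, aeval_X]
      obtain ⟨b, w, hb, hw, hwk⟩ := hder m x (fun i => aeval x (D (X i)))
      have hF : ∀ k ∈ Finset.range (m + 1), ∀ i, θ (B A jj (fun l i => if l = k then
          (X i : MvPolynomial (Fin (n + 1)) κ) else C (x i)) m i) =
          TrivSqZeroExt.inl (b i) + TrivSqZeroExt.inr (w k i) := by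
        intro k hk i
        rw [hfun _ _ θ, ← hwk k hk i]
        congr 1
        funext l i
        by_cases h : l = k
        · simp only [h, if_true]
          exact hθX i
        · simp only [h, if_false]
          rw [← algebraMap_eq, AlgHom.commutes]
          rfl
      have hδ : ∀ k ∈ Finset.range (m + 1), ∀ k' ∈ Finset.range (m + 1),
          b i * w k j - b j * w k i = b i * w k' j - b j * w k' i := by
        intro k hk k' hk'
        have h2 := hθI _ (hC x hx hx0 k hk k' hk' i j)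
        rw [map_sub, map_mul, map_mul, hF k hk, hF k hk, hF k' hk', hF k' hk'] at h2
        have h3 := congrArg TrivSqZeroExt.snd h2
        simp at h3
        linear_combination -h3
      have hsum : b i * (∑ l ∈ Finset.range (m + 1), w l j) -
          b j * (∑ l ∈ Finset.range (m + 1), w l i) = 0 := by
        rw [Finset.mul_sum, Finset.mul_sum, ← Finset.sum_sub_distrib,
          Finset.sum_congr rfl fun l hl => hδ l hl 0 (by simp), Finset.sum_const, Finset.card_range,
          ← hm, nsmul_eq_mul, CharP.cast_eq_zero, zero_mul]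
      have hE : ∀ i, b i = aeval x (cc Φ jj m) * aeval x (Φ p i) ∧
          (∑ l ∈ Finset.range (m + 1), w l i) = aeval x (cc Φ jj m) * aeval x (D (Φ p i)) +
            aeval x (D (cc Φ jj m)) * aeval x (Φ p i) := by
        intro i
        have h2 := hθI _ (ha i)
        rw [← hm, map_sub, hfun _ _ θ, map_mul, hθ (cc Φ jj m), hθ (Φ p i)] at h2
        have h4 : B A jj (fun l i => θ ((fun _ => (X : Fin (n + 1) →
            MvPolynomial (Fin (n + 1)) κ)) l i)) m i = TrivSqZeroExt.inl (b i) +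
            TrivSqZeroExt.inr (∑ l ∈ Finset.range (m + 1), w l i) := by
          rw [← hw i]
          congr 1
          funext l i
          exact hθX i
        rw [h4] at h2
        have h5 := congrArg TrivSqZeroExt.fst h2
        have h6 := congrArg TrivSqZeroExt.snd h2
        simp [-coe_aeval_eq_eval, -aeval_eq_eval] at h5 h6
        constructor
        · linear_combination h5
        · linear_combination h6
      rw [(hE i).1, (hE j).1, (hE i).2, (hE j).2] at hsum
      rw [map_mul, map_sub, map_mul, map_mul, map_pow]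
      linear_combination hsum
  rcases hI.mem_or_mem hfin with h | h
  · exact absurd (hI.mem_of_pow_mem 2 h) hc
  · exact h

end Pool.Agent.Helper45M.AV
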