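import Pool.Agent.Helper45M.AV.Stm

/-!
# SYM1: the derivative of the iterated addition is the sum of the partial derivatives
-/

set_option autoImplicit false

open MvPolynomial

namespace Pool.Agent.Helper45M.AV.SYM1P

variable {κ : Type} [Field κ] {n : ℕ} (A : Fin (n + 1) → Fin (n + 1) → MvPolynomial (Fin (n + 1) ⊕ Fin (n + 1)) κ)
  (jj : ℕ → Fin (n + 1))

lemma funct {R R' : Type} [CommRing R] [Algebra κ R] [CommRing R'] [Algebra κ R'] (θ : R →ₐ[κ] R')
    (z : ℕ → Fin (n + 1) → R) (m : ℕ) (i : Fin (n + 1)) :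
    θ (B A jj z m i) = B A jj (fun l i => θ (z l i)) m i := by
  induction m generalizing i with
  | zero => rfl
  | succ m ih =>
    change θ (aeval (Sum.elim (B A jj z m) (z (m + 1))) (A i (jj (m + 1)))) =
      aeval (Sum.elim (B A jj (fun l i => θ (z l i)) m) (fun i => θ (z (m + 1) i))) (A i (jj (m + 1)))
    rw [MvPolynomial.comp_aeval_apply]
    congr 2
    funext s
    rcases s with s | s
    · exact ih s
    · rfl

lemma congr {R : Type} [CommRing R] [Algebra κ R] (z z' : ℕ → Fin (n + 1) → R) (m : ℕ)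
    (h : ∀ l ≤ m, z l = z' l) : B A jj z m = B A jj z' m := by
  induction m with
  | zero => exact h 0 le_rfl
  | succ m ih =>
    funext i
    change aeval (Sum.elim (B A jj z m) (z (m + 1))) (A i (jj (m + 1))) =
      aeval (Sum.elim (B A jj z' m) (z' (m + 1))) (A i (jj (m + 1)))
    rw [ih fun l hl => h l (by omega), h (m + 1) le_rfl]

/-- the linear form with the coefficients `a l`, `l ≤ m` -/
noncomputable def lf (m : ℕ) (a : ℕ → κ) : (ℕ → κ) →ₗ[κ] κ :=
  ∑ l ∈ Finset.range (m + 1), a l • LinearMap.proj l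

lemma lf_apply (m : ℕ) (a u : ℕ → κ) : lf m a u = ∑ l ∈ Finset.range (m + 1), a l * u l := by
  unfold lf
  rw [LinearMap.sum_apply]
  rfl

lemma lf_single (m : ℕ) (a : ℕ → κ) (l : ℕ) (hl : l ≤ m) (c : κ) : lf m a (Pi.single l c) = a l * c := by
  rw [lf_apply, Finset.sum_eq_single l]
  · rw [Pi.single_eq_same]
  · intro k _ hk
    rw [Pi.single_eq_of_ne hk, mul_zero]
  · intro h
    exact absurd (Finset.mem_range.2 (by omega)) h

/-- all the points move in independent directions -/
noncomputable def zz (x v : Fin (n + 1) → κ) (l : ℕ) (i : Fin (n + 1)) : TrivSqZeroExt κ (ℕ → κ) :=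
  TrivSqZeroExt.inl (x i) + TrivSqZeroExt.inr (Pi.single l (v i))

lemma key (m : ℕ) (x v : Fin (n + 1) → κ) (a : ℕ → κ) (i : Fin (n + 1)) :
    B A jj (fun l i => (TrivSqZeroExt.inl (x i) + TrivSqZeroExt.inr (a l * v i) : DualNumber κ)) m i =
      TrivSqZeroExt.inl (B A jj (zz x v) m i).fst +
        TrivSqZeroExt.inr (∑ l ∈ Finset.range (m + 1), a l * (B A jj (zz x v) m i).snd l) := by
  have h1 := funct A jj (TrivSqZeroExt.map (lf m a) : TrivSqZeroExt κ (ℕ → κ) →ₐ[κ] TrivSqZeroExt κ κ) (zz x v) m i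
  have h2 : B A jj (fun l i => (TrivSqZeroExt.map (lf m a)) (zz x v l i)) m =
      B A jj (fun l i => (TrivSqZeroExt.inl (x i) + TrivSqZeroExt.inr (a l * v i) : DualNumber κ)) m := by
    refine congr A jj _ _ m fun l hl => ?_
    funext i
    unfold zz
    rw [map_add, TrivSqZeroExt.map_inl, TrivSqZeroExt.map_inr, lf_single m a l hl]
  rw [← h2, ← h1]
  conv_lhs => rw [← TrivSqZeroExt.inl_fst_add_inr_snd_eq (B A jj (zz x v) m i)]
  rw [map_add, TrivSqZeroExt.map_inl, TrivSqZeroExt.map_inr, lf_apply]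

end Pool.Agent.Helper45M.AV.SYM1P

namespace Pool.Agent.Helper45M.AV

open SYM1P in
theorem t_SYM1 : S_SYM1 := by
  intro κ _ n A jj
  refine ⟨fun R R' _ _ _ _ θ z m i => funct A jj θ z m i, fun m x v => ?_⟩
  refine ⟨fun i => (B A jj (zz x v) m i).fst, fun l i => (B A jj (zz x v) m i).snd l, ?_, ?_, ?_⟩
  · intro i
    have h1 := funct A jj (TrivSqZeroExt.fstHom κ κ (ℕ → κ)) (zz x v) m i
    change (B A jj (zz x v) m i).fst = _ at h1
    change _ = (B A jj (zz x v) m i).fst
    rw [h1]
    refine congrFun (SYM1P.congr A jj _ _ m fun l _ => ?_) i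
    funext i
    change x i = (zz x v l i).fst
    unfold zz
    simp
  · intro i
    have h1 := key A jj m x v (fun _ => 1) i
    simp only [one_mul] at h1
    exact h1
  · intro k hk i
    have h1 := key A jj m x v (fun l => if l = k then 1 else 0) i
    have h2 : (∑ l ∈ Finset.range (m + 1), (if l = k then (1 : κ) else 0) * (B A jj (zz x v) m i).snd l) =
        (B A jj (zz x v) m i).snd k := by
      simp only [ite_mul, one_mul, zero_mul]
      rw [Finset.sum_ite_eq', if_pos hk]
    rw [h2] at h1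
    refine Eq.trans ?_ h1
    refine congrFun (SYM1P.congr A jj _ _ m fun l _ => ?_) i
    funext i
    by_cases hl : l = k
    · rw [if_pos hl, if_pos hl, one_mul]
    · rw [if_neg hl, if_neg hl, zero_mul, TrivSqZeroExt.inr_zero, add_zero]

end Pool.Agent.Helper45M.AV
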