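import Pool.Agent.Helper45M.AV.Alg
import Pool.Agent.Helper45M.AV.EBAR
import Pool.Agent.Helper45M.AV.EXACT
import Pool.Agent.Helper45M.AV.NULLC
import Pool.Agent.Helper45M.AV.MULT
import Pool.Agent.Helper45M.AV.SYM
import Pool.Agent.Helper45M.AV.SYM1
import Pool.Agent.Helper45M.AV.DER1
import Pool.Agent.Helper45M.AV.DER2
import Pool.Agent.Helper45M.AV.PPOW
import Pool.Agent.Helper45M.AV.LIFT
set_option autoImplicit false

namespace Pool.Agent.Helper45M.AV

/-- All the pieces are proved. -/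
theorem pieces : Pieces :=
  ⟨t_EBAR, t_EXACT, t_NULLC, t_MULT, t_SYM t_SYM1, t_DER1, t_DER2, t_PPOW, t_LIFT⟩

end Pool.Agent.Helper45M.AV
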