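import Pool.Agent.Helper45M.AV.Main
import Pool.Agent.R388.TP.Main
set_option autoImplicit false
set_option linter.unusedSectionVars false

/-!
# Complete intersections in abelian varieties and their images; the residue field
-/

open MvPolynomial Pool.Agent.Y129.TA Pool.Agent.Y129.TB Pool.Agent.R388.TP
  Pool.Agent.Helper45M.DB

namespace Pool.Agent.Helper45M.AV

variable {p : ℕ} [hp : Fact p.Prime] {C F K E : Type} [Field C] [Field F] [CharP F p] [Field K]
  [Field E] [Algebra K C] [Algebra E F]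

/-- Q1 for the unions of images of complete intersections in abelian varieties. -/
theorem av_images [IsAlgClosed C] [IsAlgClosed F] (H : Pieces) (T : Tilting p C F)
    (B : BaseField T K E)
    (hτ : ∃ τ : OT T.toTiltPair K →+* E, IsResLift T.toTiltPair τ) {κ : Type} [Field κ]
    [IsAlgClosed κ] {ρ : OT T.toTiltPair K →+* κ} (hρ : IsResidue T.toTiltPair ρ) {N n d : ℕ}
    (hN : 0 < N) {c m e r : Fin N → ℕ}
    (P : ∀ i, Fin (r i) → MvPolynomial (Fin (m i + 1)) (OT T.toTiltPair K))
    (A : ∀ i, Fin (m i + 1) → Fin (m i + 1) →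
      MvPolynomial (Fin (m i + 1) ⊕ Fin (m i + 1)) (OT T.toTiltPair K))
    (o : ∀ i, Fin (m i + 1) → OT T.toTiltPair K)
    (hP : ∀ i, IsAbelianModel (algebraMap (OT T.toTiltPair K) C) ρ (P i) (A i) (o i))
    (hge : ∀ i, DimGE (zeros C (P i)) (d + c i)) (hle : ∀ i, DimLEOver K (zeros C (P i)) (d + c i))
    (h : ∀ i, Fin (c i) → MvPolynomial (Fin (m i + 1)) K) (hh : ∀ i j, IsForm (h i j))
    (f : ∀ i, Fin (n + 1) → MvPolynomial (Fin (m i + 1)) K) (he : ∀ i, 0 < e i)
    (hf : ∀ i j, (f i j).IsHomogeneous (e i))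
    (h0 : ∀ i, ∀ z ∈ zeros C (P i), (∀ j, aeval z (h i j) = 0) → (∀ j, aeval z (f i j) = 0) →
      z = 0)
    (hX : DimLEOver K (⋃ i, sectionImage (zeros C (P i)) (h i) (f i)) d) :
    IsConeOver K (⋃ i, sectionImage (zeros C (P i)) (h i) (f i)) ∧
      DimGE (⋃ i, sectionImage (zeros C (P i)) (h i) (f i)) d ∧
      Approximable T.toTiltPair K E (⋃ i, sectionImage (zeros C (P i)) (h i) (f i)) d :=
  main T B hN _ (fun i => Or.inr (av_main H T B hτ hρ (hP i) (hge i) (hle i))) h hh f he hf h0 hX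

/-- The homomorphism to the residue field of `C`. -/
theorem exists_residue [IsAlgClosed C] (T : TiltPair p C F) (K : Type) [Field K] [Algebra K C] :
    ∃ (κ : Type) (_ : Field κ) (_ : IsAlgClosed κ) (ρ : OT T K →+* κ), IsResidue T ρ := by
  let j : OK T K →+* OK T C :=
    RingHom.codRestrict ((algebraMap K C).comp (OK T K).subtype) (OK T C) fun x => x.2
  refine ⟨kk T C, inferInstance, inferInstance, (Ideal.Quotient.mk (mK T C)).comp j, ?_⟩
  intro a
  change (Ideal.Quotient.mk (mK T C)) (j a) = 0 ↔ _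
  rw [Ideal.Quotient.eq_zero_iff_mem]
  rfl

end Pool.Agent.Helper45M.AV
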