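import Pool.Agent.Helper45M.AV.Stm2
set_option autoImplicit false

/-!
# Project AV, piece TAU1: coefficient fields of closed perfect subfields
-/

namespace Pool.Agent.Helper45M.AV
open Polynomial

namespace Tau1

variable {F : Type} [Field F]

/-- the closed unit ball of an ultrametric absolute value -/
def ball (v : AbsoluteValue F ℝ) (hv : ∀ x y, v (x + y) ≤ max (v x) (v y)) : Subring F where
  carrier := {x | v x ≤ 1}
  mul_mem' := by
    intro a b ha hb
    change v (a * b) ≤ 1
    rw [map_mul]; exact mul_le_one₀ ha (v.nonneg _) hb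
  one_mem' := by simp
  add_mem' := by
    intro a b ha hb
    exact (hv a b).trans (max_le ha hb)
  zero_mem' := by simp
  neg_mem' := by
    intro a ha
    simpa using ha

theorem aeval_mem (M : Subfield F) (S : Subring F) (h : ∀ m ∈ M, m ∈ S) (f : M[X]) (x : F)
    (hx : x ∈ S) : aeval x f ∈ S := by
  rw [aeval_eq_sum_range]
  refine S.sum_mem fun i _ => ?_
  rw [Algebra.smul_def]
  exact S.mul_mem (h _ (f.coeff i).2) (S.pow_mem hx _)

theorem taylor (M : Subfield F) (S : Subring F) (h : ∀ m ∈ M, m ∈ S) (f : M[X]) (x y : F)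
    (hx : x ∈ S) (hy : y ∈ S) :
    ∃ k ∈ S, aeval (x + y) f = aeval x f + aeval x (derivative f) * y + k * y ^ 2 := by
  let φ : M →+* S :=
    { toFun := fun m => ⟨m, h m m.2⟩
      map_one' := rfl
      map_mul' := fun _ _ => rfl
      map_zero' := rfl
      map_add' := fun _ _ => rfl }
  have key : ∀ (g : M[X]) (z : S), (((g.map φ).eval z : S) : F) = aeval (z : F) g := by
    intro g z
    rw [aeval_def, eval_map, eval₂_eq_sum_range, eval₂_eq_sum_range]
    push_cast
    rfl
  obtain ⟨k, hk⟩ := binomExpansion (f.map φ) ⟨x, hx⟩ ⟨y, hy⟩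
  refine ⟨k, k.2, ?_⟩
  have h1 := congrArg (Subtype.val) hk
  rw [derivative_map] at h1
  have h2 := key f (⟨x, hx⟩ + ⟨y, hy⟩)
  have h3 := key f ⟨x, hx⟩
  have h4 := key (derivative f) ⟨x, hx⟩
  push_cast at h1 h2 h3 h4
  rw [← h2, ← h3, ← h4]
  exact h1

/-- an intermediate field generated by one element: all elements are quotients -/
theorem adjoin_good (v : AbsoluteValue F ℝ) (M E : Subfield F) (hME : M ≤ E)
    (hmax : ∀ L : Subfield F, M ≤ L → L ≤ E → (∀ m ∈ L, v m ≤ 1) → L ≤ M) (t : F) (ht : t ∈ E)
    (hq : ∀ r s : M[X], v (aeval t r / aeval t s) ≤ 1) : t ∈ M := by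
  let L : Subfield F := (IntermediateField.adjoin M {t}).toSubfield
  have h1 : M ≤ L := by
    intro m hm
    exact (IntermediateField.adjoin M {t}).algebraMap_mem ⟨m, hm⟩
  have h2 : L ≤ E := by
    intro x hx
    have hx' : x ∈ IntermediateField.adjoin M {t} := hx
    rw [IntermediateField.mem_adjoin_simple_iff] at hx'
    obtain ⟨r, s, rfl⟩ := hx'
    have h3 : ∀ g : M[X], aeval t g ∈ E := fun g => aeval_mem M E.toSubring (fun m hm => hME hm) g t ht
    exact E.div_mem (h3 r) (h3 s)
  have h3 : ∀ m ∈ L, v m ≤ 1 := by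
    intro x hx
    have hx' : x ∈ IntermediateField.adjoin M {t} := hx
    rw [IntermediateField.mem_adjoin_simple_iff] at hx'
    obtain ⟨r, s, rfl⟩ := hx'
    exact hq r s
  exact hmax L h1 h2 h3 (IntermediateField.mem_adjoin_simple_self M t)

end Tau1

open Tau1 in
theorem t_TAU1 : S_TAU1 := by
  intro p _ F _ _ _ v hv E hperf hclosed
  have hp : p.Prime := Fact.out
  -- Zorn
  let P : Set (Subfield F) := {M | M ≤ E ∧ ∀ m ∈ M, v m ≤ 1}
  have hbot : (⊥ : Subfield F) ∈ P := by
    refine ⟨bot_le, ?_⟩
    intro m hm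
    have hm' : m ^ p = m := (Subfield.mem_bot_iff_pow_eq_self (F := F) p).1 hm
    have h1 : v m ^ p = v m := by rw [← map_pow, hm']
    by_contra hlt
    push Not at hlt
    have h2 : v m ^ 1 < v m ^ p := pow_lt_pow_right₀ hlt hp.one_lt
    rw [pow_one, h1] at h2
    exact lt_irrefl _ h2
  obtain ⟨M, -, hMP, hMmax⟩ := zorn_le_nonempty₀ P (by
    intro c hc hchain y hy
    refine ⟨sSup c, ⟨?_, ?_⟩, fun z hz => le_sSup hz⟩
    · exact sSup_le fun z hz => (hc hz).1
    · intro m hm
      rw [Subfield.mem_sSup_of_directedOn ⟨y, hy⟩ hchain.directedOn] at hm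
      obtain ⟨s, hs, hms⟩ := hm
      exact (hc hs).2 m hms) ⊥ hbot
  have hME : M ≤ E := hMP.1
  have hM1 : ∀ m ∈ M, v m ≤ 1 := hMP.2
  have hmax : ∀ L : Subfield F, M ≤ L → L ≤ E → (∀ m ∈ L, v m ≤ 1) → L ≤ M :=
    fun L h1 h2 h3 => hMmax (show L ∈ P from ⟨h2, h3⟩) h1
  refine ⟨M, hME, hM1, ?_⟩
  have hMeq : ∀ m ∈ M, m ≠ 0 → v m = 1 := by
    intro m hm h0
    refine le_antisymm (hM1 m hm) ?_
    have h1 := hM1 _ (M.inv_mem hm)
    rw [map_inv₀] at h1
    have h2 : 0 < v m := v.pos h0
    exact (inv_le_one₀ h2).1 h1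
  -- M is perfect
  have : CharP M p := inferInstance
  have : ExpChar M p := ExpChar.prime hp
  have : ExpChar F p := ExpChar.prime hp
  have hperfM : PerfectField M := by
    have : PerfectRing M p := by
      refine PerfectRing.ofSurjective M p ?_
      intro m
      obtain ⟨x, hx⟩ := hperf m (hME m.2)
      let M' : Subfield F := M.comap (frobenius F p)
      have hM' : M' ≤ M := by
        refine hmax M' ?_ ?_ ?_
        · intro a ha
          exact M.pow_mem ha p
        · intro a ha
          have ha' : a ^ p ∈ M := ha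
          obtain ⟨b, hb, hbp⟩ := hperf _ (hME ha')
          have : b = a := frobenius_inj F p (by simpa [frobenius_def] using hbp)
          exact this ▸ hb
        · intro a ha
          have ha' : a ^ p ∈ M := ha
          have h1 := hM1 _ ha'
          rw [map_pow] at h1
          exact (pow_le_one_iff_of_nonneg (v.nonneg _) hp.ne_zero).1 h1
      have hxM : x ∈ M := hM' (show x ^ p ∈ M by rw [hx.2]; exact m.2)
      exact ⟨⟨x, hxM⟩, Subtype.ext hx.2⟩
    exact PerfectRing.toPerfectField M p
  intro t htE ht1
  by_contra hno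
  push Not at hno
  set O : Subring F := ball v hv with hO
  have memO : ∀ x, x ∈ O ↔ v x ≤ 1 := fun x => Iff.rfl
  have hev : ∀ (x : F), v x ≤ 1 → ∀ g : M[X], v (aeval x g) ≤ 1 := by
    intro x hx g
    exact aeval_mem M O hM1 g x hx
  have hevE : ∀ (x : F), x ∈ E → ∀ g : M[X], aeval x g ∈ E :=
    fun x hx g => aeval_mem M E.toSubring (fun m hm => hME hm) g x hx
  have lt1 : ∀ x y : F, v x < 1 → v y < 1 → v (x + y) < 1 :=
    fun x y hx hy => lt_of_le_of_lt (hv x y) (max_lt hx hy)
  have mul1 : ∀ x y : F, v x ≤ 1 → v y < 1 → v (x * y) < 1 := by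
    intro x y hx hy
    rw [map_mul]
    exact lt_of_le_of_lt (mul_le_of_le_one_left (v.nonneg _) hx) hy
  -- the ideal
  let I : Ideal M[X] :=
    { carrier := {g | v (aeval t g) < 1}
      add_mem' := by
        intro a b ha hb
        change v (aeval t (a + b)) < 1
        rw [map_add (aeval t)]
        exact lt1 _ _ ha hb
      zero_mem' := by simp
      smul_mem' := by
        intro c g hg
        change v (aeval t (c * g)) < 1
        rw [map_mul (aeval t)]
        exact mul1 (aeval t c) (aeval t g) (hev t ht1 c) hg }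
  have memI : ∀ g, g ∈ I ↔ v (aeval t g) < 1 := fun g => Iff.rfl
  have hIprime : I.IsPrime := by
    refine ⟨?_, ?_⟩
    · intro htop
      have : (1 : M[X]) ∈ I := htop ▸ Submodule.mem_top
      rw [memI] at this
      simp at this
    · intro a b hab
      rw [memI, map_mul, map_mul] at hab
      by_contra hcon
      push Not at hcon
      have h1 : 1 ≤ v (aeval t a) := not_lt.1 hcon.1
      have h2 : 1 ≤ v (aeval t b) := not_lt.1 hcon.2
      exact absurd hab (not_lt.2 (one_le_mul_of_one_le_of_one_le h1 h2))
  by_cases hI0 : I = ⊥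
  · -- case 1
    have htM : t ∈ M := by
      refine adjoin_good v M E hME hmax t htE ?_
      intro r s
      by_cases hs : s = 0
      · simp [hs]
      · have h1 : s ∉ I := by
          rw [hI0]; simpa using hs
        have h2 : 1 ≤ v (aeval t s) := not_lt.1 h1
        rw [map_div₀]
        exact div_le_one_of_le₀ ((hev t ht1 r).trans h2) (v.nonneg _)
    have := hno t htM
    simp at this
    linarith
  · -- case 2
    let f : M[X] := Submodule.IsPrincipal.generator I
    have hfI : f ∈ I := Submodule.IsPrincipal.generator_mem I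
    have hfprime : Prime f := Submodule.IsPrincipal.prime_generator_of_isPrime I hI0
    have hfirr : Irreducible f := hfprime.irreducible
    have hfsep : f.Separable := PerfectField.separable_of_irreducible hfirr
    obtain ⟨a, b, hab⟩ := hfsep
    have hf0 : f ≠ 0 := hfprime.ne_zero
    -- a root near t
    have hroot : ∃ α : F, aeval α f = 0 ∧ v (t - α) < 1 := by
      by_contra hcon
      push Not at hcon
      have hsp : (f.map (algebraMap M F)).Splits := IsAlgClosed.splits _
      have h1 := hsp.eval_eq_prod_roots t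
      have h2 : (f.map (algebraMap M F)).eval t = aeval t f := by
        rw [aeval_def, eval_map]
      rw [h2] at h1
      have h3 : v (aeval t f) = v (f.map (algebraMap M F)).leadingCoeff *
          (((f.map (algebraMap M F)).roots.map (t - ·)).map v).prod := by
        rw [h1, map_mul, map_multiset_prod]
      have h4 : v (f.map (algebraMap M F)).leadingCoeff = 1 := by
        rw [leadingCoeff_map]
        refine hMeq _ (f.leadingCoeff).2 ?_
        intro h5
        exact hf0 (leadingCoeff_eq_zero.1 (Subtype.ext h5))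
      have h6 : 1 ≤ (((f.map (algebraMap M F)).roots.map (t - ·)).map v).prod := by
        rw [Multiset.map_map]
        refine Multiset.prod_induction (fun x : ℝ => 1 ≤ x) _
          (fun a b ha hb => one_le_mul_of_one_le_of_one_le ha hb) le_rfl ?_
        intro x hx
        rw [Multiset.mem_map] at hx
        obtain ⟨α, hα, rfl⟩ := hx
        have h7 := isRoot_of_mem_roots hα
        rw [IsRoot.def, eval_map, ← aeval_def] at h7
        exact hcon α h7
      have h8 : v (aeval t f) < 1 := hfI
      rw [h3, h4, one_mul] at h8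
      exact absurd h8 (not_lt.2 h6)
    obtain ⟨α, hα, hαt⟩ := hroot
    -- Newton
    have hαO : v α ≤ 1 := by
      have h1 : α = t + -(t - α) := by ring
      rw [h1]
      refine (hv _ _).trans (max_le ht1 ?_)
      rw [map_neg_eq_map]
      exact hαt.le
    have step : ∀ s ∈ E, v (s - α) < 1 → ∃ s' ∈ E, v (s' - α) ≤ v (s - α) ^ 2 := by
      intro s hsE hs
      have hsO : v s ≤ 1 := by
        have h1 : s = α + (s - α) := by ring
        rw [h1]
        exact (hv _ _).trans (max_le hαO hs.le)
      have hasO : v (α - s) ≤ 1 := by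
        rw [← neg_sub, map_neg_eq_map]; exact hs.le
      -- f(s) small
      have hfs : v (aeval s f) < 1 := by
        obtain ⟨k, hk, hk'⟩ := taylor M O hM1 f α (s - α) hαO hs.le
        rw [show α + (s - α) = s by ring, hα, zero_add] at hk'
        rw [hk', show aeval α (derivative f) * (s - α) + k * (s - α) ^ 2 =
          (aeval α (derivative f) + k * (s - α)) * (s - α) by ring]
        refine mul1 _ _ ?_ hs
        refine (hv _ _).trans (max_le (hev α hαO _) ?_)
        exact (mul1 _ _ hk hs).le
      have hfs' : 1 ≤ v (aeval s (derivative f)) := by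
        by_contra hlt
        push Not at hlt
        have h1 := congrArg (aeval s) hab
        rw [map_add, map_mul, map_mul, map_one] at h1
        have h2 := lt1 _ _ (mul1 (aeval s a) (aeval s f) (hev s hsO a) hfs)
          (mul1 (aeval s b) (aeval s (derivative f)) (hev s hsO b) hlt)
        rw [h1, map_one] at h2
        exact lt_irrefl _ h2
      have hd0 : aeval s (derivative f) ≠ 0 := by
        intro h0
        rw [h0, map_zero] at hfs'
        linarith
      obtain ⟨k, hk, hk'⟩ := taylor M O hM1 f s (α - s) hsO hasO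
      rw [show s + (α - s) = α by ring, hα] at hk'
      refine ⟨s - aeval s f / aeval s (derivative f),
        E.sub_mem hsE (E.div_mem (hevE s hsE _) (hevE s hsE _)), ?_⟩
      have h1 : s - aeval s f / aeval s (derivative f) - α =
          k * (s - α) ^ 2 / aeval s (derivative f) := by
        field_simp
        linear_combination hk'
      rw [h1, map_div₀, map_mul, map_pow]
      refine (div_le_self (by positivity) hfs').trans ?_
      exact mul_le_of_le_one_left (by positivity) hk
    have hind : ∀ k : ℕ, ∃ s ∈ E, v (s - α) ≤ v (t - α) ^ (k + 1) := by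
      intro k
      induction k with
      | zero => exact ⟨t, htE, by simp⟩
      | succ k ih =>
        obtain ⟨s, hsE, hs⟩ := ih
        have h0 : 0 ≤ v (t - α) := v.nonneg _
        have h1 : v (s - α) < 1 := lt_of_le_of_lt hs (pow_lt_one₀ h0 hαt (by omega))
        obtain ⟨s', hs'E, hs'⟩ := step s hsE h1
        refine ⟨s', hs'E, hs'.trans ?_⟩
        calc v (s - α) ^ 2 ≤ (v (t - α) ^ (k + 1)) ^ 2 := by gcongr
          _ = v (t - α) ^ ((k + 1) * 2) := by rw [← pow_mul]
          _ ≤ v (t - α) ^ (k + 1 + 1) := pow_le_pow_of_le_one h0 hαt.le (by omega)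
    have hαE : α ∈ E := by
      refine hclosed α ?_
      intro ε hε
      obtain ⟨n, hn⟩ := exists_pow_lt_of_lt_one hε hαt
      obtain ⟨s, hsE, hs⟩ := hind n
      refine ⟨s, hsE, ?_⟩
      rw [← neg_sub, map_neg_eq_map]
      refine lt_of_le_of_lt hs (lt_of_le_of_lt ?_ hn)
      exact pow_le_pow_of_le_one (v.nonneg _) hαt.le (by omega)
    have hαM : α ∈ M := by
      refine adjoin_good v M E hME hmax α hαE ?_
      intro r s
      have halg : IsAlgebraic M α := ⟨f, hf0, hα⟩
      have h1 : aeval α r / aeval α s ∈ IntermediateField.adjoin M {α} :=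
        (IntermediateField.mem_adjoin_simple_iff M _).2 ⟨r, s, rfl⟩
      have h2 : aeval α r / aeval α s ∈ Algebra.adjoin M {α} := by
        rw [← IntermediateField.adjoin_simple_toSubalgebra_of_isAlgebraic halg]
        exact h1
      rw [Algebra.adjoin_singleton_eq_range_aeval] at h2
      obtain ⟨g, hg⟩ := h2
      have hg' : aeval α g = aeval α r / aeval α s := hg
      rw [← hg']
      exact hev α hαO g
    exact absurd hαt (not_lt.2 (hno α hαM))

end Pool.Agent.Helper45M.AV
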