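import Pool.Agent.Helper45M.AV.Stm2
import Pool.Agent.Helper45M.DB.TowerMain
set_option autoImplicit false
set_option linter.unusedSectionVars false

/-!
# The lift of the residue field for every perfectoid field
-/

open MvPolynomial WittVector Pool.Agent.Y129.TA Pool.Agent.Y129.TB Pool.Agent.R388.TP
  Pool.Agent.Helper45M.DB

namespace Pool.Agent.Helper45M.AV

variable {p : ℕ} [hp : Fact p.Prime] {C F K E : Type} [Field C] [Field F] [CharP F p] [Field K]
  [Field E] [Algebra K C] [Algebra E F]

/-- The subfield `E` is closed in `F`. -/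
def IsClosedSubfield (T : TiltPair p C F) (E : Type) [Field E] [Algebra E F] : Prop :=
  ∀ x : F, (∀ ε : ℝ, 0 < ε → ∃ y : E, T.absF (x - algebraMap E F y) < ε) →
    ∃ y : E, algebraMap E F y = x

theorem sharp_add_near [IsAlgClosed F] (T : Tilting p C F) {a b : F} (ha : T.absF a ≤ 1)
    (hb : T.absF b ≤ 1) : T.absK (T.sharp a + T.sharp b - T.sharp (a + b)) ≤ T.absK p := by
  have h := sharp_sum_near T (Finset.univ : Finset (Fin 2)) ![a, b] (by
    intro i _
    fin_cases i
    · exact ha
    · exact hb)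
  simpa [Fin.sum_univ_two] using h

theorem sharp_sub_lt [IsAlgClosed F] (T : Tilting p C F) {a b : F} (ha : T.absF a ≤ 1)
    (hb : T.absF b ≤ 1) : T.absK (T.sharp a - T.sharp b) < 1 ↔ T.absF (a - b) < 1 := by
  have hab : T.absF (a - b) ≤ 1 := by
    rw [sub_eq_add_neg]
    refine (T.ultraF _ _).trans (max_le ha ?_)
    rwa [AbsoluteValue.map_neg]
  have h := sharp_add_near T hab hb
  rw [sub_add_cancel] at h
  have h1 := lt_of_le_of_lt h T.p_lt
  rw [← T.abs_sharp (a - b)]
  constructor
  · intro h2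
    have h3 : T.sharp (a - b) = (T.sharp (a - b) + T.sharp b - T.sharp a) +
        (T.sharp a - T.sharp b) := by ring
    rw [h3]
    exact (T.ultraK _ _).trans_lt (max_lt h1 h2)
  · intro h2
    have h3 : T.sharp a - T.sharp b = -(T.sharp (a - b) + T.sharp b - T.sharp a) +
        T.sharp (a - b) := by ring
    rw [h3]
    refine (T.ultraK _ _).trans_lt (max_lt ?_ h2)
    rwa [AbsoluteValue.map_neg]

/-- For every perfectoid field there is a lift of the residue field to the tilt. -/
theorem exists_lift_of_closed [IsAlgClosed F] (H : S_TAU1) (T : Tilting p C F)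
    (B : BaseField T K E) (hE : IsClosedSubfield T.toTiltPair E) :
    ∃ τ : OT T.toTiltPair K →+* E, IsResLift T.toTiltPair τ := by
  classical
  obtain ⟨M, hME, hM1, hM⟩ := H p F T.absF T.ultraF (algebraMap E F).fieldRange
    (by
      rintro _ ⟨a, rfl⟩
      obtain ⟨b, hb⟩ := B.perf a
      exact ⟨algebraMap E F b, ⟨b, rfl⟩, by rw [← map_pow, hb]⟩)
    (by
      intro x hx
      exact hE x fun ε hε => by
        obtain ⟨_, ⟨y, rfl⟩, hy⟩ := hx ε hε
        exact ⟨y, hy⟩)
  have hM0 : ∀ m ∈ M, T.absF m < 1 → m = 0 := by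
    intro m hm h
    by_contra h0
    have h1 := hM1 _ (M.inv_mem hm)
    rw [map_inv₀] at h1
    have h2 : 0 < T.absF m := T.absF.pos h0
    have h3 := one_lt_inv_iff₀.2 ⟨h2, h⟩
    exact absurd h1 (not_le.2 h3)
  have hex : ∀ c : OT T.toTiltPair K, ∃ m : E, algebraMap E F m ∈ M ∧
      T.absK (algebraMap (OT T.toTiltPair K) C c - T.sharp (algebraMap E F m)) < 1 := by
    intro c
    obtain ⟨x, hx, hxc⟩ := B.θ_surj c.1 c.2
    obtain ⟨e, he⟩ := hx 0
    obtain ⟨m, hm, hm1⟩ := hM (x.coeff 0 : T.O) ⟨e, he⟩ (x.coeff 0).2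
    obtain ⟨m', rfl⟩ := hME hm
    refine ⟨m', hm, ?_⟩
    have h1 : T.θ x = algebraMap (OT T.toTiltPair K) C c := hxc
    have h2 := (Tilting.abs_sub_le T x).trans_lt T.p_lt
    rw [h1] at h2
    have h3 := (sharp_sub_lt T (x.coeff 0).2 (hM1 _ hm)).2 hm1
    have h4 : algebraMap (OT T.toTiltPair K) C c - T.sharp (algebraMap E F m') =
        (algebraMap (OT T.toTiltPair K) C c - T.sharp ((x.coeff 0 : T.O) : F)) +
          (T.sharp ((x.coeff 0 : T.O) : F) - T.sharp (algebraMap E F m')) := by ring
    rw [h4]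
    exact (T.ultraK _ _).trans_lt (max_lt h2 h3)
  have huniq : ∀ (c : OT T.toTiltPair K) (m m' : E), algebraMap E F m ∈ M →
      algebraMap E F m' ∈ M →
      T.absK (algebraMap (OT T.toTiltPair K) C c - T.sharp (algebraMap E F m)) < 1 →
      T.absK (algebraMap (OT T.toTiltPair K) C c - T.sharp (algebraMap E F m')) < 1 →
      m = m' := by
    intro c m m' hm hm' h h'
    have h1 : T.absK (T.sharp (algebraMap E F m) - T.sharp (algebraMap E F m')) < 1 := by
      have h2 : T.sharp (algebraMap E F m) - T.sharp (algebraMap E F m') =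
          -(algebraMap (OT T.toTiltPair K) C c - T.sharp (algebraMap E F m)) +
          (algebraMap (OT T.toTiltPair K) C c - T.sharp (algebraMap E F m')) := by ring
      rw [h2]
      refine (T.ultraK _ _).trans_lt (max_lt ?_ h')
      rwa [AbsoluteValue.map_neg]
    have h2 := (sharp_sub_lt T (hM1 _ hm) (hM1 _ hm')).1 h1
    have h3 := hM0 _ (M.sub_mem hm hm') h2
    rw [sub_eq_zero] at h3
    exact (algebraMap E F).injective h3
  choose τ hτM hτ using hex
  have hle : ∀ c : OT T.toTiltPair K, T.absK (algebraMap (OT T.toTiltPair K) C c) ≤ 1 :=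
    fun c => c.2
  refine ⟨{ toFun := τ, map_one' := ?_, map_mul' := ?_, map_zero' := ?_, map_add' := ?_ }, hτ⟩
  · refine huniq 1 _ _ (hτM 1) (by rw [map_one]; exact M.one_mem) (hτ 1) ?_
    rw [map_one, map_one, map_one, sub_self, map_zero]
    exact one_pos
  · intro c c'
    refine huniq (c * c') _ _ (hτM _) (by rw [map_mul]; exact M.mul_mem (hτM c) (hτM c'))
      (hτ _) ?_
    have h1 : algebraMap (OT T.toTiltPair K) C (c * c') - T.sharp (algebraMap E F (τ c * τ c')) =
        algebraMap (OT T.toTiltPair K) C c *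
          (algebraMap (OT T.toTiltPair K) C c' - T.sharp (algebraMap E F (τ c'))) +
        (algebraMap (OT T.toTiltPair K) C c - T.sharp (algebraMap E F (τ c))) *
          T.sharp (algebraMap E F (τ c')) := by
      rw [map_mul, map_mul, map_mul]
      ring
    rw [h1]
    refine (T.ultraK _ _).trans_lt (max_lt ?_ ?_)
    · rw [map_mul]
      exact mul_lt_one_of_nonneg_of_lt_one_right (hle c) (T.absK.nonneg _) (hτ c')
    · rw [map_mul]
      refine mul_lt_one_of_nonneg_of_lt_one_left (T.absK.nonneg _) (hτ c) ?_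
      rw [T.abs_sharp]
      exact hM1 _ (hτM c')
  · refine huniq 0 _ _ (hτM 0) (by rw [map_zero]; exact M.zero_mem) (hτ 0) ?_
    rw [map_zero, map_zero, T.toTiltPair.sharp_zero, sub_zero, map_zero]
    exact one_pos
  · intro c c'
    refine huniq (c + c') _ _ (hτM _) (by rw [map_add]; exact M.add_mem (hτM c) (hτM c'))
      (hτ _) ?_
    have h0 := (sharp_add_near T (hM1 _ (hτM c)) (hM1 _ (hτM c'))).trans_lt T.p_lt
    have h1 : algebraMap (OT T.toTiltPair K) C (c + c') - T.sharp (algebraMap E F (τ c + τ c')) =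
        (algebraMap (OT T.toTiltPair K) C c - T.sharp (algebraMap E F (τ c))) +
        ((algebraMap (OT T.toTiltPair K) C c' - T.sharp (algebraMap E F (τ c'))) +
        (T.sharp (algebraMap E F (τ c)) + T.sharp (algebraMap E F (τ c')) -
          T.sharp (algebraMap E F (τ c) + algebraMap E F (τ c')))) := by
      rw [map_add, map_add]
      ring
    rw [h1]
    exact (T.ultraK _ _).trans_lt (max_lt (hτ c) ((T.ultraK _ _).trans_lt (max_lt (hτ c') h0)))

end Pool.Agent.Helper45M.AV
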