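import Pool.Agent.Helper45M.AV.All
import Pool.Agent.Helper45M.AV.Fin
import Pool.Agent.Helper45M.AV.Tau
import Pool.Agent.Helper45M.AV.TAU1
set_option autoImplicit false
set_option linter.unusedSectionVars false

/-!
# Definitions for the final statement
-/

open MvPolynomial Pool.Agent.Y129.TA Pool.Agent.Y129.TB Pool.Agent.R388.TP
  Pool.Agent.Helper45M.DB

namespace Pool.Agent.Helper45M.AV

/-- Forms `P`, a matrix `A` of polynomials in two groups of variables and a vector `o`. -/
structure AVData (O : Type) [CommRing O] where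
  n : ℕ
  r : ℕ
  P : Fin r → MvPolynomial (Fin (n + 1)) O
  A : Fin (n + 1) → Fin (n + 1) → MvPolynomial (Fin (n + 1) ⊕ Fin (n + 1)) O
  o : Fin (n + 1) → O

/-- The data define an abelian scheme over the ring of integers of `K`. -/
def IsAV {p : ℕ} {C F : Type} [Field C] [Field F] {T : TiltPair p C F} {K : Type} [Field K]
    [Algebra K C] {κ : Type} [Field κ] (ρ : OT T K →+* κ) (D : AVData (OT T K)) : Prop :=
  IsAbelianModel (algebraMap (OT T K) C) ρ D.P D.A D.o

/-- The cone over the generic fibre, i.e. the common zeros of the `P_l`. -/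
def genericFibre {p : ℕ} {C F : Type} [Field C] [Field F] {T : TiltPair p C F} {K : Type} [Field K]
    [Algebra K C] (D : AVData (OT T K)) : Set (Fin (D.n + 1) → C) :=
  zeros C D.P

/-- The `P_l` define a flat model with reduced special fibre, and it has an inseparable self-map given
by forms of degree `e`. -/
def HasInsepSelfMap {p : ℕ} {C F : Type} [Field C] [Field F] {T : TiltPair p C F} {K : Type}
    [Field K] [Algebra K C] (D : AVData (OT T K)) (e : ℕ) : Prop :=
  IsModel T D.P ∧ ∃ (Ψ : Fin (D.n + 1) → MvPolynomial (Fin (D.n + 1)) (OT T K)) (β : ℝ),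
    β < 1 ∧ IsInseparableMap T D.P D.P Ψ e β

/-- `S = f(X ∩ V(h))` where `X` of dimension `d + c` is the generic fibre of an abelian scheme, `h` consists
of `c` forms over `K` and the `f_j` are forms over `K` of the same degree `e > 0` without common zeros on
`X ∩ V(h)`. -/
def IsAVSection {p : ℕ} {C F : Type} [Field C] [Field F] {T : TiltPair p C F} {K : Type} [Field K]
    [Algebra K C] {κ : Type} [Field κ] (ρ : OT T K →+* κ) {n : ℕ} (S : Set (Fin (n + 1) → C))
    (d : ℕ) : Prop :=
  ∃ (D : AVData (OT T K)) (c e : ℕ) (h : Fin c → MvPolynomial (Fin (D.n + 1)) K)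
    (f : Fin (n + 1) → MvPolynomial (Fin (D.n + 1)) K),
    IsAV ρ D ∧ DimGE (genericFibre D) (d + c) ∧ DimLEOver K (genericFibre D) (d + c) ∧
    (∀ j, IsForm (h j)) ∧ 0 < e ∧ (∀ j, (f j).IsHomogeneous e) ∧
    (∀ z ∈ genericFibre D, (∀ j, aeval z (h j) = 0) → (∀ j, aeval z (f j) = 0) → z = 0) ∧
    S = sectionImage (genericFibre D) h f

/-- There is a homomorphism `ρ` to an algebraically closed field with kernel the maximal ideal. -/
def HasResidue {p : ℕ} {C F : Type} [Field C] [Field F] (T : TiltPair p C F) (K : Type) [Field K]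
    [Algebra K C] : Prop :=
  ∃ (κ : Type) (_ : Field κ) (_ : IsAlgClosed κ) (ρ : OT T K →+* κ), IsResidue T ρ

theorem av_unions {p : ℕ} [hp : Fact p.Prime] {C F K E : Type} [Field C] [Field F] [CharP F p]
    [Field K] [Field E] [Algebra K C] [Algebra E F] [IsAlgClosed C] [IsAlgClosed F] (H : Pieces)
    (T : Tilting p C F) (B : BaseField T K E)
    (hτ : ∃ τ : OT T.toTiltPair K →+* E, IsResLift T.toTiltPair τ) {κ : Type} [Field κ]
    [IsAlgClosed κ] {ρ : OT T.toTiltPair K →+* κ} (hρ : IsResidue T.toTiltPair ρ) {N n d : ℕ}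
    (hN : 0 < N) (S : Fin N → Set (Fin (n + 1) → C)) (hS : ∀ i, IsAVSection ρ (S i) d)
    (hX : DimLEOver K (⋃ i, S i) d) :
    IsConeOver K (⋃ i, S i) ∧ DimGE (⋃ i, S i) d ∧
      Approximable T.toTiltPair K E (⋃ i, S i) d := by
  choose D c e h f h1 h2 h3 h4 h5 h6 h7 h8 using hS
  have h9 : (⋃ i, S i) = ⋃ i, sectionImage (zeros C (D i).P) (h i) (f i) :=
    Set.iUnion_congr fun i => h8 i
  rw [h9] at hX ⊢
  exact av_images H T B hτ hρ hN (fun i => (D i).P) (fun i => (D i).A) (fun i => (D i).o) h1 h2 h3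
    h h4 f h5 h6 h7 hX

end Pool.Agent.Helper45M.AV
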