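import Pool.Agent.Helper45M.AV.Alg
import Pool.Agent.Helper45M.DB.TowerMain
set_option autoImplicit false
set_option linter.unusedSectionVars false

/-!
# Q1 for abelian varieties with good reduction
-/

open MvPolynomial Pool.Agent.Y129.TA Pool.Agent.Y129.TB Pool.Agent.R388.TP
  Pool.Agent.Helper45M.DB

namespace Pool.Agent.Helper45M.AV

variable {p : ℕ} [hp : Fact p.Prime] {C F K E : Type} [Field C] [Field F] [CharP F p] [Field K]
  [Field E] [Algebra K C] [Algebra E F]

instance (T : TiltPair p C F) : IsDomain (OT T K) := inferInstanceAs (IsDomain (OK T K))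

instance (T : TiltPair p C F) : ValuationRing (OT T K) := inferInstanceAs (ValuationRing (OK T K))

/-- The homomorphism `ρ` from the ring of integers of `K` has the maximal ideal as kernel. -/
def IsResidue (T : TiltPair p C F) {κ : Type} [Field κ] {A : Type} [CommRing A] [Algebra A C]
    (ρ : A →+* κ) : Prop :=
  ∀ a, ρ a = 0 ↔ T.absK (algebraMap A C a) < 1

theorem mem_max_iff (T : TiltPair p C F) (a : OT T K) :
    a ∈ IsLocalRing.maximalIdeal (OT T K) ↔ T.absK (algebraMap (OT T K) C a) < 1 := by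
  rw [IsLocalRing.mem_maximalIdeal, mem_nonunits_iff]
  constructor
  · intro h
    by_contra h1
    exact h (isUnit_of_not_mem (T := T) (K := K) (x := a) h1)
  · intro h hu
    exact (Ideal.IsMaximal.ne_top (mK_isMaximal (T := T) (K := K)))
      (Ideal.eq_top_of_isUnit_mem (mK T K) (x := a) h hu)

theorem residue_charP {T : TiltPair p C F} {κ : Type} [Field κ] {ρ : OT T K →+* κ}
    (hρ : IsResidue T ρ) : CharP κ p := by
  rw [CharP.charP_iff_prime_eq_zero hp.out]
  have h1 : ((p : ℕ) : κ) = ρ ((p : ℕ) : OT T K) := by rw [map_natCast]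
  rw [h1, hρ, map_natCast]
  exact T.p_lt

theorem algebraMap_injective (T : TiltPair p C F) :
    Function.Injective (algebraMap (OT T K) C) := by
  intro a b hab
  exact Subtype.ext ((algebraMap K C).injective hab)

/-- The multiplication by `p ^ 2` is an inseparable self-map. -/
theorem av_selfmap [IsAlgClosed C] [IsAlgClosed F] (H : Pieces) (T : Tilting p C F)
    (B : BaseField T K E) {κ : Type} [Field κ]
    [IsAlgClosed κ] {ρ : OT T.toTiltPair K →+* κ} (hρ : IsResidue T.toTiltPair ρ) {n r : ℕ}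
    {P : Fin r → MvPolynomial (Fin (n + 1)) (OT T.toTiltPair K)}
    {A : Fin (n + 1) → Fin (n + 1) →
      MvPolynomial (Fin (n + 1) ⊕ Fin (n + 1)) (OT T.toTiltPair K)}
    {o : Fin (n + 1) → OT T.toTiltPair K}
    (hP : IsAbelianModel (algebraMap (OT T.toTiltPair K) C) ρ P A o) :
    IsModel T.toTiltPair P ∧
      ∃ (Ψ : Fin (n + 1) → MvPolynomial (Fin (n + 1)) (OT T.toTiltPair K)) (β : ℝ), β < 1 ∧
        IsInseparableMap T.toTiltPair P P Ψ (p ^ 4) β := by
  classical
  have hchar : CharP κ p := residue_charP hρ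
  have hmax : ∀ a, ρ a = 0 ↔ a ∈ IsLocalRing.maximalIdeal (OT T.toTiltPair K) := fun a => by
    rw [mem_max_iff]
    exact hρ a
  have hpow : ∀ a, ∃ b, ρ (b ^ p) = ρ a := by
    intro a
    obtain ⟨b, hb⟩ := exists_root_mod T B a
    refine ⟨b, ?_⟩
    rw [← sub_eq_zero, ← map_sub, hρ]
    exact lt_of_le_of_lt hb T.p_lt
  obtain ⟨Ψ, h1, h2, h3, h4⟩ := alg_main H hmax (algebraMap_injective T.toTiltPair) hpow hP
  have hmod : ∀ {S : Set (MvPolynomial (Fin (n + 1)) (OT T.toTiltPair K))}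
      {f : MvPolynomial (Fin (n + 1)) (OT T.toTiltPair K)},
      InMod T.toTiltPair S f ↔ ∃ q ∈ Ideal.span S, ∀ α, ρ (coeff α (f - q)) = 0 := by
    intro S f
    constructor
    · rintro ⟨q, hq, h⟩
      exact ⟨q, hq, fun α => (hρ _).2 (h α)⟩
    · rintro ⟨q, hq, h⟩
      exact ⟨q, hq, fun α => (hρ _).1 (h α)⟩
  -- the radius
  choose g q hq hgq using h4
  have hβi : ∀ i, ∃ β : ℝ, β < 1 ∧ CoeffLE T.toTiltPair (Ψ i - g i ^ p - q i) β := by
    intro i
    by_cases hne : (Ψ i - g i ^ p - q i).support.Nonempty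
    · obtain ⟨α₀, -, hα₀⟩ := Finset.exists_max_image (Ψ i - g i ^ p - q i).support
        (fun α => T.absK (algebraMap _ C (coeff α (Ψ i - g i ^ p - q i)))) hne
      refine ⟨_, (hρ _).1 (hgq i α₀), fun α => ?_⟩
      by_cases hα : α ∈ (Ψ i - g i ^ p - q i).support
      · exact hα₀ α hα
      · rw [notMem_support_iff.1 hα, map_zero, map_zero]
        exact T.absK.nonneg _
    · rw [Finset.not_nonempty_iff_eq_empty, support_eq_empty] at hne
      refine ⟨0, one_pos, fun α => ?_⟩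
      rw [hne, coeff_zero, map_zero, map_zero]
  choose β₀ hβ₀ hβ₁ using hβi
  obtain ⟨i₀, -, hi₀⟩ := Finset.exists_max_image Finset.univ β₀ ⟨0, Finset.mem_univ _⟩
  refine ⟨⟨hP.form, hP.flat, fun f k hf => ?_⟩, Ψ, β₀ i₀, hβ₀ i₀, ?_⟩
  · rw [hmod, mem_bar_iff H p hmax] at hf ⊢
    rw [map_pow] at hf
    exact hP.prime.mem_of_pow_mem _ hf
  · have hp0 := hp.out.pos
    have hp4 : p ^ 2 * p ^ 2 = p ^ 4 := by rw [← pow_add]
    refine ⟨by positivity, fun i => hp4 ▸ h1 i, h2, fun i => ?_, fun i => ?_⟩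
    · obtain ⟨N, hN⟩ := h3 i
      exact ⟨N, hmod.2 hN⟩
    · exact ⟨g i, q i, hq i, fun α => (hβ₁ i α).trans (hi₀ i (Finset.mem_univ i))⟩

/-- Q1 for abelian varieties with good reduction. -/
theorem av_main [IsAlgClosed C] [IsAlgClosed F] (H : Pieces) (T : Tilting p C F)
    (B : BaseField T K E)
    (hτ : ∃ τ : OT T.toTiltPair K →+* E, IsResLift T.toTiltPair τ) {κ : Type} [Field κ]
    [IsAlgClosed κ] {ρ : OT T.toTiltPair K →+* κ} (hρ : IsResidue T.toTiltPair ρ) {n r d : ℕ}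
    {P : Fin r → MvPolynomial (Fin (n + 1)) (OT T.toTiltPair K)}
    {A : Fin (n + 1) → Fin (n + 1) →
      MvPolynomial (Fin (n + 1) ⊕ Fin (n + 1)) (OT T.toTiltPair K)}
    {o : Fin (n + 1) → OT T.toTiltPair K}
    (hP : IsAbelianModel (algebraMap (OT T.toTiltPair K) C) ρ P A o) (hd : DimGE (zeros C P) d) :
    HasQ1 T.toTiltPair K E P d := by
  obtain ⟨hmodel, Ψ, β, hβ, hΨ⟩ := av_selfmap H T B hρ hP
  intro hle
  obtain ⟨τ, hτ⟩ := hτ
  obtain ⟨δ, hδ, hw⟩ := within_of_lift T hτ P hP.form hd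
  exact approximable_of_within T B hP.form (fun ε hε => within_of_tower T B (n := fun _ => n)
    (r := fun _ => r) (e := fun _ => p ^ 4) (P := fun _ => P) (Φ := fun _ => Ψ) hβ hδ
    (fun _ => hmodel) (fun _ => hΨ) (fun _ => hw) hε) hle

end Pool.Agent.Helper45M.AV
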