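import Pool.Agent.Helper45M.AV.Stm
set_option autoImplicit false

/-!
# Models of abelian varieties with good reduction
-/

open MvPolynomial

namespace Pool.Agent.Helper45M.AV

/-- The forms `P l` over `O` define an abelian scheme over `O` in projective space, with zero `o`: the
homogeneous coordinate ring has no torsion and the one of the special fibre is an integrally closed
domain; the `A i j` describe the map `(x, y) ↦ (x + y, x - y)`, both over `L` (generic fibre) and over
`κ` (special fibre). -/
structure IsAbelianModel {O L κ : Type} [CommRing O] [Field L] [Field κ] (ι : O →+* L)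
    (ρ : O →+* κ) {n r : ℕ} (P : Fin r → MvPolynomial (Fin (n + 1)) O)
    (A : Fin (n + 1) → Fin (n + 1) → MvPolynomial (Fin (n + 1) ⊕ Fin (n + 1)) O)
    (o : Fin (n + 1) → O) : Prop where
  form : ∀ l, ∃ D, 0 < D ∧ (P l).IsHomogeneous D
  flat : ∀ (b : O) (s : MvPolynomial (Fin (n + 1)) O), b ≠ 0 →
    MvPolynomial.C b * s ∈ Ideal.span (Set.range P) → s ∈ Ideal.span (Set.range P)
  prime : (Ideal.span (Set.range fun l => map ρ (P l))).IsPrime
  normal : IsNormalIdeal (Ideal.span (Set.range fun l => map ρ (P l)))
  bihom : IsBihom A
  generic : IsGroupLaw ι P A o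
  special : IsGroupLaw ρ P A o

end Pool.Agent.Helper45M.AV
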