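import Pool.Agent.Helper45M.AV.Stm
set_option autoImplicit false

/-!
Auxiliary lemmas for NULLC and EXACT (helper23).
-/

open MvPolynomial

namespace Pool.Agent.Helper45M.AV.NE

/-- Finitely generated modules without torsion over valuation rings are free. -/
theorem free_of_tf {O Q : Type} [CommRing O] [IsDomain O] [ValuationRing O] [AddCommGroup Q]
    [Module O Q] [Module.Finite O Q] (h : ∀ (b : O) (x : Q), b ≠ 0 → b • x = 0 → x = 0) :
    Module.Free O Q := by
  have h1 : Submodule.torsion O Q = ⊥ := by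
    rw [eq_bot_iff]
    rintro x ⟨⟨r, hr⟩, hx⟩
    exact h r x (nonZeroDivisors.ne_zero hr) hx
  haveI : Module.Flat O Q := Module.Flat.flat_iff_torsion_eq_bot_of_isBezout.2 h1
  exact Module.free_of_flat_of_isLocalRing

/-- A submodule `Z` of a finitely generated `V` with `V / Z` without torsion over a valuation ring: it is
finitely generated and `Z ∩ I V = I Z`. -/
theorem sat {O T : Type} [CommRing O] [IsDomain O] [ValuationRing O] [AddCommGroup T]
    [Module O T] (V Z : Submodule O T) (hV : V.FG) (hZ : Z ≤ V)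
    (h : ∀ (b : O) (x : T), b ≠ 0 → x ∈ V → b • x ∈ Z → x ∈ Z) :
    Z.FG ∧ ∀ (I : Ideal O) (v : T), v ∈ Z → v ∈ I • V → v ∈ I • Z := by
  haveI : Module.Finite O V := Module.Finite.iff_fg.2 hV
  let Z' : Submodule O V := Z.comap V.subtype
  haveI : Module.Free O (V ⧸ Z') := by
    apply free_of_tf
    intro b x hb hx
    obtain ⟨y, rfl⟩ := Z'.mkQ_surjective x
    rw [← map_smul, Submodule.mkQ_apply, Submodule.Quotient.mk_eq_zero] at hx
    rw [Submodule.mkQ_apply, Submodule.Quotient.mk_eq_zero]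
    exact h b y hb y.2 hx
  obtain ⟨s, hs⟩ := Module.projective_lifting_property Z'.mkQ LinearMap.id Z'.mkQ_surjective
  let π : V →ₗ[O] V := LinearMap.id - s ∘ₗ Z'.mkQ
  have hπ1 : ∀ v, π v ∈ Z' := by
    intro v
    rw [← Submodule.Quotient.mk_eq_zero, ← Submodule.mkQ_apply]
    have h2 : Z'.mkQ (s (Z'.mkQ v)) = Z'.mkQ v := LinearMap.congr_fun hs (Z'.mkQ v)
    change Z'.mkQ (v - s (Z'.mkQ v)) = 0
    rw [map_sub, h2, sub_self]
  have hπ2 : ∀ v ∈ Z', π v = v := by
    intro v hv
    have h2 : Z'.mkQ v = 0 := by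
      rw [Submodule.mkQ_apply, Submodule.Quotient.mk_eq_zero]; exact hv
    change v - s (Z'.mkQ v) = v
    rw [h2, map_zero, sub_zero]
  have hr : Submodule.map π ⊤ = Z' := by
    apply le_antisymm
    · rintro _ ⟨v, -, rfl⟩
      exact hπ1 v
    · intro v hv
      exact ⟨v, trivial, hπ2 v hv⟩
  have hZ' : Submodule.map V.subtype Z' = Z := by
    simp only [Z']
    rw [Submodule.map_comap_subtype]
    exact inf_eq_right.2 hZ
  refine ⟨?_, ?_⟩
  · rw [← hZ', ← hr]
    exact (Module.Finite.fg_top.map _).map _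
  · intro I v hv hvI
    have h3 : I • V = Submodule.map V.subtype (I • ⊤) := by
      rw [Submodule.map_smul'', Submodule.map_subtype_top]
    rw [h3] at hvI
    obtain ⟨w, hw, rfl⟩ := hvI
    have h4 : π w ∈ I • Z' := by
      rw [← hr, ← Submodule.map_smul'']
      exact ⟨w, hw, rfl⟩
    rw [hπ2 w hv] at h4
    rw [← hZ', ← Submodule.map_smul'']
    exact ⟨w, h4, rfl⟩

variable {O : Type} [CommRing O] {n r : ℕ}

/-- Components of elements of the ideal of the forms `P_l`. -/
theorem comp_mem (P : Fin r → MvPolynomial (Fin (n + 1)) O)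
    (hP : ∀ l, ∃ D, (P l).IsHomogeneous D) {q : MvPolynomial (Fin (n + 1)) O}
    (hq : q ∈ Ideal.span (Set.range P)) (a : ℕ) :
    homogeneousComponent a q ∈ Ideal.span (Set.range P) := by
  letI := MvPolynomial.gradedAlgebra (σ := Fin (n + 1)) (R := O)
  apply homogeneousComponent_mem_of_mem _ hq
  apply Ideal.homogeneous_span
  rintro _ ⟨l, rfl⟩
  obtain ⟨D, hD⟩ := hP l
  exact ⟨D, hD⟩

/-- Elements with coefficients in `I`. -/
theorem mem_smul {T : Type} [AddCommGroup T] [Module O T] (I : Ideal O) (V : Submodule O T)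
    (φ : MvPolynomial (Fin (n + 1)) O →ₗ[O] T) (a : ℕ)
    (hφ : ∀ g : MvPolynomial (Fin (n + 1)) O, g.IsHomogeneous a → φ g ∈ V)
    (f : MvPolynomial (Fin (n + 1)) O) (hf : f.IsHomogeneous a) (hI : ∀ α, coeff α f ∈ I) :
    φ f ∈ I • V := by
  rw [f.as_sum, map_sum]
  apply Submodule.sum_mem
  intro α hα
  have h1 : monomial α (coeff α f) = coeff α f • monomial α (1 : O) := by
    rw [smul_monomial, smul_eq_mul, mul_one]
  rw [h1, map_smul]
  apply Submodule.smul_mem_smul (hI α)
  apply hφ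
  apply isHomogeneous_monomial
  have h3 := hf (mem_support_iff.1 hα)
  rw [Finsupp.degree_eq_weight_one]
  exact h3

end Pool.Agent.Helper45M.AV.NE
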