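import Mathlib
set_option autoImplicit false

/-!
# Project AV (helper45): Q1 of MP_db3ab1_ag for all abelian varieties with good reduction

`O` is a valuation ring (the ring of integers of a perfectoid field `K`), `C` an algebraically closed field
which contains `O` (by `ι`), `ρ : O → κ` a homomorphism to an algebraically closed field `κ` of
characteristic `p` the kernel of which is the maximal ideal. `P_l` are forms over `O` which define an
abelian scheme in `ℙ^n` over `O`, `(A_ij(x, y))` is a matrix of bihomogeneous polynomials of bidegree `(2, 2)`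
with `A_ij(x, y) = (x + y)_i (x - y)_j` (up to a scalar, the same for all `i, j`), and `o` is the zero.

Line of the proof: (MULT) there are forms `Φ^(m)` of degree `m ^ 2` over `O` which define the multiplication
by `m`. (SYM) on the special fibre the derivative of `Φ^(p)` is zero in the projective sense.
(DER) hence the quotients `Φ^(p)_i / Φ^(p)_j` are `p`-th powers of rational functions. (PPOW) hence the forms
`Φ^(p)_i(Φ^(p))` are `p`-th powers in the homogeneous coordinate ring of the special fibre. (LIFT) So the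
multiplication by `p ^ 2` is an inseparable self-map, and `InseparableTowers` gives Q1.

Below: the definitions and the statements of the pieces (`S_XXX : Prop`), with proofs in the docstrings.
Everything needs Mathlib only.
-/

open MvPolynomial

namespace Pool.Agent.Helper45M.AV

/-- The zeros in `k ^ (n + 1)` of the polynomials `P l` with coefficients mapped to `k` by `φ`. -/
def pts {O k : Type} [CommRing O] [CommRing k] (φ : O →+* k) {n r : ℕ}
    (P : Fin r → MvPolynomial (Fin (n + 1)) O) : Set (Fin (n + 1) → k) :=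
  {x | ∀ l, eval₂ φ x (P l) = 0}

/-- The quotient by `I` is integrally closed: if `f / g` satisfies a monic equation of degree `k` with
coefficients in `R` modulo `I`, then `f` is a multiple of `g` modulo `I`. -/
def IsNormalIdeal {R : Type} [CommRing R] (I : Ideal R) : Prop :=
  ∀ (f g : R) (k : ℕ) (c : Fin k → R), g ∉ I →
    f ^ k + ∑ i : Fin k, c i * g ^ (k - (i : ℕ)) * f ^ (i : ℕ) ∈ I → ∃ h, f - g * h ∈ I

/-- The `A i j` are homogeneous of degree `2` in the first and in the second group of variables. -/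
def IsBihom {O : Type} [CommRing O] {n : ℕ}
    (A : Fin (n + 1) → Fin (n + 1) → MvPolynomial (Fin (n + 1) ⊕ Fin (n + 1)) O) : Prop :=
  ∀ i j, (A i j).IsWeightedHomogeneous (Sum.elim (fun _ => 1) (fun _ => 0) : _ → ℕ) 2 ∧
    (A i j).IsWeightedHomogeneous (Sum.elim (fun _ => 0) (fun _ => 1) : _ → ℕ) 2

/-- The points over `k` of the projective variety defined by the `P l` are a commutative group with
zero `o`, and `A i j` describes the map `(x, y) ↦ (x + y, x - y)`: `A_ij(x, y) = s_i d_j` where `s`, `d` are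
homogeneous coordinates of `x + y`, `x - y`. (`π x` is the point with homogeneous coordinates `x`.) -/
def IsGroupLaw {O k : Type} [CommRing O] [Field k] (φ : O →+* k) {n r : ℕ}
    (P : Fin r → MvPolynomial (Fin (n + 1)) O)
    (A : Fin (n + 1) → Fin (n + 1) → MvPolynomial (Fin (n + 1) ⊕ Fin (n + 1)) O)
    (o : Fin (n + 1) → O) : Prop :=
  (fun i => φ (o i)) ∈ pts φ P ∧ (fun i => φ (o i)) ≠ 0 ∧
  ∃ (Γ : Type) (_ : AddCommGroup Γ) (π : (Fin (n + 1) → k) → Γ), π (fun i => φ (o i)) = 0 ∧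
    (∀ x ∈ pts φ P, ∀ y ∈ pts φ P, x ≠ 0 → y ≠ 0 → (π x = π y ↔ ∃ c : k, y = c • x)) ∧
    ∀ x ∈ pts φ P, ∀ y ∈ pts φ P, x ≠ 0 → y ≠ 0 → ∃ s ∈ pts φ P, ∃ d ∈ pts φ P,
      s ≠ 0 ∧ d ≠ 0 ∧ π s = π x + π y ∧ π d = π x - π y ∧
        ∀ i j, eval₂ φ (Sum.elim x y) (A i j) = s i * d j

/-- The forms `Φ m i` of degree `m ^ 2` describe the multiplication by `m`, over `L` and over `κ`. -/
structure IsMult {O L κ : Type} [CommRing O] [Field L] [Field κ] (ι : O →+* L) (ρ : O →+* κ)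
    {n r : ℕ} (P : Fin r → MvPolynomial (Fin (n + 1)) O)
    (A : Fin (n + 1) → Fin (n + 1) → MvPolynomial (Fin (n + 1) ⊕ Fin (n + 1)) O)
    (o : Fin (n + 1) → O) (Φ : ℕ → Fin (n + 1) → MvPolynomial (Fin (n + 1)) O) : Prop where
  hom : ∀ m i, (Φ m i).IsHomogeneous (m ^ 2)
  zero : ∀ i, Φ 0 i = C (o i)
  one : ∀ i, Φ 1 i = X i
  rel : ∀ m i j, aeval (Sum.elim (Φ (m + 1)) X) (A i j) - Φ (m + 2) i * Φ m j ∈
    Ideal.span (Set.range P)
  ptC : ∀ m, ∀ x ∈ pts ι P, x ≠ 0 →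
    (fun i => eval₂ ι x (Φ m i)) ∈ pts ι P ∧ (fun i => eval₂ ι x (Φ m i)) ≠ 0
  ptκ : ∀ m, ∀ x ∈ pts ρ P, x ≠ 0 →
    (fun i => eval₂ ρ x (Φ m i)) ∈ pts ρ P ∧ (fun i => eval₂ ρ x (Φ m i)) ≠ 0

/-- EBAR (100-150 lines). Let `I = (P)` be a homogeneous prime ideal with `κ[x] / I` normal, `Ψ_j` forms of
degree `f` without common zeros (some power of each `X_i` is in `I + (Ψ)`), `U_j` forms of degree `e + f` with
`U_j Ψ_k = U_k Ψ_j` modulo `I`. Then `U_j = φ Ψ_j` modulo `I` with a form `φ` of degree `e`.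

Proof. Some `Ψ_k₀ ∉ I` (else `X_i ^ N ∈ I` for all `i`, but some `X_i ∉ I`, prime). It suffices to find a form `φ`
of degree `e` with `U_k₀ - φ Ψ_k₀ ∈ I` (then `Ψ_k₀ (U_j - φ Ψ_j) ∈ I`). Let
`𝔞 = {s | s U_k₀ ∈ (Ψ_k₀) + I}`. It is an ideal, homogeneous (`I` is homogeneous as the `P_l` are forms, and
`U_k₀`, `Ψ_k₀` are forms: take homogeneous components), it contains `I` and the `Ψ_j`, hence the `X_i ^ N`, hence
all forms of large degree. If `1 ∈ 𝔞`, take the component of degree `e` of the quotient. Otherwise let `b`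
be minimal such that all forms of degree `≥ b` are in `𝔞`; `b ≥ 1`, and there is a form `s ∉ 𝔞` of
degree `b - 1`, with `X_i s ∈ 𝔞`: `X_i s U_k₀ - v_i Ψ_k₀ ∈ I`, and we may assume that `v_i` is a form of degree
`b + e ≥ 1` (component). So `v_i = ∑_j g_ij X_j`. Let `S = κ[x] / I`, `K` its fraction field,
`w = s U_k₀ / Ψ_k₀ ∈ K`, `N ⊆ K` the `S`-submodule generated by the images of the `X_i`; `N ≠ 0`, and
`w N ⊆ N` as `w X_i = v_i`. So `w` is integral over `S` (`isIntegral_of_smul_mem_submodule`), and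
`IsNormalIdeal` (clear denominators in the monic equation of `w`) gives `s U_k₀ - Ψ_k₀ h ∈ I`, that is,
`s ∈ 𝔞`, a contradiction. -/
def S_EBAR : Prop := ∀ (κ : Type) [Field κ] (n r e f : ℕ)
  (P : Fin r → MvPolynomial (Fin (n + 1)) κ) (Ψ U : Fin (n + 1) → MvPolynomial (Fin (n + 1)) κ),
  (∀ l, ∃ D, (P l).IsHomogeneous D) → (Ideal.span (Set.range P)).IsPrime →
  IsNormalIdeal (Ideal.span (Set.range P)) → (∃ i, X i ∉ Ideal.span (Set.range P)) →
  (∀ i, ∃ N, X i ^ N ∈ Ideal.span (Set.range P) ⊔ Ideal.span (Set.range Ψ)) →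
  (∀ j, (Ψ j).IsHomogeneous f) → (∀ j, (U j).IsHomogeneous (e + f)) →
  (∀ j k, U j * Ψ k - U k * Ψ j ∈ Ideal.span (Set.range P)) →
  ∃ φ : MvPolynomial (Fin (n + 1)) _, φ.IsHomogeneous e ∧
    ∀ j, U j - φ * Ψ j ∈ Ideal.span (Set.range P)

/-- EXACT (100 lines). Lifting of exactness from the residue field to the valuation ring `O` (Nakayama).

Proof. Let `W_a` be the module of forms of degree `a` over `O` (finite free), `V = W_(e+f) ^ (n+1)`,
`Z = {V | V_j Ψ_k - V_k Ψ_j ∈ (P) for all j, k}`, a submodule of `V`. `V / Z` is finitely generated, and it is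
torsion free by `flat`; `O` is a valuation ring, so it is flat (Mathlib: torsion free modules over Bezout
domains are flat, `Mathlib/RingTheory/Flat/TorsionFree.lean`), and as `O` is local it is free
(`Module.free_of_flat_of_isLocalRing`). So `Z` is a direct summand of `V`: there is a linear projection
`V → Z` (`Module.projective_lifting_property` / `Submodule.exists_isCompl` type argument), hence `Z` is
finitely generated and `Z ∩ 𝔪 V = 𝔪 Z`. Let `N ⊆ Z` be the submodule of all `(φ Ψ_j + b_j)_j` with `φ ∈ W_e`,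
`b_j ∈ (P) ∩ W_(e+f)`. By the hypothesis on residues every `v ∈ Z` is `φ Ψ + q + m`, with `q_j ∈ (P)`
and `m_j` with coefficients in `𝔪`; taking components of degree `e + f` (the `P_l` are forms) we may assume
`q_j, m_j ∈ W_(e+f)`; so `m ∈ 𝔪 V ∩ Z = 𝔪 Z` and `Z = N + 𝔪 Z`, hence `Z = N` by Nakayama
(`Submodule.le_of_le_smul_of_le_jacobson_bot`). -/
def S_EXACT : Prop := ∀ (O : Type) [CommRing O] [IsDomain O] [ValuationRing O] (n r e f : ℕ)
  (P : Fin r → MvPolynomial (Fin (n + 1)) O) (Ψ U : Fin (n + 1) → MvPolynomial (Fin (n + 1)) O),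
  (∀ l, ∃ D, (P l).IsHomogeneous D) →
  (∀ (b : O) (s : MvPolynomial (Fin (n + 1)) O), b ≠ 0 →
    C b * s ∈ Ideal.span (Set.range P) → s ∈ Ideal.span (Set.range P)) →
  (∀ j, (Ψ j).IsHomogeneous f) →
  (∀ V : Fin (n + 1) → MvPolynomial (Fin (n + 1)) O, (∀ j, (V j).IsHomogeneous (e + f)) →
    (∀ j k, V j * Ψ k - V k * Ψ j ∈ Ideal.span (Set.range P)) →
    ∃ φ : MvPolynomial (Fin (n + 1)) O, φ.IsHomogeneous e ∧ ∀ j, ∃ q ∈ Ideal.span (Set.range P),
      ∀ α, coeff α (V j - φ * Ψ j - q) ∈ IsLocalRing.maximalIdeal O) →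
  (∀ j, (U j).IsHomogeneous (e + f)) →
  (∀ j k, U j * Ψ k - U k * Ψ j ∈ Ideal.span (Set.range P)) →
  ∃ φ : MvPolynomial (Fin (n + 1)) _, φ.IsHomogeneous e ∧
    ∀ j, U j - φ * Ψ j ∈ Ideal.span (Set.range P)

/-- NULLC (100 lines). A form over the valuation ring `O` which vanishes at all points over `C` is in `(P)`, if
`(P)` is flat with reduced special fibre.

Proof. Hilbert's Nullstellensatz over `C` (`MvPolynomial.vanishingIdeal_zeroLocus_eq_radical`): some power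
`(map ι f) ^ N` is in the ideal of `C[x]` generated by the `map ι (P l)`: `= ∑ Q_l map ι (P l)`. Descent to `O`: the
fraction field `L` of `O` is a subfield of `C`; choose an `L`-linear `λ : C → L` with `λ(1) = 1` and apply
it to all the coefficients (the `P_l` and `f ^ N` have coefficients in `O`): so we may assume that the
`Q_l` have coefficients in `L`, and after clearing denominators `C b * f ^ N ∈ (P)`, `b ≠ 0`. By `flat`
`f ^ N ∈ (P)`. Now let `W` be the finite free module of forms of degree `a` and `M = W / (W ∩ (P))`; it is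
finitely generated and torsion free by `flat`, hence free (see EXACT). If the image of `f` in `M` is not
`0`, its coordinates in a basis are multiples of one of them, `c ≠ 0` (valuation ring): `f - C c * w ∈ (P)` with a form
`w` of degree `a` one of whose coordinates is `1`. Then `C (c ^ N) * w ^ N ∈ (P)` (as `f ^ N ∈ (P)`), so
`w ^ N ∈ (P)` by `flat`, and by `reduced` `w - q` has coefficients in `𝔪` for some `q ∈ (P)` (we may assume
that `q` is a form of degree `a`, as the `P_l` are forms), so all coordinates of `w` in `M` are in `𝔪`, a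
contradiction. -/
def S_NULLC : Prop := ∀ (O L : Type) [CommRing O] [IsDomain O] [ValuationRing O] [Field L]
  [IsAlgClosed L] (ι : O →+* L) (n r a : ℕ) (P : Fin r → MvPolynomial (Fin (n + 1)) O)
  (f : MvPolynomial (Fin (n + 1)) O), Function.Injective ι →
  (∀ l, ∃ D, (P l).IsHomogeneous D) →
  (∀ (b : O) (s : MvPolynomial (Fin (n + 1)) O), b ≠ 0 →
    C b * s ∈ Ideal.span (Set.range P) → s ∈ Ideal.span (Set.range P)) →
  (∀ (g : MvPolynomial (Fin (n + 1)) O) (k : ℕ),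
    (∃ q ∈ Ideal.span (Set.range P), ∀ α, coeff α (g ^ k - q) ∈ IsLocalRing.maximalIdeal O) →
    ∃ q ∈ Ideal.span (Set.range P), ∀ α, coeff α (g - q) ∈ IsLocalRing.maximalIdeal O) →
  f.IsHomogeneous a → (∀ x ∈ pts ι P, eval₂ ι x f = 0) → f ∈ Ideal.span (Set.range P)

/-- MULT (150 lines). The forms `Φ^(m)`, by recursion on `m`, given NULLC and EXACT (hypotheses `hN`, `hE`).

Proof. `Φ^(0)_i = C (o i)`, `Φ^(1)_i = X_i`. Invariant for `m` (both for `(L, ι)` and for `(κ, ρ)`, with the `π` of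
the group law): the `Φ^(m)_i` are forms of degree `m ^ 2`, and for nonzero `x ∈ pts` the point
`Φ^(m)(x)` is nonzero, in `pts` and `π (Φ^(m)(x)) = m • π x`. Step: from `Φ = Φ^(m+1)` and `Ψ = Φ^(m)` we get
`Φ^(m+2)`. Let `U_ij = A_ij(Φ, X)`, a form of degree `2 (m+1) ^ 2 + 2 = (m+2) ^ 2 + m ^ 2` (bihomogeneity). For a
nonzero `x ∈ pts ι P`: `U_ij(x) = s_i d_j`, `π s = (m+2) π x`, `π d = m π x`, so
`Ψ(x) = c d`, and `(U_ij Ψ_k - U_ik Ψ_j)(x) = 0`; for `x = 0` this holds too (if the degree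
`(m+2) ^ 2 + 2 m ^ 2 > 0`, a form of positive degree vanishes at `0`). So `U_ij Ψ_k - U_ik Ψ_j ∈ (P)` by `hN`, and
by `hE` (with `e = (m+2) ^ 2`, `f = m ^ 2`, for every fixed `i`) there is a form `φ_i =: Φ^(m+2)_i` of degree
`(m+2) ^ 2` with `U_ij - φ_i Ψ_j ∈ (P)`. Points (over `L` and over `κ`): `s_i d_j = φ_i(x) Ψ_j(x)`, `Ψ(x) = c d`,
`c ≠ 0`, some `d_j ≠ 0`; so `s_i = c φ_i(x)`; `φ(x)` is nonzero, proportional to `s`, in `pts` (the `P_l` are
forms), `π (φ(x)) = π s`. (For the recursion: a sequence of pairs with the invariant, or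
`exists_seq`-type choice from `∀ (Φ_m, Φ_(m+1)) with invariant ∃ Φ_(m+2)`.) -/
def S_MULT : Prop := ∀ (O L κ : Type) [CommRing O] [Field L] [Field κ] (ι : O →+* L) (ρ : O →+* κ)
  (n r : ℕ) (P : Fin r → MvPolynomial (Fin (n + 1)) O)
  (A : Fin (n + 1) → Fin (n + 1) → MvPolynomial (Fin (n + 1) ⊕ Fin (n + 1)) O)
  (o : Fin (n + 1) → O),
  (∀ l, ∃ D, 0 < D ∧ (P l).IsHomogeneous D) → IsBihom A → IsGroupLaw ι P A o →
  IsGroupLaw ρ P A o →
  (∀ (a : ℕ) (f : MvPolynomial (Fin (n + 1)) O), f.IsHomogeneous a →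
    (∀ x ∈ pts ι P, eval₂ ι x f = 0) → f ∈ Ideal.span (Set.range P)) →
  (∀ (e f : ℕ) (Ψ U : Fin (n + 1) → MvPolynomial (Fin (n + 1)) O),
    (∀ j, (Ψ j).IsHomogeneous f) → (∀ j, (U j).IsHomogeneous (e + f)) →
    (∀ x ∈ pts ρ P, (∀ j, eval₂ ρ x (Ψ j) = 0) → x = 0) →
    (∀ j k, U j * Ψ k - U k * Ψ j ∈ Ideal.span (Set.range P)) →
    ∃ φ : MvPolynomial (Fin (n + 1)) O, φ.IsHomogeneous e ∧
      ∀ j, U j - φ * Ψ j ∈ Ideal.span (Set.range P)) →
  ∃ Φ, IsMult ι ρ P A o Φ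

/-- The iterated addition in the ring `R`: `B z 0 = z 0`, `B z (m + 1) = (A_ij(B z m, z (m + 1)))_i`,
`j = jj (m + 1)`. The coordinates of the sum of the points `z 0, ..., z m` (times a scalar). -/
noncomputable def B {κ R : Type} [Field κ] [CommRing R] [Algebra κ R] {n : ℕ}
    (A : Fin (n + 1) → Fin (n + 1) → MvPolynomial (Fin (n + 1) ⊕ Fin (n + 1)) κ)
    (jj : ℕ → Fin (n + 1)) (z : ℕ → Fin (n + 1) → R) : ℕ → Fin (n + 1) → R
  | 0 => z 0
  | m + 1 => fun i => aeval (Sum.elim (B A jj z m) (z (m + 1))) (A i (jj (m + 1)))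

/-- SYM1 (60 lines). The derivative of `B z m` is the sum of the partial derivatives. `b_i`: the value at
`z_l = x` for all `l`; `w_l,i`: the derivative when only the point `z_l` moves in the direction `v`.
(Functoriality is part of the statement.)

Proof. Functoriality: induction on `m`, `map_aeval`-type lemma. Second part: let
`R = TrivSqZeroExt κ (ℕ → κ)` (or `Fin (m+1) → κ`), and `ε_l = inr (Pi.single l 1)`. Let `z_l = x + ε_l v` in `R`
(all `l`). For `a : ℕ → κ` with finite support there is the `κ`-algebra homomorphism `R → DualNumber κ`,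
`inr u ↦ ε ∑_{l ≤ m} a_l u_l` (`TrivSqZeroExt.map`, a linear map), which sends `z_l` to `x + ε a_l v`
for `l ≤ m`. By functoriality `B (x + ε a_l v) m = b + ε ∑_l a_l w_l` with `w_l` the `l`-th coordinate of the
second component of `B z m`. Take `a = 1` and `a = 1` at `l` and `0` elsewhere. (The values of `z l` for
`l > m` do not matter for `B z m`; induction.) -/
def S_SYM1 : Prop := ∀ (κ : Type) [Field κ] (n : ℕ)
  (A : Fin (n + 1) → Fin (n + 1) → MvPolynomial (Fin (n + 1) ⊕ Fin (n + 1)) κ)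
  (jj : ℕ → Fin (n + 1)),
  (∀ (R R' : Type) [CommRing R] [Algebra κ R] [CommRing R'] [Algebra κ R'] (θ : R →ₐ[κ] R')
    (z : ℕ → Fin (n + 1) → R) (m : ℕ) (i : Fin (n + 1)),
      θ (B A jj z m i) = B A jj (fun l i => θ (z l i)) m i) ∧
  ∀ (m : ℕ) (x v : Fin (n + 1) → κ), ∃ (b : Fin (n + 1) → κ) (w : ℕ → Fin (n + 1) → κ),
    (∀ i, B A jj (fun _ => x) m i = b i) ∧
    (∀ i, B A jj (fun _ i => (TrivSqZeroExt.inl (x i) + TrivSqZeroExt.inr (v i) : DualNumber κ)) m i =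
      TrivSqZeroExt.inl (b i) + TrivSqZeroExt.inr (∑ l ∈ Finset.range (m + 1), w l i)) ∧
    ∀ k ∈ Finset.range (m + 1), ∀ i,
      B A jj (fun l i => if l = k then
        (TrivSqZeroExt.inl (x i) + TrivSqZeroExt.inr (v i) : DualNumber κ)
          else TrivSqZeroExt.inl (x i)) m i = TrivSqZeroExt.inl (b i) + TrivSqZeroExt.inr (w k i)

/-- SYM (150 lines; uses SYM1). The differential of the multiplication by `p` is zero in characteristic
`p`: for every derivation `D` of `κ[x]` which preserves `I = (P)` the polynomials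
`Φ_i D(Φ_j) - Φ_j D(Φ_i)`, `Φ = Φ^(p)`, are in `I`.

Proof. Choose `jj (m + 1)` with `Φ^(m)_(jj (m+1)) ∉ I` (`jj 0` arbitrary). (a) Let `G^(m) = B (X, X, ...) m` over
`R = κ[x]`; by induction `G^(m)_i - c_m Φ^(m+1)_i ∈ I` with `c_0 = 1`,
`c_(m+1) = c_m ^ 2 Φ^(m)_(jj (m+1))`: `A_ij(c Φ^(m+1), X) = c ^ 2 A_ij(Φ^(m+1), X)` by bihomogeneity, and `rel`. So
`c_m ∉ I`, as `I` is prime. (b) For nonzero points `z_0, ..., z_m ∈ pts`: `B z m = c s` with `c ∈ κ`, `s ∈ pts`,
`s ≠ 0`, `π s = ∑_{l ≤ m} π (z_l)` (induction, bihomogeneity for `c`). If one of the `z_l`, `l ≤ m`, is `0` then `B z m = 0`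
(bihomogeneity). (c) Fix `x ∈ pts` and `k, k' ≤ m := p - 1`; let `F_k = B z m` over `R = κ[x]` with `z_l = x`
(constants) for `l ≠ k`, `z_k = X`. By (b) the polynomial `F_k,i F_k',j - F_k,j F_k',i` vanishes at all
`z ∈ pts` (both are multiples of coordinates of the point `(p - 1) x + z`; functoriality for the evaluation
`κ[x] → κ`), so by the Nullstellensatz (`I` prime) it is in `I`. (d) Let `D` preserve `I`, `x ∈ pts`, and
`θ : κ[x] → κ[ε]`, `θ(f) = f(x) + ε (D f)(x)`; it is a `κ`-algebra homomorphism which kills `I`, and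
`θ(X_i) = x_i + ε v_i`, `v_i = (D X_i)(x)`. Apply `θ` to (c), with SYM1 (`b`, `w_k`):
`b_i w_k',j + w_k,i b_j = b_j w_k',i + w_k,j b_i`, i.e. `δ = b_i w_k,j - b_j w_k,i` does not depend on `k`. So
`b_i (∑_k w_k,j) - b_j (∑_k w_k,i) = p δ = 0`. (e) Apply `θ` to (a): `b_i = c(x) Φ_i(x)`,
`∑_k w_k,i = c(x) (D Φ_i)(x) + (D c)(x) Φ_i(x)`, `c = c_(p-1)`, `Φ = Φ^(p)`. Hence
`c(x) ^ 2 (Φ_i D Φ_j - Φ_j D Φ_i)(x) = 0` for all nonzero `x ∈ pts`, and for `x = 0` as `Φ_i(0) = 0`, so `c ^ 2 (Φ_i D Φ_j - Φ_j D Φ_i) ∈ I` and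
`c ∉ I`. -/
def S_SYM : Prop := ∀ (p : ℕ) [Fact p.Prime] (κ : Type) [Field κ] [IsAlgClosed κ] [CharP κ p]
  (n r : ℕ) (P : Fin r → MvPolynomial (Fin (n + 1)) κ)
  (A : Fin (n + 1) → Fin (n + 1) → MvPolynomial (Fin (n + 1) ⊕ Fin (n + 1)) κ)
  (o : Fin (n + 1) → κ) (Φ : ℕ → Fin (n + 1) → MvPolynomial (Fin (n + 1)) κ),
  (∀ l, ∃ D, 0 < D ∧ (P l).IsHomogeneous D) → (Ideal.span (Set.range P)).IsPrime → IsBihom A →
  IsGroupLaw (RingHom.id κ) P A o → (∀ m i, (Φ m i).IsHomogeneous (m ^ 2)) →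
  (∀ i, Φ 0 i = C (o i)) → (∀ i, Φ 1 i = X i) →
  (∀ m i j, aeval (Sum.elim (Φ (m + 1)) X) (A i j) - Φ (m + 2) i * Φ m j ∈
    Ideal.span (Set.range P)) →
  (∀ m, ∃ j, Φ m j ∉ Ideal.span (Set.range P)) →
  ∀ D : Derivation κ (MvPolynomial (Fin (n + 1)) κ) (MvPolynomial (Fin (n + 1)) κ),
    (∀ f ∈ Ideal.span (Set.range P), D f ∈ Ideal.span (Set.range P)) →
    ∀ i j, Φ p i * D (Φ p j) - Φ p j * D (Φ p i) ∈ Ideal.span (Set.range P)

/-- DER1 (60-100 lines). In a field of characteristic `p` an element which is not a `p`-th power is not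
killed by some derivation.

Proof. Zorn: a subfield `M ⊇ K ^ p` of `K`, maximal among those with `h ∉ M` (unions of chains). `h ^ p ∈ M` and
`h ∉ M`, so `X ^ p - h ^ p` is irreducible over `M` (`X_pow_sub_C_irreducible_of_prime`; a root in `M` of it
would be `h`), it is the minimal polynomial of `h`, `[M(h) : M] = p`. If `y ∈ K`, `y ∉ M`, then `h ∈ M(y)` by
maximality, and `[M(y) : M] = p` in the same way, so `M(y) = M(h) ∋ y`. So `K = M(h) = M[T] / (T ^ p - h ^ p)`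
(`AdjoinRoot` or the power basis), and the derivation `d/dT` of `M[T]` maps the ideal `(T ^ p - h ^ p)` to
itself (`p = 0`), hence gives a derivation of `K` with `δ h = 1`. (Alternative: every `y ∈ K` is uniquely
`∑_{i < p} y_i h ^ i`, put `δ y = ∑ i y_i h ^ (i - 1)`.) -/
def S_DER1 : Prop := ∀ (p : ℕ) [Fact p.Prime] (K : Type) [Field K] [CharP K p] (h : K),
  (∀ a : K, a ^ p ≠ h) → ∃ δ : Derivation ℤ K K, δ h ≠ 0

/-- DER2 (80 lines; uses DER1). If `g D f - f D g ∈ I` for all derivations `D` of `κ[x]` which preserve the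
prime ideal `I`, then `f / g` is a `p`-th power in the fraction field of `κ[x] / I`.

Proof. Let `K` be the fraction field of `κ[x] / I`, of characteristic `p`, `ξ_i` the image of `X_i`, `h = f(ξ) / g(ξ)`.
If `h` is a `p`-th power, `h = (a / b) ^ p`, we are done. Otherwise let `δ` be as in DER1. `δ` kills `p`-th
powers, in particular `κ` (algebraically closed), so `δ(F(ξ)) = ∑_i (∂F/∂X_i)(ξ) δ(ξ_i)` for `F ∈ κ[x]`. Let
`δ(ξ_i) = c_i(ξ) / s(ξ)` with a common denominator `s ∉ I`, and `D = ∑ c_i ∂/∂X_i` (`MvPolynomial.mkDerivation κ c`).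
Then `(D F)(ξ) = s(ξ) δ(F(ξ))`, so `D` preserves `I`; hence `g D f - f D g ∈ I`, i.e.
`g(ξ) δ(f(ξ)) = f(ξ) δ(g(ξ))`, `δ h = 0`, a contradiction. -/
def S_DER2 : Prop := S_DER1 → ∀ (p : ℕ) [Fact p.Prime] (κ : Type) [Field κ] [IsAlgClosed κ]
  [CharP κ p] (n : ℕ) (I : Ideal (MvPolynomial (Fin (n + 1)) κ)), I.IsPrime →
  ∀ f g : MvPolynomial (Fin (n + 1)) κ, g ∉ I →
    (∀ D : Derivation κ (MvPolynomial (Fin (n + 1)) κ) (MvPolynomial (Fin (n + 1)) κ),
      (∀ h ∈ I, D h ∈ I) → g * D f - f * D g ∈ I) →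
    ∃ a b, b ∉ I ∧ f * b ^ p - g * a ^ p ∈ I

/-- PPOW (60 lines). If the quotients `Φ_i / Φ_j₀` are `p`-th powers of rational functions then the
forms `Φ_i(Φ)` are `p`-th powers modulo `I`.

Proof. Common denominator: `Φ_l b ^ p - Φ_j₀ a_l ^ p ∈ I` for all `l`, `b ∉ I` (product of the `b`'s). Let `F'` be the
polynomial with `F' ^ p = Φ_i(X_0 ^ p, ..., X_n ^ p)` (`p`-th roots of the coefficients; `F'` has the same
exponents as `Φ_i`, so it is a form of degree `p e`). Modulo `I`: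
`b ^ (p (p e)) Φ_i(Φ) = Φ_i(b ^ p Φ) = Φ_i(Φ_j₀ a ^ p) = Φ_j₀ ^ (p e) Φ_i(a ^ p) = (Φ_j₀ ^ e F'(a)) ^ p`. With `f = Φ_j₀ ^ e F'(a)`,
`g = b ^ (p e) ∉ I` we have `f ^ p - g ^ p Φ_i(Φ) ∈ I`, so by `IsNormalIdeal` (`k = p`, `c_0 = - Φ_i(Φ)`, the other
`c` are `0`) `f - g h ∈ I`, `g ^ p (h ^ p - Φ_i(Φ)) ∈ I` (characteristic `p`), and `I` is prime. -/
def S_PPOW : Prop := ∀ (p : ℕ) [Fact p.Prime] (κ : Type) [Field κ] [IsAlgClosed κ] [CharP κ p]
  (n e : ℕ) (I : Ideal (MvPolynomial (Fin (n + 1)) κ)), I.IsPrime → IsNormalIdeal I →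
  ∀ (Φ : Fin (n + 1) → MvPolynomial (Fin (n + 1)) κ) (j₀ : Fin (n + 1)),
    (∀ i, (Φ i).IsHomogeneous (p * e)) → Φ j₀ ∉ I →
    (∀ i, ∃ a b, b ∉ I ∧ Φ i * b ^ p - Φ j₀ * a ^ p ∈ I) →
    ∀ i, ∃ g, aeval Φ (Φ i) - g ^ p ∈ I

/-- LIFT (100 lines). Descent from `κ` to the image of `O` (the residue field), and lifting to `O`.

Proof. `k = ρ(O)` is a subfield of `κ` (`hρ`). Choose a `k`-linear `λ : κ → k` with `λ(1) = 1`, i.e. an
additive `λ : κ → κ` with `λ(ρ(a) x) = ρ(a) λ(x)`, `λ(1) = 1` and values in `ρ(O)`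
(`LinearMap.exists_leftInverse_of_injective` for vector spaces over the subfield `k`). Apply it to the
coefficients: `Λ : κ[x] → κ[x]` is additive, `Λ(map ρ f * q) = map ρ f * Λ(q)` (coefficients of a product),
`Λ(map ρ f) = map ρ f`, all `Λ(q)` are of the form `map ρ f` (choose preimages of the finitely many
coefficients), and `Λ` preserves forms.
(1) `map ρ f = ∑ q_s map ρ s` implies `map ρ f = ∑ Λ(q_s) map ρ s = map ρ (∑ q'_s s)`.
(2) `map ρ (V j) - φ map ρ (Ψ j) ∈ (map ρ P)` for all `j` implies the same for `Λ(φ)`; lift `Λ(φ)` to a form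
over `O` (`0` at the other exponents), and use (1).
(3) `Λ(g ^ p)`: as `g ^ p = ∑ g_α ^ p x ^ (p α)`, `Λ(g ^ p) = ∑ λ(g_α ^ p) x ^ (p α)`, and
`λ(g_α ^ p) = ρ(c_α) = ρ(b_α ^ p)`, so it is `map ρ ((∑ b_α x ^ α) ^ p)` (characteristic `p`). Now apply (1) to
`f - (∑ b_α x ^ α) ^ p`. -/
def S_LIFT : Prop := ∀ (p : ℕ) [Fact p.Prime] (O κ : Type) [CommRing O] [Field κ] [CharP κ p]
  (ρ : O →+* κ), (∀ a, ρ a ≠ 0 → IsUnit a) → ∀ n : ℕ,
  (∀ (S : Set (MvPolynomial (Fin (n + 1)) O)) (f : MvPolynomial (Fin (n + 1)) O),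
    map ρ f ∈ Ideal.span (map ρ '' S) →
      ∃ q ∈ Ideal.span S, ∀ α, ρ (coeff α (f - q)) = 0) ∧
  (∀ (S : Set (MvPolynomial (Fin (n + 1)) O)) (e : ℕ)
    (V Ψ : Fin (n + 1) → MvPolynomial (Fin (n + 1)) O) (φ : MvPolynomial (Fin (n + 1)) κ),
    φ.IsHomogeneous e → (∀ j, map ρ (V j) - φ * map ρ (Ψ j) ∈ Ideal.span (map ρ '' S)) →
      ∃ φ' : MvPolynomial (Fin (n + 1)) O, φ'.IsHomogeneous e ∧
        ∀ j, ∃ q ∈ Ideal.span S, ∀ α, ρ (coeff α (V j - φ' * Ψ j - q)) = 0) ∧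
  ((∀ a, ∃ b, ρ (b ^ p) = ρ a) → ∀ (S : Set (MvPolynomial (Fin (n + 1)) O))
    (f : MvPolynomial (Fin (n + 1)) O) (g : MvPolynomial (Fin (n + 1)) κ),
    map ρ f - g ^ p ∈ Ideal.span (map ρ '' S) →
      ∃ g' : MvPolynomial (Fin (n + 1)) O, ∃ q ∈ Ideal.span S,
        ∀ α, ρ (coeff α (f - g' ^ p - q)) = 0)

end Pool.Agent.Helper45M.AV
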