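import Mathlib
set_option autoImplicit false

/-!
# Project AV, part 2: coefficient fields of complete perfect fields
-/

namespace Pool.Agent.Helper45M.AV

/-- TAU1 (120-150 lines). Let `F` be an algebraically closed field of characteristic `p` with a
nonarchimedean absolute value `v`, `E` a perfect subfield which is closed in `F`. Then `E` contains a field `M`
(a coefficient field) with `v ≤ 1` on `M` such that every `t ∈ E` with `v t ≤ 1` is in `M` modulo `v < 1`.

Proof. Zorn: let `M` be maximal among the subfields `M ≤ E` with `v m ≤ 1` for all `m ∈ M` (then `v m = 1` for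
`m ≠ 0`); the union of a nonempty chain is such a field (`Subfield` `sSup` of a directed set,
`Subfield.mem_sSup_of_directedOn`), and the prime field is one (`⊥`; all its nonzero elements are roots of
unity, `x ^ (p - 1) = 1`, or: `v` is `≤ 1` on natural numbers, hence on `ZMod p`), `zorn_le_nonempty₀`.
(a) `M` is perfect: `M' = {x ∈ F | x ^ p ∈ M}` is a subfield, contained in `E` (`E` is perfect and the `p`-th
root is unique), with `v ≤ 1` on it, `M ≤ M'`, so `M' = M`.
(b) Let `t ∈ E`, `v t ≤ 1`, and suppose that `v (t - m) < 1` for no `m ∈ M`. Values of polynomials over `M` at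
`t` have `v ≤ 1`. Case 1: `v (f(t)) = 1` for all nonzero `f ∈ M[X]`. Then the field `M(t)` (all `f(t) / g(t)`) is in
`E` and has `v ≤ 1`, so `t ∈ M` by maximality, contradiction (`m = t`).
Case 2: there is a nonzero `f` with `v (f(t)) < 1`; take one of minimal degree, monic (divide by the leading
coefficient, which has `v = 1`). It is irreducible: if `f = g h` then `v (g(t)) < 1` or `v (h(t)) < 1`. So it is
separable as `M` is perfect: `a f + b f' = 1`, hence `v (f'(t)) = 1`.
(c) Newton: let `t_0 = t`, `t_(k+1) = t_k - f(t_k) / f'(t_k) ∈ E`. Let `α` be the root of `f` in `F` closest to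
`t`: `f = ∏ (X - α_i)` over `F`, `v (∏ (t - α_i)) < 1` so `v (t - α) < 1` for some root `α`. For all `s ∈ F` with
`v (s - α) < 1`: `v (s) ≤ 1`, `v (f'(s)) = 1` (as `v (f'(s) - f'(t)) < 1`), `f(α) = 0 = f(s) + f'(s) (α - s) + (α - s) ^ 2 (...)`
with `v (...) ≤ 1` (Taylor), so `v (s - f(s) / f'(s) - α) ≤ v (s - α) ^ 2`. So `v (t_k - α) ≤ v (t - α) ^ (2 ^ k)`, which
tends to `0`, and `α ∈ E` as `E` is closed. (One may avoid sequences: by induction on `k` there is `s ∈ E` with
`v (s - α) ≤ v (t - α) ^ (k + 1)`.)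
(d) `M[α]` is a field (`f` irreducible, `f(α) = 0`), it is contained in `E` and `v ≤ 1` on it (polynomials in
`α` with coefficients in `M`, `v α ≤ 1`). So `α ∈ M` by maximality and `v (t - α) < 1`, a contradiction. -/
def S_TAU1 : Prop := ∀ (p : ℕ) [Fact p.Prime] (F : Type) [Field F] [IsAlgClosed F] [CharP F p]
  (v : AbsoluteValue F ℝ), (∀ x y, v (x + y) ≤ max (v x) (v y)) → ∀ E : Subfield F,
  (∀ a ∈ E, ∃ b ∈ E, b ^ p = a) →
  (∀ x : F, (∀ ε : ℝ, 0 < ε → ∃ y ∈ E, v (x - y) < ε) → x ∈ E) →
  ∃ M : Subfield F, M ≤ E ∧ (∀ m ∈ M, v m ≤ 1) ∧ ∀ t ∈ E, v t ≤ 1 → ∃ m ∈ M, v (t - m) < 1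

end Pool.Agent.Helper45M.AV
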